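import Pool.Agent.Helper77.Gal.Base

/-!
# N1: piecewise affine extension of a function on the nodes
-/

open Set MeasureTheory Filter Topology
open scoped ENNReal NNReal

namespace Pool.Agent.Gal

namespace Network

variable {N : Network}

/-- the affine extension, on raw points -/
private noncomputable def extPt (g : N.V → ℝ) (p : N.Pt) : ℝ :=
  g (N.src p.arc) + p.pos / N.len p.arc * (g (N.tgt p.arc) - g (N.src p.arc))

private theorem extPt_node (g : N.V → ℝ) {p : N.Pt} {v : N.V} (h : N.IsNode p v) :
    extPt g p = g v := by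
  unfold extPt
  rcases h with h | h
  · rw [h.1, ← h.2]; simp
  · rw [h.1, ← h.2, div_self (N.len_pos _).ne']; ring

private theorem extPt_dist (g : N.V → ℝ) (hg : ∀ e, |g (N.src e) - g (N.tgt e)| ≤ N.len e)
    (p q : N.Pt) : |extPt g p - extPt g q| ≤ dist p q := by
  have := pot_le (N := N) (f := extPt g) (K := 1) zero_le_one ?_ ?_ p q
  · simpa using this
  · intro e x y hx hy
    have hL := N.len_pos e
    have h1 : extPt g ⟨e, x, hx⟩ - extPt g ⟨e, y, hy⟩ =
        (x - y) * ((g (N.tgt e) - g (N.src e)) / N.len e) := by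
      simp only [extPt]
      ring
    rw [h1, abs_mul, one_mul]
    refine mul_le_of_le_one_right (abs_nonneg _) ?_
    rw [abs_div, abs_of_pos hL, div_le_one hL, abs_sub_comm]
    exact hg e
  · intro p q v hp hq
    rw [extPt_node g hp, extPt_node g hq]

theorem exists_extend (N : Network) (g : N.V → ℝ)
    (hg : ∀ e, |g (N.src e) - g (N.tgt e)| ≤ N.len e) :
    ∃ f : N.Q → ℝ, LipschitzWith 1 f ∧ (∀ v, f (N.node v) = g v) ∧
      ∀ e, ∀ x ∈ Icc 0 (N.len e),
        f (N.pt e x) = g (N.src e) + x / N.len e * (g (N.tgt e) - g (N.src e)) := by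
  have hd := extPt_dist g hg
  let f : N.Q → ℝ := SeparationQuotient.lift (extPt g) (fun p q h => by
    rw [Metric.inseparable_iff] at h
    have := (hd p q).trans h.le
    linarith [abs_nonpos_iff.1 this])
  have hf : ∀ p, f (N.cls p) = extPt g p := fun p => rfl
  refine ⟨f, ?_, ?_, ?_⟩
  · refine LipschitzWith.of_dist_le_mul fun p q => ?_
    obtain ⟨p, rfl⟩ := mk_surj p
    obtain ⟨q, rfl⟩ := mk_surj q
    rw [hf, hf, dist_mk, Real.dist_eq]
    simpa using hd p q
  · intro v
    rw [node, hf]
    exact extPt_node g (exists_isNode v).choose_spec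
  · intro e x hx
    rw [pt_eq e hx, hf]
    rfl

end Network

end Pool.Agent.Gal
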