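import Pool.Agent.Helper77.Gal.Hit

/-!
# N2: time spent inside and outside a closed set
-/

open Set MeasureTheory Filter Topology
open scoped ENNReal NNReal

namespace Pool.Agent.Gal

section Out

variable {Q : Type} [MetricSpace Q]

/-- time spent in `K` until time `t` -/
noncomputable def tin (K : Set Q) (S : ℝ≥0 → Q) (t : ℝ≥0) : ℝ≥0∞ :=
  volume {x : ℝ | 0 ≤ x ∧ x ≤ t ∧ S x.toNNReal ∈ K}

/-- time spent outside `K` until time `t` -/
noncomputable def tout (K : Set Q) (S : ℝ≥0 → Q) (t : ℝ≥0) : ℝ≥0∞ :=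
  volume {x : ℝ | 0 ≤ x ∧ x ≤ t ∧ S x.toNNReal ∉ K}

theorem tin_add_tout {K : Set Q} (hK : IsClosed K) {S : ℝ≥0 → Q} (hS : Continuous S) (t : ℝ≥0) :
    tin K S t + tout K S t = t := by
  have hM : MeasurableSet {x : ℝ | S x.toNNReal ∈ K} :=
    (hK.preimage (hS.comp continuous_real_toNNReal)).measurableSet
  have h1 : {x : ℝ | 0 ≤ x ∧ x ≤ t ∧ S x.toNNReal ∈ K} =
      Icc (0 : ℝ) t ∩ {x : ℝ | S x.toNNReal ∈ K} := by
    ext x; simp only [mem_ofPred_eq, mem_inter_iff, mem_Icc, and_assoc]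
  have h2 : {x : ℝ | 0 ≤ x ∧ x ≤ t ∧ S x.toNNReal ∉ K} =
      Icc (0 : ℝ) t \ {x : ℝ | S x.toNNReal ∈ K} := by
    ext x; simp only [mem_ofPred_eq, Set.mem_sdiff, mem_Icc, and_assoc]
  rw [tin, tout, h1, h2, measure_inter_add_sdiff _ hM, Real.volume_Icc, sub_zero]
  exact ENNReal.ofReal_coe_nnreal

omit [MetricSpace Q] in
theorem tin_mono {K : Set Q} {S : ℝ≥0 → Q} {s t : ℝ≥0} (hst : s ≤ t) : tin K S s ≤ tin K S t := by
  refine measure_mono ?_
  rintro x ⟨h1, h2, h3⟩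
  exact ⟨h1, h2.trans (by exact_mod_cast hst), h3⟩

omit [MetricSpace Q] in
theorem tout_mono {K : Set Q} {S : ℝ≥0 → Q} {s t : ℝ≥0} (hst : s ≤ t) :
    tout K S s ≤ tout K S t := by
  refine measure_mono ?_
  rintro x ⟨h1, h2, h3⟩
  exact ⟨h1, h2.trans (by exact_mod_cast hst), h3⟩

omit [MetricSpace Q] in
private theorem tout_add_volume_le {K : Set Q} {S : ℝ≥0 → Q} {s t : ℝ≥0} (hst : s ≤ t)
    {W : Set ℝ} (hW : MeasurableSet W)
    (hsub : ∀ x ∈ W, (s : ℝ) < x ∧ x ≤ t ∧ S x.toNNReal ∉ K) :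
    volume W + tout K S s ≤ tout K S t := by
  have hd : Disjoint {x : ℝ | 0 ≤ x ∧ x ≤ s ∧ S x.toNNReal ∉ K} W := by
    rw [Set.disjoint_left]
    rintro x ⟨_, h1, _⟩ h2
    exact absurd (hsub x h2).1 (not_lt.2 h1)
  rw [add_comm, tout, tout, ← measure_union hd hW]
  refine measure_mono ?_
  rintro x (⟨h1, h2, h3⟩ | h)
  · exact ⟨h1, h2.trans (by exact_mod_cast hst), h3⟩
  · obtain ⟨h1, h2, h3⟩ := hsub x h
    exact ⟨s.2.trans h1.le, h2, h3⟩

theorem tout_add_le {K : Set Q} (hK : IsClosed K) {S : ℝ≥0 → Q} (hS : LipschitzWith 1 S)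
    {f : Q → ℝ} (hf : LipschitzWith 1 f) (hc : ∀ x ∈ K, ∀ y ∈ K, f x = f y) {s t : ℝ≥0}
    (hst : s ≤ t) : ENNReal.ofReal |f (S t) - f (S s)| + tout K S s ≤ tout K S t := by
  have hst' : (s : ℝ) ≤ t := by exact_mod_cast hst
  have hlip : ∀ x y : ℝ, 0 ≤ x → x ≤ y → |f (S y.toNNReal) - f (S x.toNNReal)| ≤ y - x := by
    intro x y hx hxy
    have h1 := hf.dist_le_mul (S y.toNNReal) (S x.toNNReal)
    have h2 := dist_le_sub hS (Real.toNNReal_le_toNNReal hxy)
    rw [Real.coe_toNNReal _ hx, Real.coe_toNNReal _ (hx.trans hxy)] at h2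
    rw [Real.dist_eq] at h1
    simp only [NNReal.coe_one, one_mul] at h1
    rw [dist_comm] at h2
    exact h1.trans h2
  have hclosed : IsClosed {x : ℝ | S x.toNNReal ∈ K} :=
    hK.preimage (hS.continuous.comp continuous_real_toNNReal)
  by_cases hne : (Icc (s : ℝ) t ∩ {x : ℝ | S x.toNNReal ∈ K}).Nonempty
  · have hcpt : IsCompact (Icc (s : ℝ) t ∩ {x : ℝ | S x.toNNReal ∈ K}) :=
      isCompact_Icc.inter_right hclosed
    obtain ⟨a, ha⟩ := hcpt.exists_isLeast hne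
    obtain ⟨b, hb⟩ := hcpt.exists_isGreatest hne
    have hab : a ≤ b := ha.2 hb.1
    have hsa : (s : ℝ) ≤ a := ha.1.1.1
    have hbt : b ≤ t := hb.1.1.2
    have hW := tout_add_volume_le (K := K) (S := S) hst
      (W := Ioo (s : ℝ) a ∪ Ioc b t) (measurableSet_Ioo.union measurableSet_Ioc) (by
        rintro x (hx | hx)
        · refine ⟨hx.1, by linarith [hx.2], fun h => ?_⟩
          have := ha.2 ⟨⟨hx.1.le, by linarith [hx.2]⟩, h⟩
          linarith [hx.2]
        · refine ⟨by linarith [hx.1], hx.2, fun h => ?_⟩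
          have := hb.2 ⟨⟨by linarith [hx.1], hx.2⟩, h⟩
          linarith [hx.1])
    refine le_trans (add_le_add ?_ le_rfl) hW
    rw [measure_union _ measurableSet_Ioc, Real.volume_Ioo, Real.volume_Ioc,
      ← ENNReal.ofReal_add (by linarith) (by linarith)]
    · refine ENNReal.ofReal_le_ofReal ?_
      have e1 := hlip s a s.2 hsa
      have e2 := hlip b t (s.2.trans (hsa.trans hab)) hbt
      have e3 := hc _ ha.1.2 _ hb.1.2
      rw [Real.toNNReal_coe] at e1 e2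
      calc |f (S t) - f (S s)| = |(f (S t) - f (S b.toNNReal)) + (f (S a.toNNReal) - f (S s))| := by
            rw [e3]; ring_nf
        _ ≤ |f (S t) - f (S b.toNNReal)| + |f (S a.toNNReal) - f (S s)| := abs_add_le _ _
        _ ≤ (a - s) + (t - b) := by linarith
    · rw [Set.disjoint_left]
      intro x h1 h2
      linarith [h1.2, h2.1]
  · have hW := tout_add_volume_le (K := K) (S := S) hst
      (W := Ioc (s : ℝ) t) measurableSet_Ioc (fun x hx => ⟨hx.1, hx.2, fun h =>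
        hne ⟨x, ⟨hx.1.le, hx.2⟩, h⟩⟩)
    refine le_trans (add_le_add ?_ le_rfl) hW
    rw [Real.volume_Ioc]
    refine ENNReal.ofReal_le_ofReal ?_
    have e1 := hlip s t s.2 hst'
    rwa [Real.toNNReal_coe, Real.toNNReal_coe] at e1

end Out

end Pool.Agent.Gal
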