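import Pool.Agent.Helper77.Neck.Defs
import Pool.Agent.Helper77.Neck.Ext
import Pool.Agent.Helper77.Neck.Out

/-!
# N3: the visited part of the hexagon number `s`
-/

open Set MeasureTheory Filter Topology
open scoped ENNReal NNReal

namespace Pool.Agent.Gal

theorem isClosed_hexa (r : ℕ) [NeZero r] (s : ZMod r) : IsClosed (hexa r s) :=
  isClosed_iUnion_of_finite fun k =>
    ((neck r).isChart (s, k.castSucc)).isClosed_image le_rfl le_rfl

private theorem vis_image_le {g : ℝ → ℝ} (hg : LipschitzWith 1 g) (U : Set ℝ) :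
    volume (g '' U) ≤ volume U := by
  have h := (hg.lipschitzOnWith (s := U)).hausdorffMeasure_image_le (d := 1) zero_le_one
  rw [hausdorffMeasure_real] at h
  simpa using h

private theorem vis_src_ne_tgt (r : ℕ) [NeZero r] (s : ZMod r) (k : Fin 6) :
    (neck r).src (s, k.castSucc) ≠ (neck r).tgt (s, k.castSucc) := by
  intro h
  have h2 : nsrc k.castSucc = ntgt k.castSucc := congrArg Prod.snd h
  have h3 : ∀ k : Fin 6, nsrc k.castSucc ≠ ntgt k.castSucc := by decide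
  exact h3 k h2

private theorem vis_arc_le (r : ℕ) [NeZero r] (s : ZMod r) {S : ℝ≥0 → (neck r).Q}
    (hS : LipschitzWith 1 S) (t : ℝ≥0) (k : Fin 6) :
    volume {x : ℝ | x ∈ Icc (0 : ℝ) 1 ∧ hit S ((neck r).pt (s, k.castSucc) x) ≤ t} ≤
      volume {y : ℝ | 0 ≤ y ∧ y ≤ t ∧ S y.toNNReal ∈ (neck r).pt (s, k.castSucc) '' Ioo 0 1} := by
  classical
  set e : (neck r).E := (s, k.castSucc) with he
  have hne : (neck r).src e ≠ (neck r).tgt e := vis_src_ne_tgt r s k
  obtain ⟨F, hF, -, hFe⟩ := (neck r).exists_extend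
    (fun v => if v = (neck r).tgt e then 1 else 0) (fun e' => by
      change |_| ≤ (1 : ℝ)
      split_ifs <;> simp)
  have hFx : ∀ x ∈ Icc (0 : ℝ) 1, F ((neck r).pt e x) = x := by
    intro x hx
    have h1 := hFe e x hx
    have h2 : (neck r).len e = 1 := rfl
    rw [h2, if_neg hne, if_pos rfl] at h1
    rw [h1]; ring
  have hg : LipschitzWith 1 (fun y : ℝ => F (S y.toNNReal)) := by
    have h := hF.comp (hS.comp Real.lipschitzWith_toNNReal)
    rw [one_mul, one_mul] at h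
    exact h
  have hsub : {x : ℝ | x ∈ Icc (0 : ℝ) 1 ∧ hit S ((neck r).pt e x) ≤ t} ⊆
      (fun y : ℝ => F (S y.toNNReal)) ''
        {y : ℝ | 0 ≤ y ∧ y ≤ t ∧ S y.toNNReal ∈ (neck r).pt e '' Ioo 0 1} ∪ {0, 1} := by
    rintro x ⟨hx, hhit⟩
    rcases hx.1.eq_or_lt with h0 | h0
    · right; left; exact h0.symm
    rcases hx.2.eq_or_lt with h1 | h1
    · right; right; exact h1
    left
    obtain ⟨u, hu, huS⟩ := (hit_le_iff hS.continuous).1 hhit
    refine ⟨u, ⟨u.2, by exact_mod_cast hu, ?_⟩, ?_⟩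
    · rw [Real.toNNReal_coe, huS]
      exact ⟨x, ⟨h0, h1⟩, rfl⟩
    · change F (S (u : ℝ).toNNReal) = x
      rw [Real.toNNReal_coe, huS]
      exact hFx x hx
  refine (measure_mono hsub).trans ((measure_union_le _ _).trans ?_)
  have h0 : volume ({0, 1} : Set ℝ) = 0 := (Set.toFinite _).measure_zero _
  rw [h0, add_zero]
  exact vis_image_le hg _

theorem vis_le (r : ℕ) [NeZero r] (s : ZMod r) {S : ℝ≥0 → (neck r).Q} (hS : LipschitzWith 1 S)
    (t : ℝ≥0) :
    ∑ k : Fin 6, volume {x : ℝ | x ∈ Icc (0 : ℝ) 1 ∧ hit S ((neck r).pt (s, k.castSucc) x) ≤ t} ≤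
      tin (hexa r s) S t := by
  refine (Finset.sum_le_sum fun k _ => vis_arc_le r s hS t k).trans ?_
  have hmeas : ∀ k : Fin 6, MeasurableSet
      {y : ℝ | 0 ≤ y ∧ y ≤ t ∧ S y.toNNReal ∈ (neck r).pt (s, k.castSucc) '' Ioo 0 1} := by
    intro k
    have h1 : IsOpen ((neck r).pt (s, k.castSucc) '' Ioo 0 1) :=
      ((neck r).isChart (s, k.castSucc)).isOpen_image le_rfl le_rfl
    have h2 : MeasurableSet {y : ℝ | S y.toNNReal ∈ (neck r).pt (s, k.castSucc) '' Ioo 0 1} :=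
      (h1.preimage (hS.continuous.comp continuous_real_toNNReal)).measurableSet
    have h3 : {y : ℝ | 0 ≤ y ∧ y ≤ t ∧ S y.toNNReal ∈ (neck r).pt (s, k.castSucc) '' Ioo 0 1} =
        Icc (0 : ℝ) t ∩ {y : ℝ | S y.toNNReal ∈ (neck r).pt (s, k.castSucc) '' Ioo 0 1} := by
      ext x; simp only [mem_ofPred_eq, mem_inter_iff, mem_Icc, and_assoc]
    rw [h3]
    exact measurableSet_Icc.inter h2
  have hdisj : Pairwise (Function.onFun Disjoint fun k : Fin 6 =>
      {y : ℝ | 0 ≤ y ∧ y ≤ t ∧ S y.toNNReal ∈ (neck r).pt (s, k.castSucc) '' Ioo 0 1}) := by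
    intro k l hkl
    rw [Function.onFun, Set.disjoint_left]
    rintro y ⟨_, _, x, hx, hx'⟩ ⟨_, _, z, hz, hz'⟩
    have h1 : (neck r).pt (s, k.castSucc) x = (neck r).pt (s, l.castSucc) z := hx'.trans hz'.symm
    have h2 := (Network.pt_inj (N := neck r) hx ⟨hz.1.le, hz.2.le⟩ h1).1
    have h3 : k.castSucc = l.castSucc := congrArg Prod.snd h2
    exact hkl (Fin.castSucc_injective _ h3)
  have hsum := measure_iUnion (μ := (volume : Measure ℝ)) hdisj hmeas
  rw [tsum_fintype] at hsum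
  rw [← hsum]
  refine measure_mono ?_
  intro y hy
  obtain ⟨k, h1, h2, x, hx, hx'⟩ := mem_iUnion.1 hy
  exact ⟨h1, h2, mem_iUnion.2 ⟨k, x, ⟨hx.1.le, hx.2.le⟩, hx'⟩⟩

end Pool.Agent.Gal
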