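import Pool.Agent.Helper77.Neck.Defs
import Pool.Agent.Helper77.Neck.Ext
import Pool.Agent.Helper77.Neck.Out
import Pool.Agent.Helper77.Neck.Vis

/-!
# NECK-6: the contraction of a hexagon
-/

open Set MeasureTheory Filter Topology
open scoped ENNReal NNReal

namespace Pool.Agent.Gal

/-! ## N6 (file Contr.lean): the contraction -/

section Contr

variable (r : ℕ) [NeZero r]

/-- the corner of the necklace which corresponds to the atom `u` of the ring with base `s` -/
def atn (s : ZMod r) (u : At (r - 1)) : ZMod r × Fin 6 := (s + (u.1 : ℕ) + 1, av u.2)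

theorem cm_self (s : ZMod r) (v : Fin 6) : cm r s (s, v) = none := by
  unfold cm
  rw [dif_pos rfl]

theorem cm_of_ne {s i : ZMod r} (h : i ≠ s) (v : Fin 6) {k : Fin (r - 1)}
    (hk : (i - s).val = k.val + 1) : cm r s (i, v) = some (k, v) := by
  unfold cm
  rw [dif_neg h]
  congr 2
  apply Fin.ext
  simp only
  omega

theorem cm_atn (s : ZMod r) (u : At (r - 1)) : cm r s (atn r s u) = atv u := by
  have hlt : (u.1 : ℕ) + 1 < r := by
    have := u.1.2
    omega
  have h1 : s + ((u.1 : ℕ) : ZMod r) + 1 - s = (((u.1 : ℕ) + 1 : ℕ) : ZMod r) := by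
    push_cast; ring
  have h2 : (s + ((u.1 : ℕ) : ZMod r) + 1 - s).val = (u.1 : ℕ) + 1 := by
    rw [h1, ZMod.val_natCast_of_lt hlt]
  have hne : s + ((u.1 : ℕ) : ZMod r) + 1 ≠ s := by
    intro h
    rw [h, sub_self, ZMod.val_zero] at h2
    omega
  exact cm_of_ne r hne _ h2

theorem arc_cases (hr : 2 ≤ r) (s : ZMod r) (e : ZMod r × Fin 7) :
    cm r s ((neck r).src e) = cm r s ((neck r).tgt e) ∨
      (ringG (r - 1)).Adj (cm r s ((neck r).src e)) (cm r s ((neck r).tgt e)) := by
  obtain ⟨i, k⟩ := e
  have hsrc : (neck r).src (i, k) = (i, nsrc k) := rfl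
  have htgt : (neck r).tgt (i, k) = (if k = 6 then i + 1 else i, ntgt k) := rfl
  rw [hsrc, htgt]
  by_cases hk : k = 6
  · subst hk
    rw [if_pos rfl]
    have h3 : nsrc 6 = 3 := rfl
    have h0 : ntgt 6 = 0 := rfl
    rw [h3, h0]
    have _ : Fact (1 < r) := ⟨by omega⟩
    have hone : (1 : ZMod r).val = 1 := ZMod.val_one r
    right
    by_cases hi : i = s
    · subst hi
      have hne : i + 1 ≠ i := by
        intro h
        have h1 : (1 : ZMod r) = 0 := by simpa using h
        rw [h1, ZMod.val_zero] at hone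
        omega
      rw [cm_self, cm_of_ne r hne 0 (k := ⟨0, by omega⟩) (by
        rw [add_sub_cancel_left, hone])]
      rw [ringG, SimpleGraph.fromRel_adj]
      exact ⟨by simp, Or.inl (Or.inl ⟨rfl, rfl⟩)⟩
    · by_cases hi' : i + 1 = s
      · subst hi'
        have hv : (i - (i + 1)).val = r - 1 := by
          by_contra hne'
          have hlt : (i - (i + 1)).val < r := ZMod.val_lt _
          have h1 : (i - (i + 1) + 1).val = (i - (i + 1)).val + 1 := by
            rw [ZMod.val_add_of_lt (by rw [hone]; omega), hone]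
          have h2 : i - (i + 1) + 1 = 0 := by ring
          rw [h2, ZMod.val_zero] at h1
          omega
        rw [cm_self, cm_of_ne r hi 3 (k := ⟨r - 2, by omega⟩) (by rw [hv]; simp only; omega)]
        rw [ringG, SimpleGraph.fromRel_adj]
        exact ⟨by simp, Or.inr (Or.inr ⟨by simp only; omega, rfl⟩)⟩
      · have hv0 : (i - s).val ≠ 0 := by
          rw [Ne, ZMod.val_eq_zero]
          exact sub_ne_zero.2 hi
        have hv1 : (i + 1 - s).val ≠ 0 := by
          rw [Ne, ZMod.val_eq_zero]
          exact sub_ne_zero.2 hi'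
        have hlt : (i - s).val < r := ZMod.val_lt _
        have hlt1 : (i + 1 - s).val < r := ZMod.val_lt _
        have hv : (i + 1 - s).val = (i - s).val + 1 := by
          have h1 : i + 1 - s = (i - s) + 1 := by ring
          have h2 : (i - s).val + 1 < r := by
            by_contra h
            have h3 : (i - s).val + 1 = r := by omega
            apply hv1
            have h4 : i + 1 - s = (((i - s).val + 1 : ℕ) : ZMod r) := by
              rw [Nat.cast_add, ZMod.natCast_zmod_val, Nat.cast_one]; ring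
            rw [h4, h3, ZMod.natCast_self, ZMod.val_zero]
          rw [h1, ZMod.val_add_of_lt (by rw [hone]; exact h2), hone]
        rw [cm_of_ne r hi 3 (k := ⟨(i - s).val - 1, by omega⟩) (by simp only; omega),
          cm_of_ne r hi' 0 (k := ⟨(i + 1 - s).val - 1, by omega⟩) (by simp only; omega)]
        rw [ringG, SimpleGraph.fromRel_adj]
        refine ⟨by simp, Or.inl (Or.inr ⟨by simp only; omega, rfl, rfl⟩)⟩
  · rw [if_neg hk]
    by_cases hi : i = s
    · left
      subst hi
      rw [cm_self, cm_self]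
    · right
      have hv0 : (i - s).val ≠ 0 := by
        rw [Ne, ZMod.val_eq_zero]
        exact sub_ne_zero.2 hi
      have hlt : (i - s).val < r := ZMod.val_lt _
      rw [cm_of_ne r hi _ (k := ⟨(i - s).val - 1, by omega⟩) (by simp only; omega),
        cm_of_ne r hi _ (k := ⟨(i - s).val - 1, by omega⟩) (by simp only; omega)]
      have hk6 : k.val < 6 := by
        have h1 := k.2
        have h2 : k.val ≠ 6 := fun h => hk (Fin.ext h)
        omega
      have hne : nsrc k ≠ ntgt k := by
        have hall : ∀ k : Fin 7, k ≠ 6 → nsrc k ≠ ntgt k := by decide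
        exact hall k hk
      rw [ringG, SimpleGraph.fromRel_adj]
      refine ⟨?_, Or.inl (Or.inl ⟨rfl, ⟨k.val, hk6⟩, rfl, rfl⟩)⟩
      intro h
      simp only [Option.some.injEq, Prod.mk.injEq, true_and] at h
      exact hne h

/-- `q` is a point of the necklace over the vertex `z` of the contracted ring -/
def Over (s : ZMod r) (q : (neck r).Q) (z : RV (r - 1)) : Prop :=
  (∃ x, q = (neck r).node x ∧ cm r s x = z) ∨ (q ∈ hexa r s ∧ z = none)

theorem over_dist (hr : 2 ≤ r) (s : ZMod r) {S : ℝ≥0 → (neck r).Q} (hS : LipschitzWith 1 S)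
    {t t' : ℝ≥0} (htt : t ≤ t') {z z' : RV (r - 1)} (h : Over r s (S t) z)
    (h' : Over r s (S t') z') :
    ((ringG (r - 1)).dist z z' : ℝ≥0∞) + tout (hexa r s) S t ≤ tout (hexa r s) S t' := by
  let g : (neck r).V → ℝ := fun x => ((ringG (r - 1)).dist z (cm r s x) : ℝ)
  have hg : ∀ e, |g ((neck r).src e) - g ((neck r).tgt e)| ≤ (neck r).len e := by
    intro e
    change |((ringG (r - 1)).dist z (cm r s ((neck r).src e)) : ℝ) -
      ((ringG (r - 1)).dist z (cm r s ((neck r).tgt e)) : ℝ)| ≤ 1
    rcases arc_cases r hr s e with h1 | h1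
    · rw [h1, sub_self, abs_zero]
      exact zero_le_one
    · have h2 := h1.diff_dist_adj (u := z)
      rw [abs_le]
      have h3 : (ringG (r - 1)).dist z (cm r s ((neck r).tgt e)) ≤
          (ringG (r - 1)).dist z (cm r s ((neck r).src e)) + 1 := by omega
      have h4 : (ringG (r - 1)).dist z (cm r s ((neck r).src e)) ≤
          (ringG (r - 1)).dist z (cm r s ((neck r).tgt e)) + 1 := by omega
      have h3' : ((ringG (r - 1)).dist z (cm r s ((neck r).tgt e)) : ℝ) ≤
          (ringG (r - 1)).dist z (cm r s ((neck r).src e)) + 1 := by exact_mod_cast h3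
      have h4' : ((ringG (r - 1)).dist z (cm r s ((neck r).src e)) : ℝ) ≤
          (ringG (r - 1)).dist z (cm r s ((neck r).tgt e)) + 1 := by exact_mod_cast h4
      constructor <;> linarith
  obtain ⟨f, hf, hfn, hfp⟩ := (neck r).exists_extend g hg
  have hhex : ∀ q ∈ hexa r s, f q = ((ringG (r - 1)).dist z none : ℝ) := by
    intro q hq
    obtain ⟨k, hk⟩ := mem_iUnion.1 hq
    obtain ⟨x, hx, rfl⟩ := hk
    rw [hfp (s, k.castSucc) x hx]
    have hk6 : k.castSucc ≠ (6 : Fin 7) := by
      intro h
      have := congrArg Fin.val h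
      have h2 := k.2
      simp at this
      omega
    have e1 : g ((neck r).src (s, k.castSucc)) = ((ringG (r - 1)).dist z none : ℝ) := by
      change ((ringG (r - 1)).dist z (cm r s (s, nsrc k.castSucc)) : ℝ) = _
      rw [cm_self]
    have e2 : g ((neck r).tgt (s, k.castSucc)) = ((ringG (r - 1)).dist z none : ℝ) := by
      change ((ringG (r - 1)).dist z
        (cm r s (if k.castSucc = 6 then s + 1 else s, ntgt k.castSucc)) : ℝ) = _
      rw [if_neg hk6, cm_self]
    rw [e1, e2]
    ring
  have hover : ∀ q z'', Over r s q z'' → f q = ((ringG (r - 1)).dist z z'' : ℝ) := by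
    rintro q z'' (⟨x, rfl, hx⟩ | ⟨hq, rfl⟩)
    · rw [hfn]
      change ((ringG (r - 1)).dist z (cm r s x) : ℝ) = _
      rw [hx]
    · exact hhex q hq
  have key := tout_add_le (isClosed_hexa r s) hS hf
    (fun x hx y hy => (hhex x hx).trans (hhex y hy).symm) htt
  rw [hover _ _ h, hover _ _ h', SimpleGraph.dist_self, Nat.cast_zero, sub_zero, Nat.abs_cast,
    ENNReal.ofReal_natCast] at key
  exact key

end Contr

end Pool.Agent.Gal
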