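import Pool.Agent.Helper77.Neck.Defs

/-!
# Closed curves in the necklace (module N9)
-/

open Set MeasureTheory Filter Topology
open scoped ENNReal NNReal

namespace Pool.Agent.Gal

namespace Curve

theorem lip_of_pieces {Q : Type*} [MetricSpace Q] {f : ℝ → Q} {P : ℝ} (hP : 0 < P)
    (h : ∀ n : ℤ, ∀ x ∈ Icc ((n : ℝ) * P) (((n : ℝ) + 1) * P),
      ∀ y ∈ Icc ((n : ℝ) * P) (((n : ℝ) + 1) * P), x ≤ y → dist (f x) (f y) ≤ y - x) :
    LipschitzWith 1 f := by
  have hfl : ∀ x : ℝ, x ≤ ((⌊x / P⌋ : ℝ) + 1) * P := fun x => by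
    rw [← div_le_iff₀ hP]; exact (Int.lt_floor_add_one _).le
  have hfl' : ∀ x : ℝ, (⌊x / P⌋ : ℝ) * P ≤ x := fun x => by
    rw [← le_div_iff₀ hP]; exact Int.floor_le _
  have key : ∀ k : ℕ, ∀ x y : ℝ, x ≤ y → y ≤ ((⌊x / P⌋ : ℝ) + 1 + k) * P →
      dist (f x) (f y) ≤ y - x := by
    intro k
    induction k with
    | zero =>
      intro x y hxy hy
      exact h _ x ⟨hfl' x, hfl x⟩ y ⟨(hfl' x).trans hxy, by simpa using hy⟩ hxy
    | succ k ih =>
      intro x y hxy hy
      rcases le_total y (((⌊x / P⌋ : ℝ) + 1 + k) * P) with hy' | hy'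
      · exact ih x y hxy hy'
      · have hxz : x ≤ ((⌊x / P⌋ : ℝ) + 1 + k) * P := by
          have h2 := hfl x
          have : (0 : ℝ) ≤ k * P := by positivity
          nlinarith
        have h3 := ih x _ hxz le_rfl
        have h4 := h (⌊x / P⌋ + 1 + k) (((⌊x / P⌋ : ℝ) + 1 + k) * P)
          ⟨by push_cast; exact le_rfl, by push_cast; nlinarith⟩ y
          ⟨by push_cast; exact hy', by push_cast at hy ⊢; linarith⟩ hy'
        linarith [dist_triangle (f x) (f (((⌊x / P⌋ : ℝ) + 1 + k) * P)) (f y)]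
  have key' : ∀ x y : ℝ, x ≤ y → dist (f x) (f y) ≤ y - x := by
    intro x y hxy
    obtain ⟨k, hk⟩ := exists_nat_ge (y / P - (⌊x / P⌋ + 1))
    refine key k x y hxy ?_
    rw [← div_le_iff₀ hP]
    linarith
  refine LipschitzWith.of_dist_le_mul fun x y => ?_
  rw [NNReal.coe_one, one_mul, Real.dist_eq]
  rcases le_total x y with hxy | hxy
  · rw [abs_sub_comm, abs_of_nonneg (by linarith)]
    exact key' x y hxy
  · rw [dist_comm, abs_of_nonneg (by linarith)]
    exact key' y x hxy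

/-- the arcs inside a hexagon on the route `b` -/
def fa (b : Bool) (m : ℤ) : Fin 7 :=
  if m = 0 then (if b then 0 else 3) else if m = 1 then (if b then 1 else 4) else
    if m = 2 then (if b then 2 else 5) else 6

variable (r : ℕ) [NeZero r] (j : ZMod r)

/-- arc number `n` of the infinite walk -/
def seg (b : Bool) (n : ℤ) : ZMod r × Fin 7 := (j + 1 + ((n / 4 : ℤ) : ZMod r), fa b (n % 4))

omit [NeZero r] in
theorem seg_eq (b : Bool) (k m : ℤ) (h0 : 0 ≤ m) (h4 : m < 4) :
    seg r j b (4 * k + m) = (j + 1 + (k : ZMod r), fa b m) := by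
  have h1 : (4 * k + m) / 4 = k := by omega
  have h2 : (4 * k + m) % 4 = m := by omega
  rw [seg, h1, h2]

theorem src_seg (b : Bool) (n : ℤ) : (neck r).src (seg r j b n) =
    (j + 1 + ((n / 4 : ℤ) : ZMod r), nsrc (fa b (n % 4))) := rfl

theorem tgt_eq_src (b : Bool) (n : ℤ) :
    (neck r).tgt (seg r j b n) = (neck r).src (seg r j b (n + 1)) := by
  obtain ⟨k, m, h0, h4, rfl⟩ : ∃ k m : ℤ, 0 ≤ m ∧ m < 4 ∧ n = 4 * k + m :=
    ⟨n / 4, n % 4, by omega, by omega, by omega⟩
  have hm : m = 0 ∨ m = 1 ∨ m = 2 ∨ m = 3 := by omega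
  have hs : ∀ m' : ℤ, 0 ≤ m' → m' < 4 → (neck r).src (seg r j b (4 * k + m')) =
      (j + 1 + (k : ZMod r), nsrc (fa b m')) := fun m' h h' => by
    rw [seg_eq r j b k m' h h']; rfl
  rcases hm with rfl | rfl | rfl | rfl
  · rw [add_assoc, hs (0 + 1) (by norm_num) (by norm_num), seg_eq r j b k 0 (by norm_num) (by norm_num)]
    cases b <;> rfl
  · rw [add_assoc, hs (1 + 1) (by norm_num) (by norm_num), seg_eq r j b k 1 (by norm_num) (by norm_num)]
    cases b <;> rfl
  · rw [add_assoc, hs (2 + 1) (by norm_num) (by norm_num), seg_eq r j b k 2 (by norm_num) (by norm_num)]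
    cases b <;> rfl
  · rw [show 4 * k + 3 + 1 = 4 * (k + 1) + 0 by ring,
      seg_eq r j b (k + 1) 0 (by norm_num) (by norm_num),
      seg_eq r j b k 3 (by norm_num) (by norm_num)]
    cases b
    · change (j + 1 + (k : ZMod r) + 1, (0 : Fin 6)) = (j + 1 + ((k + 1 : ℤ) : ZMod r), 0)
      push_cast
      rw [add_assoc (j + 1)]
    · change (j + 1 + (k : ZMod r) + 1, (0 : Fin 6)) = (j + 1 + ((k + 1 : ℤ) : ZMod r), 0)
      push_cast
      rw [add_assoc (j + 1)]

/-- the infinite walk -/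
noncomputable def W (b : Bool) (t : ℝ) : (neck r).Q := (neck r).pt (seg r j b ⌊t⌋) (Int.fract t)

theorem W_eq (b : Bool) (n : ℤ) {x : ℝ} (hx : x ∈ Icc (0 : ℝ) 1) :
    W r j b (n + x) = (neck r).pt (seg r j b n) x := by
  rcases eq_or_lt_of_le hx.2 with h1 | h1
  · subst h1
    rw [W, show ((n : ℝ) + 1) = ((n + 1 : ℤ) : ℝ) by push_cast; ring, Int.floor_intCast,
      Int.fract_intCast, (neck r).pt_zero, ← tgt_eq_src]
    exact ((neck r).pt_len (seg r j b n)).symm
  · rw [W, Int.floor_intCast_add, Int.fract_intCast_add, Int.fract_eq_self.2 ⟨hx.1, h1⟩,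
      Int.floor_eq_zero_iff.2 ⟨hx.1, h1⟩, add_zero]

theorem W_lip (b : Bool) : LipschitzWith 1 (W r j b) := by
  refine lip_of_pieces one_pos fun n x hx y hy hxy => ?_
  rw [mul_one, mul_one] at hx hy
  have hx' : x - n ∈ Icc (0 : ℝ) 1 := ⟨by linarith [hx.1], by linarith [hx.2]⟩
  have hy' : y - n ∈ Icc (0 : ℝ) 1 := ⟨by linarith [hy.1], by linarith [hy.2]⟩
  have h1 := W_eq r j b n hx'
  have h2 := W_eq r j b n hy'
  rw [add_sub_cancel] at h1 h2
  rw [h1, h2]
  refine (Network.dist_pt_le (N := neck r) (seg r j b n) hx' hy').trans ?_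
  rw [abs_sub_comm, abs_of_nonneg (by linarith)]
  linarith

/-- on `[0, P]` -/
noncomputable def q (t : ℝ) : (neck r).Q :=
  if t ≤ 4 * r - 1 then W r j true t else W r j false (8 * r - 2 - t)

theorem W_zero : W r j true 0 = W r j false 0 := by
  have h1 := W_eq r j true 0 (x := 0) ⟨le_rfl, zero_le_one⟩
  have h2 := W_eq r j false 0 (x := 0) ⟨le_rfl, zero_le_one⟩
  rw [Int.cast_zero, add_zero] at h1 h2
  rw [h1, h2, (neck r).pt_zero, (neck r).pt_zero]
  rfl

theorem W_half : W r j true (4 * r - 1) = W r j false (4 * r - 1) := by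
  have h0 : (4 * r - 1 : ℝ) = ((4 * ((r : ℤ) - 1) + 3 : ℤ) : ℝ) + 0 := by push_cast; ring
  rw [h0, W_eq r j true _ ⟨le_rfl, zero_le_one⟩, W_eq r j false _ ⟨le_rfl, zero_le_one⟩,
    seg_eq r j true _ 3 (by norm_num) (by norm_num),
    seg_eq r j false _ 3 (by norm_num) (by norm_num)]
  rfl

theorem q_lip : LipschitzWith 1 (q r j) := by
  have hA := fun x y => (W_lip r j true).dist_le_mul x y
  have hB := fun x y => (W_lip r j false).dist_le_mul x y
  have key' : ∀ x y : ℝ, x ≤ y → dist (q r j x) (q r j y) ≤ y - x := by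
    intro x y hxy
    unfold q
    split_ifs with h1 h2 h2
    · have := hA x y
      rwa [NNReal.coe_one, one_mul, Real.dist_eq, abs_sub_comm, abs_of_nonneg (by linarith)] at this
    · have h3 := hA x (4 * r - 1)
      have h4 := hB (4 * r - 1) (8 * r - 2 - y)
      rw [NNReal.coe_one, one_mul, Real.dist_eq, abs_sub_comm, abs_of_nonneg (by linarith)] at h3
      rw [NNReal.coe_one, one_mul, Real.dist_eq, abs_of_nonneg (by linarith), ← W_half] at h4
      have := dist_triangle (W r j true x) (W r j true (4 * r - 1)) (W r j false (8 * r - 2 - y))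
      linarith
    · exact absurd (hxy.trans h2) h1
    · have := hB (8 * r - 2 - x) (8 * r - 2 - y)
      rw [NNReal.coe_one, one_mul, Real.dist_eq, abs_of_nonneg (by linarith)] at this
      linarith
  refine LipschitzWith.of_dist_le_mul fun x y => ?_
  rw [NNReal.coe_one, one_mul, Real.dist_eq]
  rcases le_total x y with hxy | hxy
  · rw [abs_sub_comm, abs_of_nonneg (by linarith)]
    exact key' x y hxy
  · rw [dist_comm, abs_of_nonneg (by linarith)]
    exact key' y x hxy

theorem r_pos : (1 : ℝ) ≤ r := by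
  exact_mod_cast Nat.one_le_iff_ne_zero.2 (NeZero.ne r)

theorem P_pos : (0 : ℝ) < 8 * r - 2 := by
  have := r_pos r
  linarith

theorem q_zero : q r j 0 = W r j true 0 := by
  rw [q, if_pos (by linarith [r_pos r])]

theorem q_P : q r j (8 * r - 2) = q r j 0 := by
  rw [q_zero, q, if_neg (by linarith [r_pos r]), sub_self, W_zero]

/-- the closed curve -/
noncomputable def p (t : ℝ) : (neck r).Q := q r j (toIcoMod (P_pos r) 0 t)

theorem p_add (t : ℝ) : p r j (t + (8 * r - 2)) = p r j t := by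
  rw [p, toIcoMod_add_right, p]

theorem p_eq (n : ℤ) {t : ℝ} (ht : t ∈ Icc (0 : ℝ) (8 * r - 2)) :
    p r j (n * (8 * r - 2) + t) = q r j t := by
  have hP := P_pos r
  rcases eq_or_lt_of_le ht.2 with h1 | h1
  · rw [h1, p_add, q_P, p]
    congr 1
    rw [toIcoMod_eq_iff]
    refine ⟨⟨le_rfl, by linarith⟩, n, ?_⟩
    rw [zsmul_eq_mul, zero_add]
  · rw [p]
    congr 1
    rw [toIcoMod_eq_iff]
    refine ⟨⟨ht.1, by linarith⟩, n, ?_⟩
    rw [zsmul_eq_mul, add_comm]

theorem p_lip : LipschitzWith 1 (p r j) := by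
  refine lip_of_pieces (P_pos r) fun n x hx y hy hxy => ?_
  have hx' : x - n * (8 * r - 2) ∈ Icc (0 : ℝ) (8 * r - 2) :=
    ⟨by linarith [hx.1], by linarith [hx.2]⟩
  have hy' : y - n * (8 * r - 2) ∈ Icc (0 : ℝ) (8 * r - 2) :=
    ⟨by linarith [hy.1], by linarith [hy.2]⟩
  have h1 := p_eq r j n hx'
  have h2 := p_eq r j n hy'
  rw [add_sub_cancel] at h1 h2
  rw [h1, h2]
  have := (q_lip r j).dist_le_mul (x - n * (8 * r - 2)) (y - n * (8 * r - 2))
  rw [NNReal.coe_one, one_mul, Real.dist_eq, abs_sub_comm, abs_of_nonneg (by linarith)] at this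
  linarith

theorem p_pos {t : ℝ} (h0 : 0 ≤ t) (h1 : t ≤ 4 * r - 1) : p r j t = W r j true t := by
  have := p_eq r j 0 (t := t) ⟨h0, by linarith [r_pos r]⟩
  rw [Int.cast_zero, zero_mul, zero_add] at this
  rw [this, q, if_pos h1]

theorem p_neg {t : ℝ} (h0 : 0 ≤ t) (h1 : t ≤ 4 * r - 1) : p r j (-t) = W r j false t := by
  have := p_eq r j (-1) (t := 8 * r - 2 - t) ⟨by linarith [r_pos r], by linarith⟩
  rw [show ((-1 : ℤ) : ℝ) * (8 * r - 2) + (8 * r - 2 - t) = -t by push_cast; ring] at this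
  rw [this, q]
  split_ifs with h2
  · have h3 : t = 4 * r - 1 := by linarith
    rw [h3, show (8 * r - 2 - (4 * r - 1) : ℝ) = 4 * r - 1 by ring, W_half]
  · rw [sub_sub_cancel]

theorem W_val (b : Bool) (i : ZMod r) (m : ℤ) (h0 : 0 ≤ m) (h4 : m < 4) {x : ℝ}
    (hx : x ∈ Icc (0 : ℝ) 1) :
    W r j b (4 * (i - j - 1).val + m + x) = (neck r).pt (i, fa b m) x := by
  have h1 : (4 * ((i - j - 1).val : ℝ) + m) = ((4 * ((i - j - 1).val : ℤ) + m : ℤ) : ℝ) := by
    push_cast; ring
  rw [h1, W_eq r j b _ hx, seg_eq r j b _ m h0 h4]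
  congr 2
  rw [Int.cast_natCast, ZMod.natCast_zmod_val]
  ring

end Curve

open Curve in
theorem exists_curve (r : ℕ) [NeZero r] (hr : 2 ≤ r) (j : ZMod r) :
    ∃ p : ℝ → (neck r).Q, LipschitzWith 1 p ∧ (∀ t, p (t + (8 * r - 2)) = p t) ∧
      (∀ (i : ZMod r) (k : Fin 6), ∀ x ∈ Icc (0 : ℝ) 1,
        ∃ t, p t = (neck r).pt (i, k.castSucc) x) ∧
      ∀ i : ZMod r, i ≠ j → ∀ x ∈ Icc (0 : ℝ) 1,
        p (4 * (i - j - 1).val + 3 + x) = (neck r).pt (i, 6) x ∧
        p (-(4 * (i - j - 1).val + 3 + x)) = (neck r).pt (i, 6) x := by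
  refine ⟨p r j, p_lip r j, p_add r j, ?_, ?_⟩
  · intro i k x hx
    have hval : ((i - j - 1).val : ℝ) ≤ r - 1 := by
      have h1 : (i - j - 1).val < r := ZMod.val_lt _
      have h2 : ((i - j - 1).val : ℝ) + 1 ≤ r := by exact_mod_cast h1
      linarith
    have hval0 : (0 : ℝ) ≤ ((i - j - 1).val : ℝ) := by positivity
    have hT : ∀ m : ℤ, 0 ≤ m → m < 3 → p r j (4 * (i - j - 1).val + m + x) =
        (neck r).pt (i, fa true m) x := fun m h0 h3 => by
      have h0' : (0 : ℝ) ≤ m := by exact_mod_cast h0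
      have h3' : (m : ℝ) ≤ 2 := by exact_mod_cast (show m ≤ 2 by omega)
      rw [p_pos r j (by linarith [hx.1]) (by linarith [hx.2]),
        W_val r j true i m h0 (by omega) hx]
    have hF : ∀ m : ℤ, 0 ≤ m → m < 3 → p r j (-(4 * (i - j - 1).val + m + x)) =
        (neck r).pt (i, fa false m) x := fun m h0 h3 => by
      have h0' : (0 : ℝ) ≤ m := by exact_mod_cast h0
      have h3' : (m : ℝ) ≤ 2 := by exact_mod_cast (show m ≤ 2 by omega)
      rw [p_neg r j (by linarith [hx.1]) (by linarith [hx.2]),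
        W_val r j false i m h0 (by omega) hx]
    fin_cases k
    · exact ⟨_, hT 0 le_rfl (by norm_num)⟩
    · exact ⟨_, hT 1 (by norm_num) (by norm_num)⟩
    · exact ⟨_, hT 2 (by norm_num) (by norm_num)⟩
    · exact ⟨_, hF 0 le_rfl (by norm_num)⟩
    · exact ⟨_, hF 1 (by norm_num) (by norm_num)⟩
    · exact ⟨_, hF 2 (by norm_num) (by norm_num)⟩
  · intro i hi x hx
    have hval : ((i - j - 1).val : ℝ) ≤ r - 2 := by
      have h1 : (i - j - 1).val < r := ZMod.val_lt _
      have h2 : (i - j - 1).val ≠ r - 1 := by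
        intro h
        apply hi
        have h3 : ((i - j - 1).val : ZMod r) = ((r - 1 : ℕ) : ZMod r) := by rw [h]
        rw [ZMod.natCast_zmod_val, Nat.cast_sub (by omega), Nat.cast_one, ZMod.natCast_self,
          zero_sub] at h3
        have h4 : i - j = 0 := by
          have := congrArg (· + 1) h3
          simpa using this
        exact sub_eq_zero.1 h4
      have h3 : (i - j - 1).val + 2 ≤ r := by omega
      have h4 : ((i - j - 1).val : ℝ) + 2 ≤ r := by exact_mod_cast h3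
      linarith
    have hval0 : (0 : ℝ) ≤ ((i - j - 1).val : ℝ) := by positivity
    constructor
    · rw [p_pos r j (by linarith [hx.1]) (by linarith [hx.2])]
      exact_mod_cast W_val r j true i 3 (by norm_num) (by norm_num) hx
    · rw [p_neg r j (by linarith [hx.1]) (by linarith [hx.2])]
      exact_mod_cast W_val r j false i 3 (by norm_num) (by norm_num) hx

end Pool.Agent.Gal
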