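import Pool.Agent.Helper77.Gal.Base

/-!
# The necklace of hexagons
-/

open Set MeasureTheory Filter Topology
open scoped ENNReal NNReal

namespace Pool.Agent.Gal

/-- source corners of the seven arcs of a cell (`6` is the connector to the next cell) -/
def nsrc : Fin 7 → Fin 6 := ![0, 1, 2, 0, 4, 5, 3]

/-- target corners of the seven arcs of a cell -/
def ntgt : Fin 7 → Fin 6 := ![1, 2, 3, 4, 5, 3, 0]

/-- adjacency of nodes of the necklace -/
def NAdj (r : ℕ) (a b : ZMod r × Fin 6) : Prop := ∃ e : ZMod r × Fin 7,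
  ((e.1, nsrc e.2) = a ∧ (if e.2 = 6 then e.1 + 1 else e.1, ntgt e.2) = b) ∨
  ((e.1, nsrc e.2) = b ∧ (if e.2 = 6 then e.1 + 1 else e.1, ntgt e.2) = a)

theorem NAdj.symm {r : ℕ} {a b : ZMod r × Fin 6} (h : NAdj r a b) : NAdj r b a := by
  obtain ⟨e, h | h⟩ := h
  · exact ⟨e, Or.inr h⟩
  · exact ⟨e, Or.inl h⟩

theorem nadj_zero (r : ℕ) (i : ZMod r) (v : Fin 6) :
    Relation.ReflTransGen (NAdj r) (i, 0) (i, v) := by
  have s1 : NAdj r (i, 0) (i, 1) := ⟨(i, 0), Or.inl ⟨by simp [nsrc], by simp [ntgt]⟩⟩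
  have s2 : NAdj r (i, 1) (i, 2) := ⟨(i, 1), Or.inl ⟨by simp [nsrc], by simp [ntgt]⟩⟩
  have s3 : NAdj r (i, 2) (i, 3) := ⟨(i, 2), Or.inl ⟨by simp [nsrc], by simp [ntgt]⟩⟩
  have s4 : NAdj r (i, 0) (i, 4) := ⟨(i, 3), Or.inl ⟨by simp [nsrc], by simp [ntgt]⟩⟩
  have s5 : NAdj r (i, 4) (i, 5) := ⟨(i, 4), Or.inl ⟨by simp [nsrc], by simp [ntgt]⟩⟩
  fin_cases v
  · exact .refl
  · exact .single s1
  · exact .tail (.single s1) s2
  · exact .tail (.tail (.single s1) s2) s3
  · exact .single s4
  · exact .tail (.single s4) s5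

theorem nadj_next (r : ℕ) (i : ZMod r) : Relation.ReflTransGen (NAdj r) (i, 0) (i + 1, 0) :=
  .tail (nadj_zero r i 3) ⟨(i, 6), Or.inl ⟨by simp [nsrc], by simp [ntgt]⟩⟩

theorem nadj_conn (r : ℕ) [NeZero r] (a b : ZMod r × Fin 6) :
    Relation.ReflTransGen (NAdj r) a b := by
  have hsymm : ∀ {a b}, Relation.ReflTransGen (NAdj r) a b →
      Relation.ReflTransGen (NAdj r) b a := by
    intro a b h
    induction h with
    | refl => exact .refl
    | tail _ h ih => exact .head h.symm ih
  have key : ∀ n : ℕ, ∀ i : ZMod r, Relation.ReflTransGen (NAdj r) (i, 0) (i + n, 0) := by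
    intro n
    induction n with
    | zero => intro i; simpa using Relation.ReflTransGen.refl
    | succ n ih =>
      intro i
      have := (ih i).trans (nadj_next r (i + n))
      simpa [add_assoc] using this
  have h0 : Relation.ReflTransGen (NAdj r) (a.1, 0) (b.1, 0) := by
    have := key (b.1 - a.1).val a.1
    rwa [ZMod.natCast_val, ZMod.cast_id', id, add_sub_cancel] at this
  exact (hsymm (nadj_zero r a.1 a.2)).trans (h0.trans (nadj_zero r b.1 b.2))

/-- The necklace: `r` hexagons with corners `(i, 0), …, (i, 5)` in the order `0 1 2 3 5 4`; the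
corner `(i, 3)` is joined to the corner `(i + 1, 0)` by a connector.  All arcs have length `1`. -/
def neck (r : ℕ) [NeZero r] : Network where
  V := ZMod r × Fin 6
  E := ZMod r × Fin 7
  neE := ⟨(0, 0)⟩
  src := fun e => (e.1, nsrc e.2)
  tgt := fun e => (if e.2 = 6 then e.1 + 1 else e.1, ntgt e.2)
  len := fun _ => 1
  len_pos := fun _ => one_pos
  conn := nadj_conn r

variable (r : ℕ) [NeZero r]

/-- the hexagon number `s` -/
def hexa (s : ZMod r) : Set (neck r).Q := ⋃ k : Fin 6, (neck r).pt (s, k.castSucc) '' Icc 0 1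

/-- the open connector from the hexagon `s` to the hexagon `s + 1` -/
def bar (s : ZMod r) : Set (neck r).Q := (neck r).pt (s, 6) '' Ioo 0 1

/-- vertices of the contracted ring: `none` is the contracted hexagon, `some (k, v)` the corner `v`
of the hexagon number `k + 1` after it -/
abbrev RV (R : ℕ) := Option (Fin R × Fin 6)

/-- edges of the contracted ring (one orientation) -/
def ringRel (R : ℕ) : RV R → RV R → Prop
  | none, some (k, v) => (k.val = 0 ∧ v = 0) ∨ (k.val + 1 = R ∧ v = 3)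
  | some (k, v), some (l, u) => (k = l ∧ ∃ e : Fin 6, nsrc e.castSucc = v ∧ ntgt e.castSucc = u) ∨
      (k.val + 1 = l.val ∧ v = 3 ∧ u = 0)
  | _, none => False

/-- the contracted ring -/
def ringG (R : ℕ) : SimpleGraph (RV R) := SimpleGraph.fromRel (ringRel R)

/-- the four corners of degree two -/
def av : Fin 4 → Fin 6 := ![1, 2, 4, 5]

/-- atoms of the contracted ring -/
abbrev At (R : ℕ) := Fin R × Fin 4

/-- the vertex of an atom -/
def atv {R : ℕ} (u : At R) : RV R := some (u.1, av u.2)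

/-- the contraction of the hexagon `s` -/
def cm (s : ZMod r) (x : ZMod r × Fin 6) : RV (r - 1) :=
  if h : x.1 = s then none else some (⟨(x.1 - s).val - 1, by
    have h1 : (x.1 - s).val < r := ZMod.val_lt _
    have h2 : (x.1 - s).val ≠ 0 := by
      rw [Ne, ZMod.val_eq_zero]
      exact sub_ne_zero.2 h
    omega⟩, x.2)

end Pool.Agent.Gal
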