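import Pool.Agent.Helper77.Neck.Hide

/-!
# NECK-8a: a strategy of the hider (helper98)
-/

open Set MeasureTheory Filter Topology
open scoped ENNReal NNReal

namespace Pool.Agent.Gal

/-- the unnormalised hiding measure -/
noncomputable def hideM (r : ℕ) [NeZero r] (s : ZMod r) : Measure (neck r).Q :=
  ∑ k : Fin 6, Measure.map ((neck r).pt (s, k.castSucc)) (volume.restrict (Icc (0 : ℝ) 1)) +
    ∑ u : At (r - 1), (2 : ℝ≥0∞) • Measure.dirac ((neck r).node (atn r s u))

private theorem pt_aem (r : ℕ) [NeZero r] (e : ZMod r × Fin 7) :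
    AEMeasurable ((neck r).pt e) (volume.restrict (Icc (0 : ℝ) 1)) :=
  ((neck r).isChart e).continuousOn.aemeasurable measurableSet_Icc

private theorem hideM_lintegral (r : ℕ) [NeZero r] (s : ZMod r) {f : (neck r).Q → ℝ≥0∞}
    (hf : Measurable f) : ∫⁻ H, f H ∂(hideM r s) =
      (∑ k : Fin 6, ∫⁻ x in Icc (0 : ℝ) 1, f ((neck r).pt (s, k.castSucc) x)) +
        ∑ u : At (r - 1), 2 * f ((neck r).node (atn r s u)) := by
  rw [hideM, lintegral_add_measure, lintegral_finset_sum_measure, lintegral_finset_sum_measure]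
  congr 1
  · refine Finset.sum_congr rfl fun k _ => ?_
    exact lintegral_map' hf.aemeasurable (pt_aem r _)
  · refine Finset.sum_congr rfl fun u _ => ?_
    rw [lintegral_smul_measure, lintegral_dirac' _ hf, smul_eq_mul]

private theorem hideM_univ (r : ℕ) [NeZero r] (hr : 2 ≤ r) (s : ZMod r) :
    hideM r s univ = ENNReal.ofReal (8 * r - 2) := by
  have h := hideM_lintegral r s (f := fun _ => 1) measurable_const
  rw [lintegral_one] at h
  rw [h]
  simp only [lintegral_const, mul_one, Measure.restrict_apply MeasurableSet.univ,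
    univ_inter, Real.volume_Icc, sub_zero, ENNReal.ofReal_one, Finset.sum_const, Finset.card_univ,
    Fintype.card_fin, nsmul_eq_mul, Fintype.card_prod]
  obtain ⟨m, rfl⟩ : ∃ m, r = m + 1 := ⟨r - 1, by omega⟩
  have h1 : (8 * ((m + 1 : ℕ) : ℝ) - 2) = ((6 + 8 * m : ℕ) : ℝ) := by
    push_cast
    ring
  rw [h1, ENNReal.ofReal_natCast]
  push_cast
  ring

private theorem hideM_bar (r : ℕ) [NeZero r] (s i : ZMod r) : hideM r s (bar r i) = 0 := by
  have hbar : MeasurableSet (bar r i) :=
    (((neck r).isChart (i, 6)).isOpen_image le_rfl le_rfl).measurableSet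
  rw [hideM, Measure.add_apply, Measure.finsetSum_apply, Measure.finsetSum_apply]
  rw [Finset.sum_eq_zero, Finset.sum_eq_zero, add_zero]
  · intro u _
    rw [Measure.smul_apply, Measure.dirac_apply' _ hbar, indicator_of_notMem, smul_zero]
    rintro ⟨x, hx, h⟩
    exact Network.node_ne_pt (N := neck r) (e := (i, 6)) hx _ h
  · intro k _
    rw [Measure.map_apply_of_aemeasurable (pt_aem r _) hbar,
      Measure.restrict_apply_eq_zero' measurableSet_Icc]
    convert measure_empty (μ := (volume : Measure ℝ))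
    ext x
    simp only [mem_inter_iff, mem_preimage, mem_empty_iff_false, iff_false, not_and]
    rintro ⟨y, hy, h⟩ hx
    have h1 := ((neck r).pt_inj (e := (i, 6)) (f := (s, k.castSucc)) hy hx h).1
    have h2 : (6 : Fin 7) = k.castSucc := (Prod.ext_iff.1 h1).2
    have h3 : (6 : ℕ) = k.val := by
      have := congrArg Fin.val h2
      simpa using this
    have := k.2
    omega

theorem exists_hide (r : ℕ) [NeZero r] (hr : 2 ≤ r) (s : ZMod r) :
    ∃ h : Measure (neck r).Q, IsProbabilityMeasure h ∧ (∀ i, h (bar r i) = 0) ∧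
      ∀ S : ℝ≥0 → (neck r).Q, LipschitzWith 1 S → S 0 ∈ hexa r s →
        ENNReal.ofReal (4 * r - 1) ≤ ∫⁻ H, hit S H ∂h := by
  have hr' : (2 : ℝ) ≤ r := by exact_mod_cast hr
  have hpos : (0 : ℝ) < 8 * r - 2 := by linarith
  refine ⟨ENNReal.ofReal (1 / (8 * r - 2)) • hideM r s, ⟨?_⟩, fun i => ?_, fun S hS h0 => ?_⟩
  · rw [Measure.smul_apply, hideM_univ r hr, smul_eq_mul, ← ENNReal.ofReal_mul (by positivity),
      one_div, inv_mul_cancel₀ hpos.ne', ENNReal.ofReal_one]
  · rw [Measure.smul_apply, hideM_bar, smul_zero]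
  · rw [lintegral_smul_measure, hideM_lintegral r s (measurable_hit hS.continuous), smul_eq_mul]
    calc ENNReal.ofReal (4 * r - 1) =
        ENNReal.ofReal (1 / (8 * r - 2)) * ENNReal.ofReal (2 * (4 * r - 1) ^ 2) := by
          rw [← ENNReal.ofReal_mul (by positivity)]
          congr 1
          have h3 : (1 / (8 * (r : ℝ) - 2)) * (2 * (4 * r - 1) ^ 2) =
              (4 * r - 1) * ((8 * r - 2) / (8 * r - 2)) := by ring
          rw [h3, div_self hpos.ne', mul_one]
      _ ≤ _ := by
          gcongr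
          exact hide_bound r hr s hS h0

end Pool.Agent.Gal
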