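import Pool.Agent.Helper77.Neck.Ext
import Pool.Agent.Helper77.Neck.Hide2
import Pool.Agent.Helper77.Gal.Geo0

/-!
# NECK-8b: a strategy of the hider for a start on a connector
-/

open Set MeasureTheory Filter Topology
open scoped ENNReal NNReal

namespace Pool.Agent.Gal

section

variable {r : ℕ} [NeZero r]

theorem hb_zero_mem (s : ZMod r) : (neck r).pt (s, 6) 0 ∈ hexa r s := by
  refine mem_iUnion.2 ⟨2, 1, ⟨zero_le_one, le_rfl⟩, ?_⟩
  rw [(neck r).pt_zero]
  exact (neck r).pt_len ((s, 2) : ZMod r × Fin 7)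

theorem hb_one_mem (s : ZMod r) : (neck r).pt (s, 6) 1 ∈ hexa r (s + 1) := by
  refine mem_iUnion.2 ⟨0, 0, ⟨le_rfl, zero_le_one⟩, ?_⟩
  rw [(neck r).pt_zero]
  exact ((neck r).pt_len ((s, 6) : ZMod r × Fin 7)).symm

/-- a coordinate on the connector -/
theorem hb_coord (s : ZMod r) : ∃ f : (neck r).Q → ℝ, LipschitzWith 1 f ∧
    ∀ x ∈ Icc (0 : ℝ) 1, f ((neck r).pt (s, 6) x) = x := by
  classical
  obtain ⟨f, hf, -, hf2⟩ := (neck r).exists_extend
    (fun v : ZMod r × Fin 6 => if v = (s + 1, 0) then (1 : ℝ) else 0) (by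
      intro e
      show |_ - _| ≤ (1 : ℝ)
      split_ifs <;> norm_num)
  refine ⟨f, hf, fun x hx => ?_⟩
  have h1 := hf2 (s, 6) x hx
  have h2 : (neck r).src ((s, 6) : ZMod r × Fin 7) = ((s, 3) : ZMod r × Fin 6) := rfl
  have h3 : (neck r).tgt ((s, 6) : ZMod r × Fin 7) = ((s + 1, 0) : ZMod r × Fin 6) := by
    show (if (6 : Fin 7) = 6 then s + 1 else s, ntgt 6) = _
    rw [if_pos rfl]
    rfl
  have h4 : (neck r).len ((s, 6) : ZMod r × Fin 7) = 1 := rfl
  rw [h2, h3, h4] at h1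
  have h5 : ¬ ((s, 3) : ZMod r × Fin 6) = (s + 1, 0) := by
    intro h
    have h6 : (3 : Fin 6) = 0 := congrArg Prod.snd h
    exact absurd h6 (by decide)
  rw [if_neg h5, if_pos rfl] at h1
  rw [h1]
  ring

theorem hb_dist (s : ZMod r) {x y : ℝ} (hx : x ∈ Icc (0 : ℝ) 1) (hy : y ∈ Icc (0 : ℝ) 1) :
    |x - y| ≤ dist ((neck r).pt (s, 6) x) ((neck r).pt (s, 6) y) := by
  obtain ⟨f, hf, hf2⟩ := hb_coord s
  have := hf.dist_le_mul ((neck r).pt (s, 6) x) ((neck r).pt (s, 6) y)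
  rw [hf2 x hx, hf2 y hy, Real.dist_eq] at this
  simpa using this

/-- the path along the connector from the far end -/
theorem hb_back (s : ZMod r) : ∃ p : ℝ≥0 → (neck r).Q, LipschitzWith 1 p ∧
    p 0 = (neck r).pt (s, 6) 1 ∧ p 1 = (neck r).pt (s, 6) 0 := by
  refine ⟨fun u => (neck r).pt (s, 6) (1 - min (u : ℝ) 1), ?_, by simp, by simp⟩
  apply lip_of_dist
  intro a b hab
  have hab' : (a : ℝ) ≤ b := by exact_mod_cast hab
  have ha : (0 : ℝ) ≤ a := a.2
  have hb : (0 : ℝ) ≤ b := b.2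
  have h1 := (neck r).dist_pt_le (s, 6) (x := 1 - min (a : ℝ) 1) (y := 1 - min (b : ℝ) 1)
    ⟨by linarith [min_le_right (a : ℝ) 1], show (1 : ℝ) - min (a : ℝ) 1 ≤ 1 by
      linarith [le_min ha (zero_le_one (α := ℝ))]⟩
    ⟨by linarith [min_le_right (b : ℝ) 1], show (1 : ℝ) - min (b : ℝ) 1 ≤ 1 by
      linarith [le_min hb (zero_le_one (α := ℝ))]⟩
  refine h1.trans ?_
  have h2 : min (a : ℝ) 1 ≤ min (b : ℝ) 1 := min_le_min_right 1 hab'
  have h3 : min (b : ℝ) 1 ≤ min (a : ℝ) 1 + (b - a) := by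
    rcases le_total (a : ℝ) 1 with h | h
    · rw [min_eq_left h]
      linarith [min_le_left (b : ℝ) 1]
    · rw [min_eq_right h]
      linarith [min_le_right (b : ℝ) 1]
  rw [show 1 - min (a : ℝ) 1 - (1 - min (b : ℝ) 1) = min (b : ℝ) 1 - min (a : ℝ) 1 by ring,
    abs_of_nonneg (by linarith)]
  linarith

/-- the path along the connector from the near end -/
theorem hb_forth (s : ZMod r) : ∃ p : ℝ≥0 → (neck r).Q, LipschitzWith 1 p ∧
    p 0 = (neck r).pt (s, 6) 0 ∧ p 1 = (neck r).pt (s, 6) 1 := by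
  refine ⟨fun u => (neck r).pt (s, 6) (min (u : ℝ) 1), ?_, by simp, by simp⟩
  apply lip_of_dist
  intro a b hab
  have hab' : (a : ℝ) ≤ b := by exact_mod_cast hab
  have ha : (0 : ℝ) ≤ a := a.2
  have hb : (0 : ℝ) ≤ b := b.2
  have h1 := (neck r).dist_pt_le (s, 6) (x := min (a : ℝ) 1) (y := min (b : ℝ) 1)
    ⟨le_min ha zero_le_one, min_le_right _ _⟩ ⟨le_min hb zero_le_one, min_le_right _ _⟩
  refine h1.trans ?_
  have h2 : min (a : ℝ) 1 ≤ min (b : ℝ) 1 := min_le_min_right 1 hab'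
  have h3 : min (b : ℝ) 1 ≤ min (a : ℝ) 1 + (b - a) := by
    rcases le_total (a : ℝ) 1 with h | h
    · rw [min_eq_left h]
      linarith [min_le_left (b : ℝ) 1]
    · rw [min_eq_right h]
      linarith [min_le_right (b : ℝ) 1]
  rw [abs_of_nonpos (by linarith)]
  linarith

theorem hb_ofReal_sub {V : ℝ} {B : ℝ≥0∞} (h : ENNReal.ofReal V ≤ 1 + B) :
    ENNReal.ofReal (V - 1) ≤ B := by
  rw [ENNReal.ofReal_sub V zero_le_one, ENNReal.ofReal_one, tsub_le_iff_left]
  exact h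

/-- if a path starts in `K'` and a strategy is good for `K'`, it is almost good for a path which
starts at distance one -/
theorem hb_prefix {h : Measure (neck r).Q} [IsProbabilityMeasure h] {V : ℝ}
    {K : Set (neck r).Q}
    (hb : ∀ S : ℝ≥0 → (neck r).Q, LipschitzWith 1 S → S 0 ∈ K →
      ENNReal.ofReal V ≤ ∫⁻ H, hit S H ∂h)
    {p S : ℝ≥0 → (neck r).Q} (hp : LipschitzWith 1 p) (hS : LipschitzWith 1 S)
    (h0 : p 0 ∈ K) (h1 : p 1 = S 0) : ENNReal.ofReal (V - 1) ≤ ∫⁻ H, hit S H ∂h := by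
  apply hb_ofReal_sub
  have h2 := hb (glue p 1 S) (glue_lip hp hS h1) (by rw [glue_zero]; exact h0)
  refine h2.trans ?_
  calc ∫⁻ H, hit (glue p 1 S) H ∂h ≤ ∫⁻ H, (1 + hit S H) ∂h := by
        refine lintegral_mono fun H => ?_
        have := hit_glue_le (p := p) (q := S) (τ := 1) h1 H
        simpa using this
    _ = 1 + ∫⁻ H, hit S H ∂h := by
        rw [lintegral_add_left measurable_const]
        simp

end

theorem exists_hide_bar (r : ℕ) [NeZero r] (hr : 2 ≤ r) (s : ZMod r) {x : ℝ} (hx : x ∈ Ioo 0 1) :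
    ∃ h : Measure (neck r).Q, IsProbabilityMeasure h ∧
      ∀ S : ℝ≥0 → (neck r).Q, LipschitzWith 1 S → S 0 = (neck r).pt (s, 6) x →
        ENNReal.ofReal (4 * r - 1) ≤ ∫⁻ H, hit S H ∂h := by
  obtain ⟨h1, hp1, hn1, hb1⟩ := exists_hide r hr s
  obtain ⟨h2, hp2, hn2, hb2⟩ := exists_hide r hr (s + 1)
  have hx0 : 0 ≤ x := hx.1.le
  have hx1 : 0 ≤ 1 - x := by linarith [hx.2]
  set V : ℝ := 4 * r - 1 with hV
  have hV1 : 0 ≤ V - 1 := by
    have : (2 : ℝ) ≤ r := by exact_mod_cast hr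
    rw [hV]; linarith
  have hsum : ENNReal.ofReal (1 - x) + ENNReal.ofReal x = 1 := by
    rw [← ENNReal.ofReal_add hx1 hx0]
    simp
  refine ⟨ENNReal.ofReal (1 - x) • h1 + ENNReal.ofReal x • h2, ⟨?_⟩, ?_⟩
  · rw [Measure.add_apply, Measure.smul_apply, Measure.smul_apply, measure_univ, measure_univ,
      smul_eq_mul, smul_eq_mul, mul_one, mul_one, hsum]
  intro S hS hS0
  have hmeas : Measurable (hit S) := measurable_hit hS.continuous
  rw [lintegral_add_measure, lintegral_smul_measure, lintegral_smul_measure, smul_eq_mul,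
    smul_eq_mul]
  have hae1 : ∀ᵐ H ∂h1, H ∉ bar r s := measure_eq_zero_iff_ae_notMem.1 (hn1 s)
  have hae2 : ∀ᵐ H ∂h2, H ∉ bar r s := measure_eq_zero_iff_ae_notMem.1 (hn2 s)
  have hlen : (neck r).len ((s, 6) : ZMod r × Fin 7) = 1 := rfl
  have hchart : IsChart ((neck r).pt (s, 6)) 1 := (neck r).isChart (s, 6)
  have hbar0 : S 0 ∈ (neck r).pt (s, 6) '' Ioo 0 1 := ⟨x, hx, hS0.symm⟩
  by_cases hex : ∃ t, S t ∉ (neck r).pt (s, 6) '' Ioo 0 1
  · obtain ⟨t2, ht2⟩ := hex
    obtain ⟨t, ht, hend, hin⟩ := exit_right hchart hS le_rfl le_rfl (zero_le (a := t2)) hbar0 ht2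
    set S' := shift S t with hS'
    have hS'lip : LipschitzWith 1 S' := shift_lip hS t
    have hS'0 : S' 0 = S t := shift_zero' S t
    have hhit : ∀ H, H ∉ bar r s → hit S H = t + hit S' H := by
      intro H hH
      apply hit_shift
      rw [le_hit_iff]
      intro u hu
      rw [ENNReal.coe_le_coe]
      by_contra hcon
      push Not at hcon
      exact hH (hu ▸ hin u ⟨zero_le, hcon⟩)
    have hint : ∀ h : Measure (neck r).Q, IsProbabilityMeasure h → (∀ᵐ H ∂h, H ∉ bar r s) →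
        ∫⁻ H, hit S H ∂h = t + ∫⁻ H, hit S' H ∂h := by
      intro h hp hae
      rw [lintegral_congr_ae (g := fun H => (t : ℝ≥0∞) + hit S' H)
        (hae.mono fun H hH => hhit H hH), lintegral_add_left measurable_const]
      simp
    rw [hint h1 hp1 hae1, hint h2 hp2 hae2]
    have key : ∀ (a : ℝ) (A B : ℝ) (I1 I2 : ℝ≥0∞), 0 ≤ a → 0 ≤ A → 0 ≤ B →
        ENNReal.ofReal a ≤ t → ENNReal.ofReal A ≤ I1 → ENNReal.ofReal B ≤ I2 →
        V ≤ (1 - x) * (a + A) + x * (a + B) →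
        ENNReal.ofReal V ≤ ENNReal.ofReal (1 - x) * (t + I1) + ENNReal.ofReal x * (t + I2) := by
      intro a A B I1 I2 ha hA hB hat hAI hBI hle
      calc ENNReal.ofReal V ≤ ENNReal.ofReal ((1 - x) * (a + A) + x * (a + B)) :=
            ENNReal.ofReal_le_ofReal hle
        _ = ENNReal.ofReal (1 - x) * (ENNReal.ofReal a + ENNReal.ofReal A) +
            ENNReal.ofReal x * (ENNReal.ofReal a + ENNReal.ofReal B) := by
            rw [ENNReal.ofReal_add (by positivity) (by positivity), ENNReal.ofReal_mul hx1,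
              ENNReal.ofReal_mul hx0, ENNReal.ofReal_add ha hA, ENNReal.ofReal_add ha hB]
        _ ≤ _ := by gcongr
    have hdist : dist (S 0) (S t) ≤ t := by
      have := dist_le_sub hS (zero_le (a := t))
      simpa using this
    rcases hend with he | he
    · -- the near end
      have ht1 : ENNReal.ofReal x ≤ t := by
        have h3 := hb_dist (r := r) s ⟨hx0, hx.2.le⟩ (y := 0) ⟨le_rfl, zero_le_one⟩
        rw [sub_zero, abs_of_nonneg hx0, ← hS0, ← he] at h3
        rw [ENNReal.ofReal_le_iff_le_toReal ENNReal.coe_ne_top]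
        simpa using h3.trans hdist
      have hA := hb1 S' hS'lip (by rw [hS'0, he]; exact hb_zero_mem s)
      obtain ⟨p, hp, hp0, hp1'⟩ := hb_back (r := r) s
      have hB := hb_prefix hb2 hp hS'lip (by rw [hp0]; exact hb_one_mem s)
        (by rw [hp1', hS'0, he])
      exact key x V (V - 1) _ _ hx0 (by linarith) hV1 ht1 hA hB (by nlinarith)
    · -- the far end
      have ht1 : ENNReal.ofReal (1 - x) ≤ t := by
        have h3 := hb_dist (r := r) s ⟨hx0, hx.2.le⟩ (y := 1) ⟨zero_le_one, le_rfl⟩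
        rw [abs_sub_comm, abs_of_nonneg hx1, ← hS0, ← he] at h3
        rw [ENNReal.ofReal_le_iff_le_toReal ENNReal.coe_ne_top]
        simpa using h3.trans hdist
      have hB := hb2 S' hS'lip (by rw [hS'0, he]; exact hb_one_mem s)
      obtain ⟨p, hp, hp0, hp1'⟩ := hb_forth (r := r) s
      have hA := hb_prefix hb1 hp hS'lip (by rw [hp0]; exact hb_zero_mem s)
        (by rw [hp1', hS'0, he])
      exact key (1 - x) (V - 1) V _ _ hx1 hV1 (by linarith) ht1 hA hB (by nlinarith)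
  · -- the path never leaves the connector
    push Not at hex
    have hhit : ∀ H, H ∉ bar r s → hit S H = ∞ := by
      intro H hH
      rw [eq_top_iff, le_hit_iff]
      intro u hu
      exact absurd (hu ▸ hex u) hH
    have hint : ∀ h : Measure (neck r).Q, IsProbabilityMeasure h → (∀ᵐ H ∂h, H ∉ bar r s) →
        ∫⁻ H, hit S H ∂h = ∞ := by
      intro h hp hae
      rw [lintegral_congr_ae (g := fun _ => (∞ : ℝ≥0∞)) (hae.mono fun H hH => hhit H hH)]
      simp
    rw [hint h1 hp1 hae1, hint h2 hp2 hae2, ENNReal.mul_top]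
    · simp
    · rw [Ne, ENNReal.ofReal_eq_zero, not_le]
      linarith [hx.2]

end Pool.Agent.Gal
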