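import Pool.Agent.Helper77.Neck.Defs

/-!
# The necklace is not weakly Eulerian
-/

open Set MeasureTheory Filter Topology
open scoped ENNReal NNReal

namespace Pool.Agent.Gal

/-- adjacency without the arc `e` -/
def RAdj (r : ℕ) (e : ZMod r × Fin 7) (a b : ZMod r × Fin 6) : Prop := ∃ f : ZMod r × Fin 7,
  f ≠ e ∧ (((f.1, nsrc f.2) = a ∧ (if f.2 = 6 then f.1 + 1 else f.1, ntgt f.2) = b) ∨
  ((f.1, nsrc f.2) = b ∧ (if f.2 = 6 then f.1 + 1 else f.1, ntgt f.2) = a))

theorem RAdj.symm {r : ℕ} {e : ZMod r × Fin 7} {a b : ZMod r × Fin 6} (h : RAdj r e a b) :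
    RAdj r e b a := by
  obtain ⟨f, hf, h | h⟩ := h
  · exact ⟨f, hf, Or.inr h⟩
  · exact ⟨f, hf, Or.inl h⟩

theorem radj_fwd {r : ℕ} {e : ZMod r × Fin 7} (i : ZMod r) (k : Fin 7) (h : (i, k) ≠ e)
    (hk : k ≠ 6) : Relation.ReflTransGen (RAdj r e) (i, nsrc k) (i, ntgt k) :=
  .single ⟨(i, k), h, Or.inl ⟨rfl, by simp [hk]⟩⟩

theorem radj_bwd {r : ℕ} {e : ZMod r × Fin 7} (i : ZMod r) (k : Fin 7) (h : (i, k) ≠ e)
    (hk : k ≠ 6) : Relation.ReflTransGen (RAdj r e) (i, ntgt k) (i, nsrc k) :=
  .single (RAdj.symm ⟨(i, k), h, Or.inl ⟨rfl, by simp [hk]⟩⟩)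

theorem radj_symm {r : ℕ} {e : ZMod r × Fin 7} {a b : ZMod r × Fin 6}
    (h : Relation.ReflTransGen (RAdj r e) a b) : Relation.ReflTransGen (RAdj r e) b a := by
  induction h with
  | refl => exact .refl
  | tail _ h ih => exact .head h.symm ih

/-- around the hexagon -/
theorem radj_hex {r : ℕ} (i : ZMod r) (k : Fin 7) (hk : k ≠ 6) :
    Relation.ReflTransGen (RAdj r (i, k)) (i, nsrc k) (i, ntgt k) := by
  have F : ∀ l : Fin 7, l ≠ k → l ≠ 6 →
      Relation.ReflTransGen (RAdj r (i, k)) (i, nsrc l) (i, ntgt l) := fun l h h6 =>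
    radj_fwd i l (by simpa using h) h6
  have B : ∀ l : Fin 7, l ≠ k → l ≠ 6 →
      Relation.ReflTransGen (RAdj r (i, k)) (i, ntgt l) (i, nsrc l) := fun l h h6 =>
    radj_bwd i l (by simpa using h) h6
  fin_cases k
  · exact ((((F 3 (by decide) (by decide)).trans (F 4 (by decide) (by decide))).trans
      (F 5 (by decide) (by decide))).trans (B 2 (by decide) (by decide))).trans
      (B 1 (by decide) (by decide))
  · exact ((((B 0 (by decide) (by decide)).trans (F 3 (by decide) (by decide))).trans
      (F 4 (by decide) (by decide))).trans (F 5 (by decide) (by decide))).trans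
      (B 2 (by decide) (by decide))
  · exact ((((B 1 (by decide) (by decide)).trans (B 0 (by decide) (by decide))).trans
      (F 3 (by decide) (by decide))).trans (F 4 (by decide) (by decide))).trans
      (F 5 (by decide) (by decide))
  · exact ((((F 0 (by decide) (by decide)).trans (F 1 (by decide) (by decide))).trans
      (F 2 (by decide) (by decide))).trans (B 5 (by decide) (by decide))).trans
      (B 4 (by decide) (by decide))
  · exact ((((B 3 (by decide) (by decide)).trans (F 0 (by decide) (by decide))).trans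
      (F 1 (by decide) (by decide))).trans (F 2 (by decide) (by decide))).trans
      (B 5 (by decide) (by decide))
  · exact ((((B 4 (by decide) (by decide)).trans (B 3 (by decide) (by decide))).trans
      (F 0 (by decide) (by decide))).trans (F 1 (by decide) (by decide))).trans
      (F 2 (by decide) (by decide))
  · exact absurd rfl hk

theorem radj_zero {r : ℕ} {e : ZMod r × Fin 7} (i : ZMod r)
    (h : ∀ k : Fin 7, k ≠ 6 → (i, k) ≠ e) :
    Relation.ReflTransGen (RAdj r e) (i, 0) (i, 3) :=
  ((radj_fwd i 0 (h 0 (by decide)) (by decide)).trans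
    (radj_fwd i 1 (h 1 (by decide)) (by decide))).trans
    (radj_fwd i 2 (h 2 (by decide)) (by decide))

theorem radj_conn {r : ℕ} [NeZero r] (i : ZMod r) :
    Relation.ReflTransGen (RAdj r (i, 6)) (i, 3) (i + 1, 0) := by
  have hk : ∀ j : ZMod r, ∀ k : Fin 7, k ≠ 6 → (j, k) ≠ (i, (6 : Fin 7)) := by
    intro j k hk h
    exact hk (Prod.ext_iff.1 h).2
  have key : ∀ n : ℕ, n + 1 ≤ r →
      Relation.ReflTransGen (RAdj r (i, 6)) (i + 1, 0) (i + 1 + n, 0) := by
    intro n
    induction n with
    | zero => intro _; simpa using Relation.ReflTransGen.refl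
    | succ n ih =>
      intro hn
      have h1 := (ih (by omega)).trans (radj_zero (i + 1 + (n : ZMod r)) (hk _))
      have h2 : RAdj r (i, 6) (i + 1 + (n : ZMod r), 3) (i + 1 + n + 1, 0) := by
        refine ⟨(i + 1 + n, 6), ?_, Or.inl ⟨by simp [nsrc], by simp [ntgt]⟩⟩
        intro h
        have h3 : i + 1 + (n : ZMod r) = i := (Prod.ext_iff.1 h).1
        have h4 : ((n + 1 : ℕ) : ZMod r) = 0 := by
          push_cast
          linear_combination h3
        rw [ZMod.natCast_eq_zero_iff] at h4
        have := Nat.le_of_dvd (by omega) h4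
        omega
      have := h1.tail h2
      simpa [add_assoc] using this
  have h1 := key (r - 1) (by have := NeZero.pos r; omega)
  have h2 : i + 1 + ((r - 1 : ℕ) : ZMod r) = i := by
    have h3 : ((r - 1 : ℕ) : ZMod r) + 1 = 0 := by
      have h4 : (r - 1 : ℕ) + 1 = r := by have := NeZero.pos r; omega
      have h5 : (((r - 1 : ℕ) + 1 : ℕ) : ZMod r) = 0 := by rw [h4]; simp
      push_cast at h5
      exact h5
    linear_combination h3
  rw [h2] at h1
  exact radj_symm (h1.trans (radj_zero i (hk _)))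

theorem neck_not_bridge (r : ℕ) [NeZero r] (e : ZMod r × Fin 7) : ¬ (neck r).IsBridge e := by
  unfold Network.IsBridge
  rw [not_not]
  intro u v
  have h0 : Relation.ReflTransGen (NAdj r) u v := nadj_conn r u v
  have key : Relation.ReflTransGen (RAdj r e) u v := by
    induction h0 with
    | refl => exact .refl
    | @tail b c _ hbc ih =>
      refine ih.trans ?_
      obtain ⟨f, hf⟩ := hbc
      by_cases hfe : f = e
      · have h1 : Relation.ReflTransGen (RAdj r e) (f.1, nsrc f.2)
            (if f.2 = 6 then f.1 + 1 else f.1, ntgt f.2) := by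
          obtain ⟨i, k⟩ := f
          subst hfe
          by_cases hk : k = 6
          · subst hk
            simpa [nsrc, ntgt] using radj_conn i
          · simpa [hk] using radj_hex i k hk
        rcases hf with ⟨rfl, rfl⟩ | ⟨rfl, rfl⟩
        · exact h1
        · exact radj_symm h1
      · exact .single ⟨f, hfe, hf⟩
  exact key

theorem neck_not_we (r : ℕ) [NeZero r] (hr : 2 ≤ r) : ¬ (neck r).WeaklyEulerian := by
  intro h
  have : Fact (1 < r) := ⟨by omega⟩
  have h1 : Even (∑ e : ZMod r × Fin 7, (neck r).inc ((0, 0) : ZMod r × Fin 6) e) := by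
    have h2 := h ((0, 0) : ZMod r × Fin 6)
    have h3 : ∀ (p : (neck r).E → Prop) (inst : DecidablePred p) (g : (neck r).E → ℕ),
        (∀ e, p e) → ∑ e ∈ @Finset.filter _ p inst Finset.univ, g e = ∑ e, g e := by
      intro p _ g hp
      rw [Finset.filter_true_of_mem fun e _ => hp e]
    rw [h3 _ _ _ (neck_not_bridge r)] at h2
    exact h2
  have h3 : (∑ e : ZMod r × Fin 7, (neck r).inc ((0, 0) : ZMod r × Fin 6) e) = 3 := by
    rw [Fintype.sum_prod_type]
    have h4 : ∀ i : ZMod r, ∑ k : Fin 7, (neck r).inc ((0, 0) : ZMod r × Fin 6) (i, k) =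
        2 * (if i = 0 then 1 else 0) + (if i = -1 then 1 else 0) := by
      intro i
      have h5 : ∀ k : Fin 7, (neck r).inc ((0, 0) : ZMod r × Fin 6) (i, k) =
          (if i = 0 ∧ nsrc k = 0 then 1 else 0) +
          (if (if k = 6 then i + 1 else i) = 0 ∧ ntgt k = 0 then 1 else 0) := by
        intro k
        simp only [Network.inc, neck, Prod.mk.injEq]
      have h6 : (i + 1 = 0) ↔ i = -1 := eq_neg_iff_add_eq_zero.symm
      have a : ∀ k : Fin 7, (nsrc k = 0 ↔ k = 0 ∨ k = 3) ∧ (ntgt k = 0 ↔ k = 6) := by decide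
      simp only [h5, (a _).1, (a _).2, Fin.sum_univ_seven]
      have b : ∀ k l : Fin 7, (k = l) = (k.val = l.val) := fun k l => propext Fin.ext_iff
      simp only [b]
      by_cases h7 : i = 0 <;> by_cases h8 : i = -1 <;> simp [h6, h7, h8]
    simp only [h4, Finset.sum_add_distrib, ← Finset.mul_sum, Finset.sum_ite_eq', Finset.mem_univ,
      if_true]
    norm_num
  have h4 : Even 3 := by
    rw [← h3]
    exact h1
  exact absurd h4 (by decide)

end Pool.Agent.Gal
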