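import Pool.Agent.Helper77.Neck.Search
import Pool.Agent.Helper77.Neck.Hide3
import Pool.Agent.Helper77.Neck.NotWE

/-!
# The necklace: the value is 79 for every starting point
-/

open Set MeasureTheory Filter Topology
open scoped ENNReal NNReal

namespace Pool.Agent.Gal

/-- optimal strategy of the hider, for every starting point -/
theorem exists_hide_all (O : (neck 20).Q) :
    ∃ h : Measure (neck 20).Q, IsProbabilityMeasure h ∧
      ∀ S : PathFrom O, ENNReal.ofReal 79 ≤ ∫⁻ H, hit S.1 H ∂h := by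
  have hle : ENNReal.ofReal 79 ≤ ENNReal.ofReal (4 * (20 : ℕ) - 1) :=
    ENNReal.ofReal_le_ofReal (by push_cast; linarith)
  have key : ∀ s, O ∈ hexa 20 s → ∃ h : Measure (neck 20).Q, IsProbabilityMeasure h ∧
      ∀ S : PathFrom O, ENNReal.ofReal 79 ≤ ∫⁻ H, hit S.1 H ∂h := by
    intro s hs
    obtain ⟨h, hh, -, hb⟩ := exists_hide 20 (by norm_num) s
    exact ⟨h, hh, fun S => hle.trans (hb S.1 S.2.2 (by rw [S.2.1]; exact hs))⟩
  obtain ⟨⟨s, k⟩, x, hx, hO⟩ := (neck 20).exists_pt O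
  have hlen : (neck 20).len (s, k) = 1 := rfl
  rw [hlen] at hx
  by_cases hk : k = 6
  · subst hk
    rcases eq_or_lt_of_le hx.1 with h0 | h0
    · refine key s (mem_iUnion.2 ⟨2, 1, ⟨zero_le_one, le_rfl⟩, ?_⟩)
      rw [← hO, ← h0, (neck 20).pt_zero]
      exact (neck 20).pt_len ((s, 2) : ZMod 20 × Fin 7)
    rcases eq_or_lt_of_le hx.2 with h1 | h1
    · refine key (s + 1) (mem_iUnion.2 ⟨0, 0, ⟨le_rfl, zero_le_one⟩, ?_⟩)
      rw [← hO, h1, (neck 20).pt_zero]
      exact ((neck 20).pt_len ((s, 6) : ZMod 20 × Fin 7)).symm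
    obtain ⟨h, hh, hb⟩ := exists_hide_bar 20 (by norm_num) s ⟨h0, h1⟩
    exact ⟨h, hh, fun S => hle.trans (hb S.1 S.2.2 (by rw [S.2.1, hO]))⟩
  · have hk' : k.val < 6 := by
      have h1 := k.2
      have h2 : k.val ≠ 6 := fun h => hk (Fin.ext h)
      omega
    exact key s (mem_iUnion.2 ⟨⟨k.val, hk'⟩, x, hx, by rw [← hO]; rfl⟩)

theorem hasValue_neck (O : (neck 20).Q) : HasValue O 79 := by
  refine ⟨fun ε hε => ?_, fun ε hε => ?_⟩
  · obtain ⟨σ, hσ, h⟩ := exists_search O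
    exact ⟨σ, hσ, fun H => (h H).trans (ENNReal.ofReal_le_ofReal (by linarith))⟩
  · obtain ⟨h, hh, hb⟩ := exists_hide_all O
    exact ⟨h, hh, fun S => (ENNReal.ofReal_le_ofReal (by linarith)).trans (hb S)⟩

/-- a mixed strategy of the hider guarantees at most what a mixed strategy of the searcher
guarantees -/
theorem guarantee_le {Q : Type} [MetricSpace Q] [CompactSpace Q] [MeasurableSpace Q]
    [BorelSpace Q] {O : Q} {a b : ℝ≥0∞} {σ : Measure (PathFrom O)} [IsProbabilityMeasure σ]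
    {h : Measure Q} [IsProbabilityMeasure h] (hσ : ∀ H, ∫⁻ S, hit S.1 H ∂σ ≤ a)
    (hh : ∀ S : PathFrom O, b ≤ ∫⁻ H, hit S.1 H ∂h) : b ≤ a := by
  have h1 : ∀ t : ℝ≥0, Measurable fun S : PathFrom O => S.1 t := fun t =>
    (measurable_pi_apply t).comp measurable_subtype_coe
  have h2 := measurable_hit_prod (Ω := PathFrom O) (P := fun S => S.1) h1
    (fun S => S.2.2.continuous)
  calc b = ∫⁻ _ : PathFrom O, b ∂σ := by rw [lintegral_const, measure_univ, mul_one]
    _ ≤ ∫⁻ S, ∫⁻ H, hit S.1 H ∂h ∂σ := lintegral_mono hh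
    _ = ∫⁻ H, ∫⁻ S, hit S.1 H ∂σ ∂h := lintegral_lintegral_swap h2.aemeasurable
    _ ≤ ∫⁻ _, a ∂h := lintegral_mono hσ
    _ = a := by rw [lintegral_const, measure_univ, mul_one]

theorem hasValue_neck_iff (O : (neck 20).Q) (v : ℝ) : HasValue O v ↔ v = 79 := by
  refine ⟨fun hv => ?_, fun h => h ▸ hasValue_neck O⟩
  obtain ⟨σ, hσ, hs⟩ := exists_search O
  obtain ⟨h, hh, hb⟩ := exists_hide_all O
  apply le_antisymm
  · by_contra hlt
    push Not at hlt
    obtain ⟨h', hh', hb'⟩ := hv.2 ((v - 79) / 2) (by linarith)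
    have h1 := guarantee_le hs hb'
    rw [ENNReal.ofReal_le_ofReal_iff (by norm_num)] at h1
    linarith
  · by_contra hlt
    push Not at hlt
    obtain ⟨σ', hσ', hs'⟩ := hv.1 ((79 - v) / 2) (by linarith)
    have h1 := guarantee_le hs' hb
    rw [ENNReal.ofReal_le_ofReal_iff'] at h1
    rcases h1 with h1 | h1 <;> linarith

end Pool.Agent.Gal
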