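import Pool.Agent.Helper77.Neck.RingC

/-!
# Walks in the contracted ring: the two theorems
-/

open Set

namespace Pool.Agent.Gal

namespace Ring

variable {R : ℕ} (W : Wk R)

theorem av_inj : Function.Injective av := by
  intro a b h
  fin_cases a <;> fin_cases b <;> simp_all [av]

/-- vertex of an atom -/
def nv (u : At R) : NV := some (u.1.val, av u.2)

theorem nv_inj : Function.Injective (nv (R := R)) := by
  rintro ⟨k, v⟩ ⟨k', v'⟩ h
  unfold nv at h
  rw [Option.some.injEq, Prod.mk.injEq] at h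
  exact Prod.ext (Fin.ext h.1) (av_inj h.2)

theorem DD_eq (n : ℕ) : DD W n = ∑ u : At R, vis W (nv u) n := by
  unfold DD dd nv
  rw [Fintype.sum_prod_type, Finset.sum_range]
  refine Finset.sum_congr rfl fun k _ => ?_
  rw [Fin.sum_univ_four]
  rfl

theorem vis_fst {x : NV} {f n : ℕ} (hf : Fst W x f) : vis W x n = ind (f ≤ n) := by
  unfold vis
  refine if_congr ⟨?_, fun h => ⟨f, h, hf.1⟩⟩ rfl rfl
  rintro ⟨m, hm, hm'⟩
  by_contra hcon
  exact hf.2 m (by omega) hm'

theorem fst_pos {x : ℕ × Fin 6} {f : ℕ} (hf : Fst W (some x) f) : 1 ≤ f := by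
  rcases Nat.eq_zero_or_pos f with rfl | h
  · have := hf.1
    rw [W.zero] at this
    cases this
  · exact h

theorem latency (T : At R → ℕ) (hT : ∀ u, Fst W (nv u) (T u)) : 16 * R ^ 2 ≤ ∑ u, T u := by
  have hinj : Function.Injective T := by
    intro u u' h
    apply nv_inj
    rw [← (hT u).1, ← (hT u').1, h]
  have h1 : ∑ u, EE W (T u - 1) ≤ 0 := by
    rw [Fintype.sum_prod_type]
    refine Finset.sum_nonpos fun k _ => ?_
    rw [Fin.sum_univ_four]
    have p1 := pair14 W k.2 (f := T (k, 0)) (f' := T (k, 2)) (hT (k, 0)) (hT (k, 2))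
    have p2 := pair25 W k.2 (f := T (k, 1)) (f' := T (k, 3)) (hT (k, 1)) (hT (k, 3))
    omega
  have h2 : ∀ u, EE W (T u - 1) = 2 * ∑ u', (ind (T u' < T u) : ℤ) - (T u : ℤ) + 1 := by
    intro u
    have hp := fst_pos W (hT u)
    unfold EE
    rw [DD_eq]
    have : ∑ u' : At R, vis W (nv u') (T u - 1) = ∑ u' : At R, ind (T u' < T u) := by
      refine Finset.sum_congr rfl fun u' _ => ?_
      rw [vis_fst W (hT u')]
      exact if_congr (by omega) rfl rfl
    rw [this]
    push_cast [Nat.cast_sub hp]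
    ring
  have h3 : 2 * ∑ u, ∑ u', (ind (T u' < T u) : ℤ) =
      (4 * R) ^ 2 - 4 * R := by
    have hs : ∑ u, ∑ u', (ind (T u' < T u) : ℤ) = ∑ u, ∑ u', (ind (T u < T u') : ℤ) :=
      Finset.sum_comm
    have hadd : ∑ u, ∑ u', (ind (T u' < T u) : ℤ) + ∑ u, ∑ u', (ind (T u < T u') : ℤ) =
        ∑ u : At R, ∑ u' : At R, (1 - (ind (u = u') : ℤ)) := by
      rw [← Finset.sum_add_distrib]
      refine Finset.sum_congr rfl fun u _ => ?_
      rw [← Finset.sum_add_distrib]
      refine Finset.sum_congr rfl fun u' _ => ?_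
      by_cases huu : u = u'
      · subst huu
        simp [ind]
      · have : T u ≠ T u' := fun h => huu (hinj h)
        rcases lt_or_gt_of_ne this with h | h
        · simp [ind, h, huu, not_lt.2 h.le]
        · simp [ind, h, huu, not_lt.2 h.le]
    have hc : ∑ u : At R, ∑ u' : At R, (1 - (ind (u = u') : ℤ)) = (4 * R) ^ 2 - 4 * R := by
      simp only [Finset.sum_sub_distrib, ind, Nat.cast_ite, Nat.cast_one, Nat.cast_zero,
        Finset.sum_ite_eq, Finset.mem_univ, if_true, Finset.sum_const, Finset.card_univ,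
        Fintype.card_prod, Fintype.card_fin, nsmul_eq_mul, mul_one]
      push_cast
      ring
    linarith
  have h4 : ∑ u, EE W (T u - 1) = (4 * R : ℤ) ^ 2 - 4 * R - ∑ u, (T u : ℤ) + 4 * R := by
    rw [Finset.sum_congr rfl fun u _ => h2 u, Finset.sum_add_distrib, Finset.sum_sub_distrib,
      ← Finset.mul_sum, h3]
    simp only [Finset.sum_const, Finset.card_univ, Fintype.card_prod, Fintype.card_fin,
      nsmul_eq_mul, mul_one]
    push_cast
    ring
  have h5 : (16 * R ^ 2 : ℤ) ≤ ∑ u, (T u : ℤ) := by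
    rw [h4] at h1
    linarith
  exact_mod_cast h5

theorem mass {n : ℕ} (hn : W.w n = none) (D : Finset (At R))
    (hD : ∀ u ∈ D, ∃ m ≤ n, W.w m = nv u) : 2 * D.card ≤ n := by
  have h1 := base W hn
  unfold EE at h1
  have h2 : D.card ≤ DD W n := by
    rw [DD_eq]
    calc D.card = ∑ u ∈ D, 1 := by simp
      _ = ∑ u ∈ D, vis W (nv u) n := Finset.sum_congr rfl fun u hu =>
          ((vis_eq_one W).2 (hD u hu)).symm
      _ ≤ ∑ u, vis W (nv u) n := Finset.sum_le_univ_sum_of_nonneg fun _ => Nat.zero_le _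
  omega

/-- forget the bound on the index -/
def toNV (x : RV R) : NV := x.map fun y => (y.1.val, y.2)

theorem toNV_atv (u : At R) : toNV (atv u) = nv u := rfl

theorem toNV_inj : Function.Injective (toNV (R := R)) := by
  refine Option.map_injective ?_
  rintro ⟨k, v⟩ ⟨k', v'⟩ h
  rw [Prod.mk.injEq] at h
  exact Prod.ext (Fin.ext h.1) h.2

theorem stp_of_rel {x y : RV R} (h : ringRel R x y) :
    ∃ j, Stp R (toNV x) (toNV y) j ∧ Stp R (toNV y) (toNV x) j := by
  rcases x with _ | ⟨k, v⟩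
  · rcases y with _ | ⟨l, u⟩
    · exact absurd h (by simp [ringRel])
    · have hR : 0 < R := lt_of_le_of_lt (Nat.zero_le _) l.2
      rcases h with ⟨h1, h2⟩ | ⟨h1, h2⟩
      · refine ⟨7 * 0, ?_⟩
        have e1 : toNV (none : RV R) = lv 0 := by simp [toNV, lv]
        have e2 : toNV (some (l, u) : RV R) = rv R 0 := by
          rw [rv, if_neg (by omega)]
          simp [toNV, h1, h2]
        rw [e1, e2]
        exact ⟨.con 0 (Nat.zero_le _) hR, .con' 0 (Nat.zero_le _) hR⟩
      · refine ⟨7 * R, ?_⟩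
        have e1 : toNV (none : RV R) = rv R R := by simp [toNV, rv]
        have e2 : toNV (some (l, u) : RV R) = lv R := by
          rw [lv, if_neg (by omega)]
          simp only [toNV, Option.map_some, h2, ← h1, Nat.add_sub_cancel]
        rw [e1, e2]
        exact ⟨.con' R le_rfl hR, .con R le_rfl hR⟩
  · rcases y with _ | ⟨l, u⟩
    · exact absurd h (by simp [ringRel])
    · rcases h with ⟨rfl, e, rfl, rfl⟩ | ⟨h1, rfl, rfl⟩
      · exact ⟨_, .hex k.val k.2 e, .hex' k.val k.2 e⟩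
      · have hR : 0 < R := lt_of_le_of_lt (Nat.zero_le _) l.2
        refine ⟨7 * l.val, ?_⟩
        have e1 : toNV (some (k, 3) : RV R) = lv l.val := by
          rw [lv, if_neg (by omega)]
          simp only [toNV, Option.map_some, ← h1, Nat.add_sub_cancel]
        have e2 : toNV (some (l, 0) : RV R) = rv R l.val := by
          rw [rv, if_neg (by have := l.2; omega)]
          simp [toNV]
        rw [e1, e2]
        exact ⟨.con _ l.2.le hR, .con' _ l.2.le hR⟩

theorem exists_wk (w : ℕ → RV R) (h0 : w 0 = none)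
    (hw : ∀ n, (ringG R).Adj (w n) (w (n + 1))) : ∃ W : Wk R, ∀ n, W.w n = toNV (w n) := by
  have : ∀ n, ∃ j, Stp R (toNV (w n)) (toNV (w (n + 1))) j := by
    intro n
    have h := hw n
    unfold ringG at h
    rw [SimpleGraph.fromRel_adj] at h
    rcases h.2 with h | h
    · obtain ⟨j, hj, -⟩ := stp_of_rel h
      exact ⟨j, hj⟩
    · obtain ⟨j, -, hj⟩ := stp_of_rel h
      exact ⟨j, hj⟩
  choose c hc using this
  exact ⟨⟨fun n => toNV (w n), c, by rw [h0]; rfl, hc⟩, fun n => rfl⟩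

end Ring

open Pool.Agent.Gal.Ring in
theorem ring_latency {R : ℕ} (w : ℕ → RV R) (h0 : w 0 = none)
    (hw : ∀ n, (ringG R).Adj (w n) (w (n + 1))) (T : At R → ℕ) (hT : ∀ u, w (T u) = atv u) :
    16 * R ^ 2 ≤ ∑ u, T u := by
  classical
  obtain ⟨W, hW⟩ := exists_wk w h0 hw
  have hex : ∀ u : At R, ∃ n, W.w n = nv u := fun u => ⟨T u, by rw [hW, hT, toNV_atv]⟩
  refine (latency W (fun u => Nat.find (hex u)) fun u =>
    ⟨Nat.find_spec (hex u), fun m hm => Nat.find_min (hex u) hm⟩).trans ?_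
  exact Finset.sum_le_sum fun u _ => Nat.find_min' _ (by rw [hW, hT, toNV_atv])

open Pool.Agent.Gal.Ring in
theorem ring_mass {R : ℕ} (w : ℕ → RV R) (h0 : w 0 = none)
    (hw : ∀ n, (ringG R).Adj (w n) (w (n + 1))) {n : ℕ} (hn : w n = none) (D : Finset (At R))
    (hD : ∀ u ∈ D, ∃ m ≤ n, w m = atv u) : 2 * D.card ≤ n := by
  obtain ⟨W, hW⟩ := exists_wk w h0 hw
  refine mass W (by rw [hW, hn]; rfl) D fun u hu => ?_
  obtain ⟨m, hm, hm'⟩ := hD u hu
  exact ⟨m, hm, by rw [hW, hm', toNV_atv]⟩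

end Pool.Agent.Gal
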