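import Pool.Agent.Helper77.Neck.SortA
import Pool.Agent.Helper77.Neck.RingD

/-!
# N5: real versions of N4
-/

open Set MeasureTheory Filter Topology
open scoped ENNReal NNReal

namespace Pool.Agent.Gal

theorem ring_latency_real {R : ℕ} (hR : 1 ≤ R) (τ : At R → ℝ)
    (h0 : ∀ u, ((ringG R).dist none (atv u) : ℝ) ≤ τ u)
    (h1 : ∀ u u', τ u ≤ τ u' → ((ringG R).dist (atv u) (atv u') : ℝ) ≤ τ u' - τ u) :
    16 * (R : ℝ) ^ 2 ≤ ∑ u, τ u :=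
  ring_latency_real_of (fun w h0 hw T hT => ring_latency w h0 hw T hT) hR τ h0 h1

theorem ring_mass_real {R : ℕ} (hR : 1 ≤ R) (D : Finset (At R)) (τ : At R → ℝ) {t : ℝ}
    (ht : 0 ≤ t) (h0 : ∀ u ∈ D, ((ringG R).dist none (atv u) : ℝ) ≤ τ u)
    (h1 : ∀ u ∈ D, ∀ u' ∈ D, τ u ≤ τ u' → ((ringG R).dist (atv u) (atv u') : ℝ) ≤ τ u' - τ u)
    (h2 : ∀ u ∈ D, ((ringG R).dist (atv u) none : ℝ) ≤ t - τ u) : 2 * (D.card : ℝ) ≤ t :=
  ring_mass_real_of (fun w h0 hw n hn D hD => ring_mass w h0 hw hn D hD) hR D τ ht h0 h1 h2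

end Pool.Agent.Gal
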