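import Pool.Agent.Helper77.Neck.Vis
import Pool.Agent.Helper77.Neck.Sort
import Pool.Agent.Helper77.Neck.Contr

/-!
# N7: the main lower bound
-/

open Set MeasureTheory Filter Topology
open scoped ENNReal NNReal

namespace Pool.Agent.Gal

theorem Network.continuous_pt (N : Network) (e : N.E) : Continuous (N.pt e) := by
  have h1 := (N.isChart e).continuousOn
  rw [continuousOn_iff_continuous_domRestrict] at h1
  have h2 : N.pt e = (Icc 0 (N.len e)).domRestrict (N.pt e) ∘
      projIcc 0 (N.len e) (N.len_pos e).le := by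
    funext x
    exact (N.pt_eq e (projIcc 0 (N.len e) (N.len_pos e).le x).2).symm
  rw [h2]
  exact h1.comp continuous_projIcc

section HideAux

/-- symmetry: the average of `ν (Iic t)` over `ν` -/
theorem lintegral_Iic_ge (ν : Measure ℝ≥0∞) [IsFiniteMeasure ν] :
    ν univ * ν univ ≤ 2 * ∫⁻ t, ν (Iic t) ∂ν := by
  have hm : MeasurableSet {p : ℝ≥0∞ × ℝ≥0∞ | p.2 ≤ p.1} :=
    measurableSet_le measurable_snd measurable_fst
  have h1 : (ν.prod ν) {p : ℝ≥0∞ × ℝ≥0∞ | p.2 ≤ p.1} = ∫⁻ t, ν (Iic t) ∂ν := by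
    rw [Measure.prod_apply hm]
    rfl
  have h2 : (ν.prod ν) {p : ℝ≥0∞ × ℝ≥0∞ | p.1 ≤ p.2} = ∫⁻ t, ν (Iic t) ∂ν := by
    rw [← h1]
    conv_lhs => rw [← Measure.prod_swap]
    rw [Measure.map_apply measurable_swap (measurableSet_le measurable_fst measurable_snd)]
    rfl
  have h3 : (ν.prod ν) univ = ν univ * ν univ := by
    rw [← Set.univ_prod_univ, Measure.prod_prod]
  have h4 : (univ : Set (ℝ≥0∞ × ℝ≥0∞)) ⊆ {p | p.2 ≤ p.1} ∪ {p | p.1 ≤ p.2} := by
    rintro ⟨a, b⟩ _
    rcases le_total a b with h | h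
    · exact Or.inr h
    · exact Or.inl h
  rw [← h3]
  refine (measure_mono h4).trans ((measure_union_le _ _).trans ?_)
  rw [h1, h2, two_mul]

end HideAux

section Hide

variable (r : ℕ) [NeZero r]

/-- distribution of the capture times of the points of the hexagon -/
noncomputable def hnu (s : ZMod r) (S : ℝ≥0 → (neck r).Q) : Measure ℝ≥0∞ :=
  ∑ k : Fin 6, (volume.restrict (Icc (0 : ℝ) 1)).map
    (fun x => hit S ((neck r).pt (s, k.castSucc) x))

variable {r}

theorem hide_meas (s : ZMod r) {S : ℝ≥0 → (neck r).Q} (hS : LipschitzWith 1 S) (k : Fin 6) :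
    Measurable (fun x : ℝ => hit S ((neck r).pt (s, k.castSucc) x)) :=
  (measurable_hit hS.continuous).comp ((neck r).continuous_pt (s, k.castSucc)).measurable

theorem hnu_lintegral (s : ZMod r) {S : ℝ≥0 → (neck r).Q} (hS : LipschitzWith 1 S)
    {g : ℝ≥0∞ → ℝ≥0∞} (hg : Measurable g) : ∫⁻ t, g t ∂(hnu r s S) =
      ∑ k : Fin 6, ∫⁻ x in Icc (0 : ℝ) 1, g (hit S ((neck r).pt (s, k.castSucc) x)) := by
  rw [hnu, lintegral_finsetSum_measure]
  refine Finset.sum_congr rfl fun k _ => ?_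
  rw [lintegral_map hg (hide_meas s hS k)]

theorem hnu_apply (s : ZMod r) {S : ℝ≥0 → (neck r).Q} (hS : LipschitzWith 1 S)
    {A : Set ℝ≥0∞} (hA : MeasurableSet A) : hnu r s S A = ∑ k : Fin 6,
      volume {x : ℝ | x ∈ Icc (0 : ℝ) 1 ∧ hit S ((neck r).pt (s, k.castSucc) x) ∈ A} := by
  rw [hnu, Measure.finsetSum_apply]
  refine Finset.sum_congr rfl fun k _ => ?_
  rw [Measure.map_apply (hide_meas s hS k) hA,
    Measure.restrict_apply (hide_meas s hS k hA)]
  congr 1
  ext x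
  simp only [Set.mem_inter_iff, Set.mem_preimage, Set.mem_ofPred_eq]
  exact and_comm

theorem hnu_univ (s : ZMod r) {S : ℝ≥0 → (neck r).Q} (hS : LipschitzWith 1 S) :
    hnu r s S univ = 6 := by
  rw [hnu_apply s hS MeasurableSet.univ]
  have : ∀ k : Fin 6, volume {x : ℝ | x ∈ Icc (0 : ℝ) 1 ∧
      hit S ((neck r).pt (s, k.castSucc) x) ∈ univ} = 1 := by
    intro k
    have e : {x : ℝ | x ∈ Icc (0 : ℝ) 1 ∧ hit S ((neck r).pt (s, k.castSucc) x) ∈ univ} =
        Icc 0 1 := by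
      ext x; simp
    rw [e, Real.volume_Icc]
    simp
  rw [Finset.sum_congr rfl fun k _ => this k]
  simp

/-- the capture times of the atoms measured by the time outside the hexagon -/
theorem hide_dist (hr : 2 ≤ r) (s : ZMod r) {S : ℝ≥0 → (neck r).Q} (hS : LipschitzWith 1 S)
    {t t' : ℝ≥0} {z z' : RV (r - 1)} (h : Over r s (S t) z) (h' : Over r s (S t') z')
    (ht : (tout (hexa r s) S t).toReal ≤ (tout (hexa r s) S t').toReal) :
    ((ringG (r - 1)).dist z z' : ℝ) ≤
      (tout (hexa r s) S t').toReal - (tout (hexa r s) S t).toReal := by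
  have hfin : ∀ t : ℝ≥0, tout (hexa r s) S t ≠ ∞ := by
    intro t
    have := tin_add_tout (isClosed_hexa r s) hS.continuous t
    intro h
    rw [h, add_top] at this
    exact ENNReal.coe_ne_top this.symm
  have key : ∀ {t t' : ℝ≥0} {z z' : RV (r - 1)}, t ≤ t' → Over r s (S t) z →
      Over r s (S t') z' → ((ringG (r - 1)).dist z z' : ℝ) + (tout (hexa r s) S t).toReal ≤
        (tout (hexa r s) S t').toReal := by
    intro t t' z z' htt h h'
    have h1 := over_dist r hr s hS htt h h'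
    have h2 := (ENNReal.toReal_le_toReal (ENNReal.add_ne_top.2
      ⟨ENNReal.natCast_ne_top _, hfin t⟩) (hfin t')).2 h1
    rwa [ENNReal.toReal_add (ENNReal.natCast_ne_top _) (hfin t), ENNReal.toReal_natCast] at h2
  rcases le_total t t' with htt | htt
  · have := key htt h h'
    linarith
  · have := key htt h' h
    rw [SimpleGraph.dist_comm] at this
    have h0 : (0 : ℝ) ≤ ((ringG (r - 1)).dist z z' : ℝ) := Nat.cast_nonneg _
    linarith

/-- two times the number of atoms found until a visit of the hexagon is at most the time spent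
outside the hexagon -/
theorem hide_mass (hr : 2 ≤ r) (s : ZMod r) {S : ℝ≥0 → (neck r).Q} (hS : LipschitzWith 1 S)
    (h0 : S 0 ∈ hexa r s) (T : At (r - 1) → ℝ≥0)
    (hT : ∀ u, S (T u) = (neck r).node (atn r s u)) {t : ℝ≥0} (ht : S t ∈ hexa r s) :
    ∑ u : At (r - 1), (if T u ≤ t then (2 : ℝ≥0∞) else 0) ≤ tout (hexa r s) S t := by
  classical
  have hfin : ∀ t : ℝ≥0, tout (hexa r s) S t ≠ ∞ := by
    intro t
    have := tin_add_tout (isClosed_hexa r s) hS.continuous t
    intro h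
    rw [h, add_top] at this
    exact ENNReal.coe_ne_top this.symm
  have hov : ∀ u, Over r s (S (T u)) (atv u) := fun u => Or.inl ⟨atn r s u, hT u, cm_atn r s u⟩
  have hmono : ∀ {a b : ℝ≥0}, a ≤ b →
      (tout (hexa r s) S a).toReal ≤ (tout (hexa r s) S b).toReal := fun h =>
    (ENNReal.toReal_le_toReal (hfin _) (hfin _)).2 (tout_mono h)
  have h1 := ring_mass_real (R := r - 1) (by omega) (Finset.univ.filter fun u => T u ≤ t)
    (fun u => (tout (hexa r s) S (T u)).toReal) (t := (tout (hexa r s) S t).toReal)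
    ENNReal.toReal_nonneg ?_ ?_ ?_
  · rw [← Finset.sum_filter, Finset.sum_const, nsmul_eq_mul, mul_comm]
    rw [← ENNReal.ofReal_toReal (hfin t)]
    refine le_trans (le_of_eq ?_) (ENNReal.ofReal_le_ofReal h1)
    rw [ENNReal.ofReal_mul (by norm_num), ENNReal.ofReal_natCast]
    norm_num
  · intro u _
    have := hide_dist hr s hS (Or.inr ⟨h0, rfl⟩ : Over r s (S 0) none) (hov u) (hmono zero_le)
    have h2 : (0 : ℝ) ≤ (tout (hexa r s) S 0).toReal := ENNReal.toReal_nonneg
    linarith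
  · intro u _ u' _ huu
    exact hide_dist hr s hS (hov u) (hov u') huu
  · intro u hu
    rw [Finset.mem_filter] at hu
    exact hide_dist hr s hS (hov u) (Or.inr ⟨ht, rfl⟩ : Over r s (S t) none) (hmono hu.2)

/-- the capture times of the atoms -/
theorem hide_lat (hr : 2 ≤ r) (s : ZMod r) {S : ℝ≥0 → (neck r).Q} (hS : LipschitzWith 1 S)
    (h0 : S 0 ∈ hexa r s) (T : At (r - 1) → ℝ≥0)
    (hT : ∀ u, S (T u) = (neck r).node (atn r s u)) :
    ENNReal.ofReal (16 * ((r - 1 : ℕ) : ℝ) ^ 2) ≤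
      ∑ u : At (r - 1), tout (hexa r s) S (T u) := by
  have hfin : ∀ t : ℝ≥0, tout (hexa r s) S t ≠ ∞ := by
    intro t
    have := tin_add_tout (isClosed_hexa r s) hS.continuous t
    intro h
    rw [h, add_top] at this
    exact ENNReal.coe_ne_top this.symm
  have hov : ∀ u, Over r s (S (T u)) (atv u) := fun u => Or.inl ⟨atn r s u, hT u, cm_atn r s u⟩
  have hmono : ∀ {a b : ℝ≥0}, a ≤ b →
      (tout (hexa r s) S a).toReal ≤ (tout (hexa r s) S b).toReal := fun h =>
    (ENNReal.toReal_le_toReal (hfin _) (hfin _)).2 (tout_mono h)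
  have h1 := ring_latency_real (R := r - 1) (by omega)
    (fun u => (tout (hexa r s) S (T u)).toReal) ?_ ?_
  · refine (ENNReal.ofReal_le_ofReal h1).trans (le_of_eq ?_)
    rw [ENNReal.ofReal_sum_of_nonneg (fun _ _ => ENNReal.toReal_nonneg)]
    exact Finset.sum_congr rfl fun u _ => ENNReal.ofReal_toReal (hfin _)
  · intro u
    have := hide_dist hr s hS (Or.inr ⟨h0, rfl⟩ : Over r s (S 0) none) (hov u) (hmono zero_le)
    have h2 : (0 : ℝ) ≤ (tout (hexa r s) S 0).toReal := ENNReal.toReal_nonneg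
    linarith
  · intro u u' huu
    exact hide_dist hr s hS (hov u) (hov u') huu

theorem hide_bound (r : ℕ) [NeZero r] (hr : 2 ≤ r) (s : ZMod r) {S : ℝ≥0 → (neck r).Q}
    (hS : LipschitzWith 1 S) (h0 : S 0 ∈ hexa r s) :
    ENNReal.ofReal (2 * (4 * r - 1) ^ 2) ≤
      (∑ k : Fin 6, ∫⁻ x in Icc (0 : ℝ) 1, hit S ((neck r).pt (s, k.castSucc) x)) +
        ∑ u : At (r - 1), 2 * hit S ((neck r).node (atn r s u)) := by
  classical
  by_cases htop : ∃ u : At (r - 1), hit S ((neck r).node (atn r s u)) = ∞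
  · obtain ⟨u, hu⟩ := htop
    have h1 : ∑ u : At (r - 1), 2 * hit S ((neck r).node (atn r s u)) = ∞ := by
      rw [ENNReal.sum_eq_top]
      exact ⟨u, Finset.mem_univ u, by rw [hu]; exact ENNReal.mul_top (by norm_num)⟩
    calc ENNReal.ofReal (2 * (4 * r - 1) ^ 2) ≤ ∞ := le_top
      _ = ∑ u : At (r - 1), 2 * hit S ((neck r).node (atn r s u)) := h1.symm
      _ ≤ _ := le_add_self
  push Not at htop
  have hex : ∀ u : At (r - 1), ∃ t : ℝ≥0, hit S ((neck r).node (atn r s u)) = t ∧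
      S t = (neck r).node (atn r s u) := fun u => exists_hit hS.continuous (htop u)
  choose T hT1 hT2 using hex
  set ν := hnu r s S with hν
  have hνu : ν univ = 6 := hnu_univ s hS
  have : IsFiniteMeasure ν := ⟨by rw [hνu]; exact ENNReal.coe_lt_top⟩
  have hIic : ∀ t : ℝ≥0, ν (Iic (t : ℝ≥0∞)) ≤ tin (hexa r s) S t := by
    intro t
    rw [hν, hnu_apply s hS measurableSet_Iic]
    exact vis_le r s hS t
  have hG : Measurable (fun t : ℝ≥0∞ => ν (Iic t) +
      ∑ u : At (r - 1), (if (T u : ℝ≥0∞) ≤ t then (2 : ℝ≥0∞) else 0)) := by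
    refine Measurable.add ?_ ?_
    · exact Monotone.measurable (fun a b hab => measure_mono (Iic_subset_Iic.2 hab))
    · refine Finset.measurable_sum _ fun u _ => ?_
      exact Measurable.ite measurableSet_Ici measurable_const measurable_const
  -- the points of the hexagon
  have hpt : ∫⁻ t, (ν (Iic t) +
      ∑ u : At (r - 1), (if (T u : ℝ≥0∞) ≤ t then (2 : ℝ≥0∞) else 0)) ∂ν ≤
      ∑ k : Fin 6, ∫⁻ x in Icc (0 : ℝ) 1, hit S ((neck r).pt (s, k.castSucc) x) := by
    rw [hν, hnu_lintegral s hS (by rw [← hν]; exact hG), ← hν]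
    refine Finset.sum_le_sum fun k _ => ?_
    refine setLIntegral_mono (hide_meas s hS k) fun x hx => ?_
    rcases eq_or_ne (hit S ((neck r).pt (s, k.castSucc) x)) ∞ with htp | htp
    · rw [htp]; exact le_top
    · obtain ⟨t, ht1, ht2⟩ := exists_hit hS.continuous htp
      rw [ht1]
      have hmem : S t ∈ hexa r s := by
        rw [ht2]
        exact mem_iUnion.2 ⟨k, x, hx, rfl⟩
      have h1 := hide_mass hr s hS h0 T hT2 hmem
      have h2 := tin_add_tout (isClosed_hexa r s) hS.continuous t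
      refine le_trans (add_le_add (hIic t) (le_trans (le_of_eq ?_) h1)) (le_of_eq h2)
      exact Finset.sum_congr rfl fun u _ => by simp only [ENNReal.coe_le_coe]
  have hint : ∫⁻ t, (ν (Iic t) +
      ∑ u : At (r - 1), (if (T u : ℝ≥0∞) ≤ t then (2 : ℝ≥0∞) else 0)) ∂ν =
      ∫⁻ t, ν (Iic t) ∂ν + ∑ u : At (r - 1), 2 * ν (Ici (T u : ℝ≥0∞)) := by
    rw [lintegral_add_left (Monotone.measurable
      (fun a b hab => measure_mono (Iic_subset_Iic.2 hab)))]
    congr 1
    rw [lintegral_finsetSum _ (fun u _ =>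
      Measurable.ite measurableSet_Ici measurable_const measurable_const)]
    refine Finset.sum_congr rfl fun u _ => ?_
    have e : (fun t : ℝ≥0∞ => if (T u : ℝ≥0∞) ≤ t then (2 : ℝ≥0∞) else 0) =
        (Ici (T u : ℝ≥0∞)).indicator (fun _ => 2) := by
      funext t
      simp only [Set.indicator_apply, Set.mem_Ici]
    rw [e, lintegral_indicator measurableSet_Ici, lintegral_const, Measure.restrict_apply_univ]
  -- the atoms
  have hat : 2 * ENNReal.ofReal (16 * ((r - 1 : ℕ) : ℝ) ^ 2) +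
      ∑ u : At (r - 1), 2 * ν (Iic (T u : ℝ≥0∞)) ≤
      ∑ u : At (r - 1), 2 * hit S ((neck r).node (atn r s u)) := by
    refine (add_le_add_left (mul_le_mul_right (hide_lat hr s hS h0 T hT2) 2) _).trans ?_
    rw [Finset.mul_sum, ← Finset.sum_add_distrib]
    refine Finset.sum_le_sum fun u _ => ?_
    have h3 : hit S ((neck r).node (atn r s u)) =
        tin (hexa r s) S (T u) + tout (hexa r s) S (T u) :=
      (hT1 u).trans (tin_add_tout (isClosed_hexa r s) hS.continuous (T u)).symm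
    calc 2 * tout (hexa r s) S (T u) + 2 * ν (Iic (T u : ℝ≥0∞))
        ≤ 2 * tout (hexa r s) S (T u) + 2 * tin (hexa r s) S (T u) := by
          gcongr
          exact hIic (T u)
      _ = 2 * (tin (hexa r s) S (T u) + tout (hexa r s) S (T u)) := by ring
      _ = 2 * hit S ((neck r).node (atn r s u)) := by rw [← h3]
  have h36 : (18 : ℝ≥0∞) ≤ ∫⁻ t, ν (Iic t) ∂ν := by
    have h1 := lintegral_Iic_ge ν
    rw [hνu] at h1
    have h2 : (2 : ℝ≥0∞) * 18 ≤ 2 * ∫⁻ t, ν (Iic t) ∂ν := by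
      refine le_trans (le_of_eq ?_) h1
      norm_num
    exact (ENNReal.mul_le_mul_iff_right (by norm_num) (by norm_num)).1 h2
  have h48 : ENNReal.ofReal (48 * ((r - 1 : ℕ) : ℝ)) ≤
      ∑ u : At (r - 1), 2 * ν (Iic (T u : ℝ≥0∞)) +
        ∑ u : At (r - 1), 2 * ν (Ici (T u : ℝ≥0∞)) := by
    rw [← Finset.sum_add_distrib]
    have h1 : ∀ u : At (r - 1), (12 : ℝ≥0∞) ≤ 2 * ν (Iic (T u : ℝ≥0∞)) +
        2 * ν (Ici (T u : ℝ≥0∞)) := by
      intro u
      rw [← mul_add]
      have h2 : (6 : ℝ≥0∞) ≤ ν (Iic (T u : ℝ≥0∞)) + ν (Ici (T u : ℝ≥0∞)) := by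
        rw [← hνu]
        refine (measure_mono ?_).trans (measure_union_le _ _)
        intro t _
        exact le_total t _
      refine le_trans (le_of_eq ?_) (mul_le_mul_right h2 2)
      norm_num
    refine le_trans (le_of_eq ?_) (Finset.sum_le_sum fun u _ => h1 u)
    rw [Finset.sum_const, Finset.card_univ, Fintype.card_prod, Fintype.card_fin,
      Fintype.card_fin, nsmul_eq_mul, ENNReal.ofReal_mul (by norm_num), ENNReal.ofReal_natCast]
    push_cast
    norm_num
    ring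
  have hfinal : ENNReal.ofReal (2 * (4 * r - 1) ^ 2) =
      2 * ENNReal.ofReal (16 * ((r - 1 : ℕ) : ℝ) ^ 2) +
        ENNReal.ofReal (48 * ((r - 1 : ℕ) : ℝ)) + 18 := by
    have hr1 : ((r - 1 : ℕ) : ℝ) = (r : ℝ) - 1 := by
      rw [Nat.cast_sub (by omega)]
      simp
    have hr2 : (0 : ℝ) ≤ (r : ℝ) - 1 := by
      have : (2 : ℝ) ≤ r := by exact_mod_cast hr
      linarith
    rw [hr1]
    have e2 : (2 : ℝ≥0∞) = ENNReal.ofReal 2 := by norm_num
    have e18 : (18 : ℝ≥0∞) = ENNReal.ofReal 18 := by norm_num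
    rw [e2, e18, ← ENNReal.ofReal_mul (by norm_num), ← ENNReal.ofReal_add (by positivity)
      (by positivity), ← ENNReal.ofReal_add (by positivity) (by norm_num)]
    congr 1
    ring
  rw [hfinal]
  rw [hint] at hpt
  calc 2 * ENNReal.ofReal (16 * ((r - 1 : ℕ) : ℝ) ^ 2) +
        ENNReal.ofReal (48 * ((r - 1 : ℕ) : ℝ)) + 18
      ≤ 2 * ENNReal.ofReal (16 * ((r - 1 : ℕ) : ℝ) ^ 2) +
        (∑ u : At (r - 1), 2 * ν (Iic (T u : ℝ≥0∞)) +
        ∑ u : At (r - 1), 2 * ν (Ici (T u : ℝ≥0∞))) + ∫⁻ t, ν (Iic t) ∂ν := by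
        gcongr
    _ = (∫⁻ t, ν (Iic t) ∂ν + ∑ u : At (r - 1), 2 * ν (Ici (T u : ℝ≥0∞))) +
        (2 * ENNReal.ofReal (16 * ((r - 1 : ℕ) : ℝ) ^ 2) +
        ∑ u : At (r - 1), 2 * ν (Iic (T u : ℝ≥0∞))) := by ring
    _ ≤ _ := add_le_add hpt hat

end Hide

end Pool.Agent.Gal
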