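import Pool.Agent.Helper77.Neck.Defs

/-!
# Walks in the contracted ring: counting traversals
-/

open Set

namespace Pool.Agent.Gal

namespace Ring

/-- vertices with natural numbers as indices -/
abbrev NV := Option (ℕ × Fin 6)

/-- left end of the connector `i` -/
def lv (i : ℕ) : NV := if i = 0 then none else some (i - 1, 3)

/-- right end of the connector `i` -/
def rv (R i : ℕ) : NV := if i = R then none else some (i, 0)

/-- steps with the code of the edge: `7 i` is the connector `i`, `7 k + 1 + e` is the arc `e` of the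
hexagon `k` -/
inductive Stp (R : ℕ) : NV → NV → ℕ → Prop
  | hex (k : ℕ) (hk : k < R) (e : Fin 6) :
      Stp R (some (k, nsrc e.castSucc)) (some (k, ntgt e.castSucc)) (7 * k + e + 1)
  | hex' (k : ℕ) (hk : k < R) (e : Fin 6) :
      Stp R (some (k, ntgt e.castSucc)) (some (k, nsrc e.castSucc)) (7 * k + e + 1)
  | con (i : ℕ) (hi : i ≤ R) (hR : 0 < R) : Stp R (lv i) (rv R i) (7 * i)
  | con' (i : ℕ) (hi : i ≤ R) (hR : 0 < R) : Stp R (rv R i) (lv i) (7 * i)

/-- a walk with the codes of its steps -/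
structure Wk (R : ℕ) where
  w : ℕ → NV
  c : ℕ → ℕ
  zero : w 0 = none
  stp : ∀ n, Stp R (w n) (w (n + 1)) (c n)

variable {R : ℕ} (W : Wk R)

/-- number of traversals of the edge with code `j` in the first `n` steps -/
def Wk.cnt (j n : ℕ) : ℕ := ((Finset.range n).filter fun m => W.c m = j).card

theorem Wk.cnt_zero (j : ℕ) : W.cnt j 0 = 0 := by simp [Wk.cnt]

theorem Wk.cnt_succ (j n : ℕ) : W.cnt j (n + 1) = W.cnt j n + if W.c n = j then 1 else 0 := by
  unfold Wk.cnt
  rw [Finset.range_add_one, Finset.filter_insert]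
  split_ifs with h
  · rw [Finset.card_insert_of_notMem (by simp)]
  · rfl

theorem Wk.cnt_mono (j : ℕ) {m n : ℕ} (h : m ≤ n) : W.cnt j m ≤ W.cnt j n := by
  unfold Wk.cnt
  exact Finset.card_le_card (Finset.filter_subset_filter _ (Finset.range_subset_range.2 h))

/-- the codes of the edges at the corner `v` of the hexagon `k` -/
def inI (k : ℕ) (v : Fin 6) (j : ℕ) : Prop :=
  match v with
  | 0 => j = 7 * k ∨ j = 7 * k + 1 ∨ j = 7 * k + 4
  | 1 => j = 7 * k + 1 ∨ j = 7 * k + 2
  | 2 => j = 7 * k + 2 ∨ j = 7 * k + 3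
  | 3 => j = 7 * k + 3 ∨ j = 7 * k + 6 ∨ j = 7 * k + 7
  | 4 => j = 7 * k + 4 ∨ j = 7 * k + 5
  | 5 => j = 7 * k + 5 ∨ j = 7 * k + 6

instance (k : ℕ) (v : Fin 6) (j : ℕ) : Decidable (inI k v j) := by
  unfold inI; split <;> infer_instance

theorem stp_inI {y z : NV} {j : ℕ} (h : Stp R y z j) (k : ℕ) (hk : k < R) (v : Fin 6) :
    (if y = some (k, v) then 1 else 0) + (if z = some (k, v) then 1 else 0) =
      if inI k v j then 1 else 0 := by
  rcases h with ⟨k', hk', e⟩ | ⟨k', hk', e⟩ | ⟨i, hi, hR⟩ | ⟨i, hi, hR⟩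
  · fin_cases e <;> fin_cases v <;> simp [nsrc, ntgt, inI] <;> (try split_ifs) <;> omega
  · fin_cases e <;> fin_cases v <;> simp [nsrc, ntgt, inI] <;> (try split_ifs) <;> omega
  · unfold lv rv
    fin_cases v <;> simp [inI] <;> (try split_ifs) <;> (try simp_all) <;> omega
  · unfold lv rv
    fin_cases v <;> simp [inI] <;> (try split_ifs) <;> (try simp_all) <;> omega

/-- indicator -/
abbrev ind (p : Prop) [Decidable p] : ℕ := if p then 1 else 0

theorem hand0 (k : ℕ) (hk : k < R) (n : ℕ) :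
    (W.cnt (7 * k) n + W.cnt (7 * k + 1) n + W.cnt (7 * k + 4) n) % 2 =
      ind (W.w n = some (k, 0)) := by
  induction n with
  | zero => simp [W.cnt_zero, W.zero, ind]
  | succ n ih =>
    have h := stp_inI (W.stp n) k hk 0
    have h' : (if inI k 0 (W.c n) then 1 else 0) = ind (W.c n = 7 * k) +
        ind (W.c n = 7 * k + 1) + ind (W.c n = 7 * k + 4) := by
      simp only [inI, ind]; split_ifs <;> omega
    rw [h'] at h
    simp only [W.cnt_succ, ind] at *
    split_ifs at * <;> omega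

theorem hand1 (k : ℕ) (hk : k < R) (n : ℕ) :
    (W.cnt (7 * k + 1) n + W.cnt (7 * k + 2) n) % 2 = ind (W.w n = some (k, 1)) := by
  induction n with
  | zero => simp [W.cnt_zero, W.zero, ind]
  | succ n ih =>
    have h := stp_inI (W.stp n) k hk 1
    have h' : (if inI k 1 (W.c n) then 1 else 0) =
        ind (W.c n = 7 * k + 1) + ind (W.c n = 7 * k + 2) := by
      simp only [inI, ind]; split_ifs <;> omega
    rw [h'] at h
    simp only [W.cnt_succ, ind] at *
    split_ifs at * <;> omega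

theorem hand2 (k : ℕ) (hk : k < R) (n : ℕ) :
    (W.cnt (7 * k + 2) n + W.cnt (7 * k + 3) n) % 2 = ind (W.w n = some (k, 2)) := by
  induction n with
  | zero => simp [W.cnt_zero, W.zero, ind]
  | succ n ih =>
    have h := stp_inI (W.stp n) k hk 2
    have h' : (if inI k 2 (W.c n) then 1 else 0) =
        ind (W.c n = 7 * k + 2) + ind (W.c n = 7 * k + 3) := by
      simp only [inI, ind]; split_ifs <;> omega
    rw [h'] at h
    simp only [W.cnt_succ, ind] at *
    split_ifs at * <;> omega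

theorem hand3 (k : ℕ) (hk : k < R) (n : ℕ) :
    (W.cnt (7 * k + 3) n + W.cnt (7 * k + 6) n + W.cnt (7 * k + 7) n) % 2 =
      ind (W.w n = some (k, 3)) := by
  induction n with
  | zero => simp [W.cnt_zero, W.zero, ind]
  | succ n ih =>
    have h := stp_inI (W.stp n) k hk 3
    have h' : (if inI k 3 (W.c n) then 1 else 0) = ind (W.c n = 7 * k + 3) +
        ind (W.c n = 7 * k + 6) + ind (W.c n = 7 * k + 7) := by
      simp only [inI, ind]; split_ifs <;> omega
    rw [h'] at h
    simp only [W.cnt_succ, ind] at *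
    split_ifs at * <;> omega

theorem hand4 (k : ℕ) (hk : k < R) (n : ℕ) :
    (W.cnt (7 * k + 4) n + W.cnt (7 * k + 5) n) % 2 = ind (W.w n = some (k, 4)) := by
  induction n with
  | zero => simp [W.cnt_zero, W.zero, ind]
  | succ n ih =>
    have h := stp_inI (W.stp n) k hk 4
    have h' : (if inI k 4 (W.c n) then 1 else 0) =
        ind (W.c n = 7 * k + 4) + ind (W.c n = 7 * k + 5) := by
      simp only [inI, ind]; split_ifs <;> omega
    rw [h'] at h
    simp only [W.cnt_succ, ind] at *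
    split_ifs at * <;> omega

theorem hand5 (k : ℕ) (hk : k < R) (n : ℕ) :
    (W.cnt (7 * k + 5) n + W.cnt (7 * k + 6) n) % 2 = ind (W.w n = some (k, 5)) := by
  induction n with
  | zero => simp [W.cnt_zero, W.zero, ind]
  | succ n ih =>
    have h := stp_inI (W.stp n) k hk 5
    have h' : (if inI k 5 (W.c n) then 1 else 0) =
        ind (W.c n = 7 * k + 5) + ind (W.c n = 7 * k + 6) := by
      simp only [inI, ind]; split_ifs <;> omega
    rw [h'] at h
    simp only [W.cnt_succ, ind] at *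
    split_ifs at * <;> omega

/-- a set of vertices not containing the base is not visited before its boundary is crossed -/
theorem cut (X : NV → Prop) (B : ℕ → Prop) (h0 : ¬ X none)
    (hB : ∀ y z j, Stp R y z j → ¬ X y → X z → B j) {n : ℕ} (h : ∀ j, B j → W.cnt j n = 0) :
    ∀ m ≤ n, ¬ X (W.w m) := by
  intro m
  induction m with
  | zero => intro _; rw [W.zero]; exact h0
  | succ m ih =>
    intro hm hX
    have hb := hB _ _ _ (W.stp m) (ih (by omega)) hX
    have h1 := h _ hb
    have h2 : W.cnt (W.c m) (m + 1) ≤ W.cnt (W.c m) n := W.cnt_mono _ hm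
    rw [W.cnt_succ, if_pos rfl] at h2
    omega

/-- a traversed edge is the edge of some step -/
theorem exists_step {j n : ℕ} (h : W.cnt j n ≠ 0) : ∃ m < n, W.c m = j := by
  unfold Wk.cnt at h
  obtain ⟨m, hm⟩ := Finset.card_pos.1 (Nat.pos_of_ne_zero h)
  rw [Finset.mem_filter, Finset.mem_range] at hm
  exact ⟨m, hm⟩

/-- an edge at a corner which is not visited is not traversed -/
theorem cnt_zero_of_unvis {k : ℕ} (hk : k < R) {v : Fin 6} {j n : ℕ} (hj : inI k v j)
    (h : ∀ m ≤ n, W.w m ≠ some (k, v)) : W.cnt j n = 0 := by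
  by_contra hne
  obtain ⟨m, hm, hc⟩ := exists_step W hne
  have h1 := stp_inI (W.stp m) k hk v
  rw [hc, if_pos hj, if_neg (h m hm.le), if_neg (h (m + 1) hm)] at h1
  omega

/-- a visited corner has a traversed edge -/
theorem pos_of_vis {k : ℕ} (hk : k < R) {v : Fin 6} {n : ℕ} {m : ℕ} (hm : m ≤ n)
    (h : W.w m = some (k, v)) : ∃ j, inI k v j ∧ W.cnt j n ≠ 0 := by
  by_contra hcon
  push Not at hcon
  refine cut W (fun x => x = some (k, v)) (inI k v) (by simp) ?_ hcon m hm h
  intro y z j hs hy hz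
  have h1 := stp_inI hs k hk v
  rw [if_neg hy, if_pos hz] at h1
  by_contra hj
  rw [if_neg hj] at h1
  omega

theorem vis1 {k : ℕ} (hk : k < R) {n m : ℕ} (hm : m ≤ n) (h : W.w m = some (k, 1)) :
    0 < W.cnt (7 * k + 1) n + W.cnt (7 * k + 2) n := by
  obtain ⟨j, hj, hj'⟩ := pos_of_vis W hk hm h
  simp only [inI] at hj
  rcases hj with rfl | rfl <;> omega

theorem vis2 {k : ℕ} (hk : k < R) {n m : ℕ} (hm : m ≤ n) (h : W.w m = some (k, 2)) :
    0 < W.cnt (7 * k + 2) n + W.cnt (7 * k + 3) n := by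
  obtain ⟨j, hj, hj'⟩ := pos_of_vis W hk hm h
  simp only [inI] at hj
  rcases hj with rfl | rfl <;> omega

theorem vis4 {k : ℕ} (hk : k < R) {n m : ℕ} (hm : m ≤ n) (h : W.w m = some (k, 4)) :
    0 < W.cnt (7 * k + 4) n + W.cnt (7 * k + 5) n := by
  obtain ⟨j, hj, hj'⟩ := pos_of_vis W hk hm h
  simp only [inI] at hj
  rcases hj with rfl | rfl <;> omega

theorem vis5 {k : ℕ} (hk : k < R) {n m : ℕ} (hm : m ≤ n) (h : W.w m = some (k, 5)) :
    0 < W.cnt (7 * k + 5) n + W.cnt (7 * k + 6) n := by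
  obtain ⟨j, hj, hj'⟩ := pos_of_vis W hk hm h
  simp only [inI] at hj
  rcases hj with rfl | rfl <;> omega

theorem mid_alpha {k : ℕ} (hk : k < R) {n : ℕ} (h : 0 < W.cnt (7 * k + 2) n) :
    0 < W.cnt (7 * k + 1) n + W.cnt (7 * k + 3) n := by
  by_contra hcon
  obtain ⟨m, hm, hc⟩ := exists_step W (j := 7 * k + 2) (n := n) (by omega)
  have hX := cut W (fun x => x = some (k, 1) ∨ x = some (k, 2))
    (fun j => j = 7 * k + 1 ∨ j = 7 * k + 3) (by simp) (by
      intro y z j hs hy hz
      have h1 := stp_inI hs k hk 1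
      have h2 := stp_inI hs k hk 2
      simp only [inI] at h1 h2
      push Not at hy
      rw [if_neg hy.1] at h1
      rw [if_neg hy.2] at h2
      rcases hz with rfl | rfl
      · simp at h1 h2
        omega
      · simp at h1 h2
        omega) (n := n) (by
      rintro j (rfl | rfl) <;> omega)
  have h1 := stp_inI (W.stp m) k hk 1
  have h3 := hX m hm.le
  have h4 := hX (m + 1) hm
  push Not at h3 h4
  rw [hc, if_neg h3.1, if_neg h4.1] at h1
  simp [inI] at h1

theorem mid_beta {k : ℕ} (hk : k < R) {n : ℕ} (h : 0 < W.cnt (7 * k + 5) n) :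
    0 < W.cnt (7 * k + 4) n + W.cnt (7 * k + 6) n := by
  by_contra hcon
  obtain ⟨m, hm, hc⟩ := exists_step W (j := 7 * k + 5) (n := n) (by omega)
  have hX := cut W (fun x => x = some (k, 4) ∨ x = some (k, 5))
    (fun j => j = 7 * k + 4 ∨ j = 7 * k + 6) (by simp) (by
      intro y z j hs hy hz
      have h1 := stp_inI hs k hk 4
      have h2 := stp_inI hs k hk 5
      simp only [inI] at h1 h2
      push Not at hy
      rw [if_neg hy.1] at h1
      rw [if_neg hy.2] at h2
      rcases hz with rfl | rfl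
      · simp at h1 h2
        omega
      · simp at h1 h2
        omega) (n := n) (by
      rintro j (rfl | rfl) <;> omega)
  have h1 := stp_inI (W.stp m) k hk 4
  have h3 := hX m hm.le
  have h4 := hX (m + 1) hm
  push Not at h3 h4
  rw [hc, if_neg h3.1, if_neg h4.1] at h1
  simp [inI] at h1

/-- hexagons `i, …, j - 1` are not visited if the connectors `i` and `j` are not traversed -/
theorem block {i j n : ℕ} (hi : W.cnt (7 * i) n = 0) (hj : W.cnt (7 * j) n = 0) {k : ℕ}
    (hik : i ≤ k) (hkj : k < j) (hjR : j ≤ R) (v : Fin 6) : ∀ m ≤ n, W.w m ≠ some (k, v) := by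
  intro m hm hmk
  refine cut W (fun x => ∃ k v, i ≤ k ∧ k < j ∧ x = some (k, v)) (fun l => l = 7 * i ∨ l = 7 * j)
    (by simp) ?_ (n := n) (by rintro l (rfl | rfl) <;> assumption) m hm ⟨k, v, hik, hkj, hmk⟩
  rintro y z l hs hy ⟨k', v', h1, h2, hz⟩
  rcases hs with ⟨k'', hk', e⟩ | ⟨k'', hk', e⟩ | ⟨i', hi', hR⟩ | ⟨i', hi', hR⟩
  · rw [Option.some.injEq, Prod.mk.injEq] at hz
    exact absurd ⟨k'', _, by omega, by omega, rfl⟩ hy
  · rw [Option.some.injEq, Prod.mk.injEq] at hz
    exact absurd ⟨k'', _, by omega, by omega, rfl⟩ hy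
  · unfold rv at hz
    split_ifs at hz with h3
    rw [Option.some.injEq, Prod.mk.injEq] at hz
    by_cases h4 : i' = i
    · left; rw [h4]
    · exfalso
      apply hy
      unfold lv
      rw [if_neg (by omega)]
      exact ⟨i' - 1, 3, by omega, by omega, rfl⟩
  · unfold lv at hz
    split_ifs at hz with h3
    rw [Option.some.injEq, Prod.mk.injEq] at hz
    by_cases h4 : i' = j
    · right; rw [h4]
    · exfalso
      apply hy
      unfold rv
      rw [if_neg (by omega)]
      exact ⟨i', 0, by omega, by omega, rfl⟩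

end Ring

end Pool.Agent.Gal
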