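import Pool.Agent.Helper77.Neck.RingA

/-!
# Walks in the contracted ring: bounds at the corners
-/

open Set

namespace Pool.Agent.Gal

namespace Ring

variable {R : ℕ} (W : Wk R)

theorem code_le {y z : NV} {j : ℕ} (h : Stp R y z j) : j < 7 * R + 1 := by
  rcases h with ⟨k, hk, e⟩ | ⟨k, hk, e⟩ | ⟨i, hi, hR⟩ | ⟨i, hi, hR⟩
  · have := e.2; omega
  · have := e.2; omega
  · omega
  · omega

theorem total (n : ℕ) : n = ∑ j ∈ Finset.range (7 * R + 1), W.cnt j n := by
  have := Finset.card_eq_sum_card_fiberwise (s := Finset.range n)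
    (t := Finset.range (7 * R + 1)) (f := W.c) (fun m _ => by
      simp only [Finset.coe_range, Set.mem_Iio]
      exact code_le (W.stp m))
  rw [Finset.card_range] at this
  exact this

theorem sum_seven (f : ℕ → ℕ) (R : ℕ) : ∑ j ∈ Finset.range (7 * R + 1), f j =
    ∑ k ∈ Finset.range R, (f (7 * k) + f (7 * k + 1) + f (7 * k + 2) + f (7 * k + 3) +
      f (7 * k + 4) + f (7 * k + 5) + f (7 * k + 6)) + f (7 * R) := by
  induction R with
  | zero => simp
  | succ R ih =>
    rw [Finset.sum_range_succ (n := R), show 7 * (R + 1) + 1 = 7 * R + 1 + 7 by ring]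
    simp only [Finset.sum_range_succ] at ih ⊢
    rw [show 7 * (R + 1) = 7 * R + 7 by ring]
    omega

/-- number of traversals of the connector `i` -/
def C (i n : ℕ) : ℕ := W.cnt (7 * i) n

/-- number of long arcs of the hexagon `k` traversed an odd number of times -/
def xx (k n : ℕ) : ℕ := W.cnt (7 * k + 1) n % 2 + W.cnt (7 * k + 4) n % 2

/-- number of steps in the hexagon `k` -/
def hx (k n : ℕ) : ℕ := W.cnt (7 * k + 1) n + W.cnt (7 * k + 2) n + W.cnt (7 * k + 3) n +
  W.cnt (7 * k + 4) n + W.cnt (7 * k + 5) n + W.cnt (7 * k + 6) n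

theorem total' (n : ℕ) : n = ∑ k ∈ Finset.range R, (C W k n + hx W k n) + C W R n := by
  conv_lhs => rw [total W n, sum_seven]
  congr 1
  refine Finset.sum_congr rfl fun k _ => ?_
  unfold C hx
  ring

open Classical in
/-- indicator of a visited vertex -/
noncomputable def vis (x : NV) (n : ℕ) : ℕ := if ∃ m ≤ n, W.w m = x then 1 else 0

theorem vis_le_one (x : NV) (n : ℕ) : vis W x n ≤ 1 := by
  unfold vis; split_ifs <;> omega

theorem vis_eq_one {x : NV} {n : ℕ} : vis W x n = 1 ↔ ∃ m ≤ n, W.w m = x := by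
  unfold vis; split_ifs with h <;> simp [h]

theorem vis_eq_zero {x : NV} {n : ℕ} : vis W x n = 0 ↔ ∀ m ≤ n, W.w m ≠ x := by
  unfold vis; split_ifs with h
  · simpa using h
  · simpa using h

/-- number of visited atoms of the hexagon `k` -/
noncomputable def dd (k n : ℕ) : ℕ := vis W (some (k, 1)) n + vis W (some (k, 2)) n +
  vis W (some (k, 4)) n + vis W (some (k, 5)) n

/-- number of visited atoms -/
noncomputable def DD (n : ℕ) : ℕ := ∑ k ∈ Finset.range R, dd W k n

/-- the walk is at the base or at a corner of degree three -/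
def Stat (x : NV) : Prop := ∀ k v, x = some (k, v) → v = 0 ∨ v = 3

theorem arcs {k n : ℕ} (hk : k < R) (hs : Stat (W.w n)) :
    2 * dd W k n ≤ hx W k n + xx W k n := by
  have n1 : W.w n ≠ some (k, 1) := fun h => by simpa using hs k 1 h
  have n2 : W.w n ≠ some (k, 2) := fun h => by simpa using hs k 2 h
  have n4 : W.w n ≠ some (k, 4) := fun h => by simpa using hs k 4 h
  have n5 : W.w n ≠ some (k, 5) := fun h => by simpa using hs k 5 h
  have h1 := hand1 W k hk n
  have h2 := hand2 W k hk n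
  have h4 := hand4 W k hk n
  have h5 := hand5 W k hk n
  rw [ind, if_neg n1] at h1
  rw [ind, if_neg n2] at h2
  rw [ind, if_neg n4] at h4
  rw [ind, if_neg n5] at h5
  have m1 := mid_alpha W hk (n := n)
  have m2 := mid_beta W hk (n := n)
  have v1 : vis W (some (k, 1)) n = 1 → 0 < W.cnt (7 * k + 1) n + W.cnt (7 * k + 2) n := fun h => by
    obtain ⟨m, hm, hm'⟩ := (vis_eq_one W).1 h
    exact vis1 W hk hm hm'
  have v2 : vis W (some (k, 2)) n = 1 → 0 < W.cnt (7 * k + 2) n + W.cnt (7 * k + 3) n := fun h => by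
    obtain ⟨m, hm, hm'⟩ := (vis_eq_one W).1 h
    exact vis2 W hk hm hm'
  have v4 : vis W (some (k, 4)) n = 1 → 0 < W.cnt (7 * k + 4) n + W.cnt (7 * k + 5) n := fun h => by
    obtain ⟨m, hm, hm'⟩ := (vis_eq_one W).1 h
    exact vis4 W hk hm hm'
  have v5 : vis W (some (k, 5)) n = 1 → 0 < W.cnt (7 * k + 5) n + W.cnt (7 * k + 6) n := fun h => by
    obtain ⟨m, hm, hm'⟩ := (vis_eq_one W).1 h
    exact vis5 W hk hm hm'
  have u1 := vis_le_one W (some (k, 1)) n
  have u2 := vis_le_one W (some (k, 2)) n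
  have u4 := vis_le_one W (some (k, 4)) n
  have u5 := vis_le_one W (some (k, 5)) n
  unfold dd hx xx
  have ha : 2 * (vis W (some (k, 1)) n + vis W (some (k, 2)) n) ≤
      W.cnt (7 * k + 1) n + W.cnt (7 * k + 2) n + W.cnt (7 * k + 3) n +
        W.cnt (7 * k + 1) n % 2 := by omega
  have hb : 2 * (vis W (some (k, 4)) n + vis W (some (k, 5)) n) ≤
      W.cnt (7 * k + 4) n + W.cnt (7 * k + 5) n + W.cnt (7 * k + 6) n +
        W.cnt (7 * k + 4) n % 2 := by omega
  omega

/-- the excess -/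
noncomputable def EE (n : ℕ) : ℤ := 2 * (DD W n : ℤ) - n

/-- splitting at the connector `j` -/
theorem excess_le {n : ℕ} (hs : Stat (W.w n)) {j : ℕ} (hj : j ≤ R) :
    EE W n ≤ ∑ k ∈ Finset.range j, ((xx W k n : ℤ) - C W k n) +
      ∑ k ∈ Finset.Ico j R, ((xx W k n : ℤ) - C W (k + 1) n) - C W j n := by
  have h1 : (n : ℤ) = ∑ k ∈ Finset.range R, ((C W k n : ℤ) + hx W k n) + C W R n := by
    exact_mod_cast total' W n
  have h2 : 2 * (DD W n : ℤ) ≤ ∑ k ∈ Finset.range R, ((hx W k n : ℤ) + xx W k n) := by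
    unfold DD
    push_cast
    rw [Finset.mul_sum]
    refine Finset.sum_le_sum fun k hk => ?_
    exact_mod_cast arcs W (Finset.mem_range.1 hk) hs
  have h3 : ∑ k ∈ Finset.range R, (C W k n : ℤ) + C W R n =
      ∑ k ∈ Finset.range j, (C W k n : ℤ) + ∑ k ∈ Finset.Ico j R, (C W (k + 1) n : ℤ) + C W j n := by
    rw [← Finset.sum_range_succ (fun k => (C W k n : ℤ)) R,
      Finset.sum_Ico_add' (fun k => (C W k n : ℤ)) j R 1,
      Finset.range_eq_Ico, Finset.range_eq_Ico,
      ← Finset.sum_Ico_consecutive (fun k => (C W k n : ℤ)) (Nat.zero_le j) (show j ≤ R + 1 by omega),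
      Finset.sum_eq_sum_Ico_succ_bot (show j < R + 1 by omega)]
    ring
  have h4 : ∑ k ∈ Finset.range R, (xx W k n : ℤ) =
      ∑ k ∈ Finset.range j, (xx W k n : ℤ) + ∑ k ∈ Finset.Ico j R, (xx W k n : ℤ) := by
    rw [Finset.range_eq_Ico, Finset.range_eq_Ico, Finset.sum_Ico_consecutive _ (Nat.zero_le j) hj]
  unfold EE
  simp only [Finset.sum_add_distrib, Finset.sum_sub_distrib] at *
  linarith

theorem xx_le (k n : ℕ) : xx W k n ≤ 2 := by unfold xx; omega

/-- parity at a hexagon with the walk elsewhere -/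
theorem par {k n : ℕ} (hk : k < R) (h : ∀ v, W.w n ≠ some (k, v)) :
    C W k n % 2 = xx W k n % 2 ∧ C W (k + 1) n % 2 = xx W k n % 2 := by
  have h0 := hand0 W k hk n
  have h1 := hand1 W k hk n
  have h2 := hand2 W k hk n
  have h3 := hand3 W k hk n
  have h4 := hand4 W k hk n
  have h5 := hand5 W k hk n
  rw [ind, if_neg (h _)] at h0 h1 h2 h3 h4 h5
  unfold C xx
  rw [show 7 * (k + 1) = 7 * k + 7 by ring]
  omega

/-- parities at the hexagon of the walk -/
theorem par_here {k n : ℕ} (hk : k < R) (hs : Stat (W.w n)) :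
    (C W k n + xx W k n) % 2 = ind (W.w n = some (k, 0)) ∧
    (C W (k + 1) n + xx W k n) % 2 = ind (W.w n = some (k, 3)) := by
  have h0 := hand0 W k hk n
  have h1 := hand1 W k hk n
  have h2 := hand2 W k hk n
  have h3 := hand3 W k hk n
  have h4 := hand4 W k hk n
  have h5 := hand5 W k hk n
  rw [ind, if_neg (fun h => by simpa using hs k _ h)] at h1 h2 h4 h5
  unfold C xx
  rw [show 7 * (k + 1) = 7 * k + 7 by ring]
  omega

theorem xx_zero {k n : ℕ} (hk : k < R) (h : ∀ v, ∀ m ≤ n, W.w m ≠ some (k, v)) :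
    xx W k n = 0 := by
  unfold xx
  rw [cnt_zero_of_unvis W hk (v := 0) (j := 7 * k + 1) (by simp [inI]) (h 0),
    cnt_zero_of_unvis W hk (v := 0) (j := 7 * k + 4) (by simp [inI]) (h 0)]

/-- left terms -/
theorem term_left {k j n : ℕ} (hkj : k < j) (hj : j ≤ R) (h : ∀ v, W.w n ≠ some (k, v))
    (hz : C W k n ≠ 0 ∨ C W j n = 0) : (xx W k n : ℤ) - C W k n ≤ 0 := by
  have h1 := par W (by omega) h
  have h2 := xx_le W k n
  by_cases h3 : C W k n = 0
  · have h4 := block W h3 (hz.resolve_left (not_not.2 h3)) le_rfl hkj hj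
    rw [xx_zero W (by omega) h4]
    simp
  · omega

/-- right terms -/
theorem term_right {k j n : ℕ} (hjk : j ≤ k) (hk : k < R) (h : ∀ v, W.w n ≠ some (k, v))
    (hz : C W (k + 1) n ≠ 0 ∨ C W j n = 0) : (xx W k n : ℤ) - C W (k + 1) n ≤ 0 := by
  have h1 := par W hk h
  have h2 := xx_le W k n
  by_cases h3 : C W (k + 1) n = 0
  · have h4 := block W (hz.resolve_left (not_not.2 h3)) h3 hjk (Nat.lt_succ_self k) hk
    rw [xx_zero W hk h4]
    simp
  · omega

/-- excess at the base -/
theorem base {n : ℕ} (hn : W.w n = none) : EE W n ≤ 0 := by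
  have hs : Stat (W.w n) := by intro k v h; rw [hn] at h; cases h
  have hne : ∀ k v, W.w n ≠ some (k, v) := by intro k v h; rw [hn] at h; cases h
  by_cases hz : ∃ j ≤ R, C W j n = 0
  · obtain ⟨j, hj, hz⟩ := hz
    have h1 := excess_le W hs hj
    have h2 : ∑ k ∈ Finset.range j, ((xx W k n : ℤ) - C W k n) ≤ 0 :=
      Finset.sum_nonpos fun k hk => term_left W (Finset.mem_range.1 hk) hj (hne k) (Or.inr hz)
    have h3 : ∑ k ∈ Finset.Ico j R, ((xx W k n : ℤ) - C W (k + 1) n) ≤ 0 :=
      Finset.sum_nonpos fun k hk =>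
        term_right W (Finset.mem_Ico.1 hk).1 (Finset.mem_Ico.1 hk).2 (hne k) (Or.inr hz)
    omega
  · push Not at hz
    have h1 := excess_le W hs (le_refl R)
    have h2 : ∑ k ∈ Finset.range R, ((xx W k n : ℤ) - C W k n) ≤ 0 :=
      Finset.sum_nonpos fun k hk => term_left W (Finset.mem_range.1 hk) le_rfl (hne k)
        (Or.inl (hz k (Finset.mem_range.1 hk).le))
    rw [Finset.Ico_self, Finset.sum_empty] at h1
    omega

theorem stat_of {n q : ℕ} {v : Fin 6} (hv : v = 0 ∨ v = 3) (h : W.w n = some (q, v)) :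
    Stat (W.w n) := by
  intro k u hu
  rw [h, Option.some.injEq, Prod.mk.injEq] at hu
  rw [← hu.2]; exact hv

/-- a sum with nonpositive terms except one -/
theorem sum_except {s : Finset ℕ} {f : ℕ → ℤ} {q : ℕ} (hq : q ∈ s)
    (h : ∀ k ∈ s, k ≠ q → f k ≤ 0) : ∑ k ∈ s, f k ≤ f q := by
  rw [← Finset.add_sum_erase s f hq]
  have : ∑ k ∈ s.erase q, f k ≤ 0 := Finset.sum_nonpos fun k hk =>
    h k (Finset.mem_of_mem_erase hk) (Finset.ne_of_mem_erase hk)
  omega

/-- the parity of the connectors between the walk and an untraversed connector on the right -/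
theorem chain_right {q j n : ℕ} (hqj : q < j) (hj : j ≤ R) (hz : C W j n = 0) {v : Fin 6}
    (hw : W.w n = some (q, v)) : C W (q + 1) n % 2 = 0 := by
  have key : ∀ d i, i + d = j → q < i → C W i n % 2 = 0 := by
    intro d
    induction d with
    | zero => intro i hi _; rw [show i = j by omega, hz]
    | succ d ih =>
      intro i hi hqi
      have h1 := ih (i + 1) (by omega) (by omega)
      have h2 := par W (k := i) (n := n) (by omega) (by
        intro u hu
        rw [hw, Option.some.injEq, Prod.mk.injEq] at hu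
        omega)
      omega
  exact key (j - (q + 1)) (q + 1) (by omega) (by omega)

/-- the same on the left -/
theorem chain_left {q j n : ℕ} (hqj : j ≤ q) (hq : q < R) (hz : C W j n = 0) {v : Fin 6}
    (hw : W.w n = some (q, v)) : C W q n % 2 = 0 := by
  have key : ∀ d, j + d ≤ q → C W (j + d) n % 2 = 0 := by
    intro d
    induction d with
    | zero => intro _; rw [add_zero, hz]
    | succ d ih =>
      intro hd
      have h1 := ih (by omega)
      have h2 := par W (k := j + d) (n := n) (by omega) (by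
        intro u hu
        rw [hw, Option.some.injEq, Prod.mk.injEq] at hu
        omega)
      rw [← add_assoc]
      omega
  have := key (q - j) (by omega)
  rwa [show j + (q - j) = q by omega] at this

/-- an untraversed connector on the right of the hexagon `q` -/
def TL (q n : ℕ) : Prop := ∃ j, q < j ∧ j ≤ R ∧ C W j n = 0

/-- an untraversed connector on the left of the hexagon `q` -/
def TR (q n : ℕ) : Prop := ∃ j, j ≤ q ∧ C W j n = 0

theorem pos_left {q j n : ℕ} (hqj : q < j) (hj : j ≤ R) (hz : C W j n = 0) {v : Fin 6}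
    (hw : W.w n = some (q, v)) : C W q n ≠ 0 := fun h0 =>
  block W h0 hz le_rfl hqj hj v n le_rfl hw

theorem pos_right {q j n : ℕ} (hqj : j ≤ q) (hq : q < R) (hz : C W j n = 0) {v : Fin 6}
    (hw : W.w n = some (q, v)) : C W (q + 1) n ≠ 0 := fun h0 =>
  block W hz h0 hqj (Nat.lt_succ_self q) hq v n le_rfl hw

theorem other {q n k : ℕ} {v : Fin 6} (hw : W.w n = some (q, v)) (hk : k ≠ q) (u : Fin 6) :
    W.w n ≠ some (k, u) := by
  intro hu
  rw [hw, Option.some.injEq, Prod.mk.injEq] at hu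
  exact hk hu.1.symm

theorem bound_TL {q n : ℕ} (hq : q < R) (h : TL W q n) {v : Fin 6} (hv : v = 0 ∨ v = 3)
    (hw : W.w n = some (q, v)) : EE W n ≤ (xx W q n : ℤ) - C W q n := by
  obtain ⟨j, hqj, hj, hz⟩ := h
  have h1 := excess_le W (stat_of W hv hw) hj
  have h2 : ∑ k ∈ Finset.range j, ((xx W k n : ℤ) - C W k n) ≤ (xx W q n : ℤ) - C W q n :=
    sum_except (Finset.mem_range.2 hqj) fun k hk hkq =>
      term_left W (Finset.mem_range.1 hk) hj (other W hw hkq) (Or.inr hz)
  have h3 : ∑ k ∈ Finset.Ico j R, ((xx W k n : ℤ) - C W (k + 1) n) ≤ 0 :=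
    Finset.sum_nonpos fun k hk => by
      rw [Finset.mem_Ico] at hk
      exact term_right W hk.1 hk.2 (other W hw (by omega)) (Or.inr hz)
  omega

theorem bound_TR {q n : ℕ} (hq : q < R) (h : TR W q n) {v : Fin 6} (hv : v = 0 ∨ v = 3)
    (hw : W.w n = some (q, v)) : EE W n ≤ (xx W q n : ℤ) - C W (q + 1) n := by
  obtain ⟨j, hqj, hz⟩ := h
  have hj : j ≤ R := by omega
  have h1 := excess_le W (stat_of W hv hw) hj
  have h2 : ∑ k ∈ Finset.range j, ((xx W k n : ℤ) - C W k n) ≤ 0 :=
    Finset.sum_nonpos fun k hk => by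
      rw [Finset.mem_range] at hk
      exact term_left W hk hj (other W hw (by omega)) (Or.inr hz)
  have h3 : ∑ k ∈ Finset.Ico j R, ((xx W k n : ℤ) - C W (k + 1) n) ≤
      (xx W q n : ℤ) - C W (q + 1) n :=
    sum_except (f := fun k => (xx W k n : ℤ) - C W (k + 1) n) (Finset.mem_Ico.2 ⟨hqj, hq⟩)
      fun k hk hkq => by
        rw [Finset.mem_Ico] at hk
        exact term_right W hk.1 hk.2 (other W hw hkq) (Or.inr hz)
  omega

theorem bound_cl {q n : ℕ} (hq : q < R) (h1 : ¬ TL W q n) (h2 : ¬ TR W q n) {v : Fin 6}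
    (hv : v = 0 ∨ v = 3) (hw : W.w n = some (q, v)) :
    EE W n ≤ (xx W q n : ℤ) - C W q n - C W (q + 1) n ∧ C W q n ≠ 0 ∧ C W (q + 1) n ≠ 0 := by
  have hall : ∀ j ≤ R, C W j n ≠ 0 := by
    intro j hj h0
    by_cases hjq : j ≤ q
    · exact h2 ⟨j, hjq, h0⟩
    · exact h1 ⟨j, by omega, hj, h0⟩
  have h3 := excess_le W (stat_of W hv hw) (j := q + 1) hq
  have h4 : ∑ k ∈ Finset.range (q + 1), ((xx W k n : ℤ) - C W k n) ≤ (xx W q n : ℤ) - C W q n :=
    sum_except (Finset.mem_range.2 (Nat.lt_succ_self q)) fun k hk hkq => by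
      rw [Finset.mem_range] at hk
      exact term_left W (j := q + 1) hk hq (other W hw hkq) (Or.inl (hall k (by omega)))
  have h5 : ∑ k ∈ Finset.Ico (q + 1) R, ((xx W k n : ℤ) - C W (k + 1) n) ≤ 0 :=
    Finset.sum_nonpos fun k hk => by
      rw [Finset.mem_Ico] at hk
      exact term_right W (j := q + 1) hk.1 hk.2 (other W hw (by omega)) (Or.inl (hall _ (by omega)))
  exact ⟨by omega, hall _ hq.le, hall _ hq⟩

/-- the walk is at the left corner of a hexagon with an unvisited atom -/
theorem at_left {q n : ℕ} (hq : q < R) (hw : W.w n = some (q, 0)) (hx : xx W q n ≤ 1) :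
    EE W n ≤ 0 ∧ (¬ TR W q n → EE W n ≤ -1) := by
  have hp := par_here W hq (stat_of W (Or.inl rfl) hw)
  rw [ind, ind, if_pos hw, if_neg (by rw [hw]; simp)] at hp
  by_cases h1 : TL W q n
  · have h2 := bound_TL W hq h1 (Or.inl rfl) hw
    obtain ⟨j, hqj, hj, hz⟩ := h1
    have h3 := chain_right W hqj hj hz hw
    have h4 := pos_left W hqj hj hz hw
    constructor
    · omega
    · intro _; omega
  · by_cases h2 : TR W q n
    · have h3 := bound_TR W hq h2 (Or.inl rfl) hw
      obtain ⟨j, hqj, hz⟩ := h2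
      have h5 := pos_right W hqj hq hz hw
      exact ⟨by omega, fun h => absurd ⟨j, hqj, hz⟩ h⟩
    · have h3 := bound_cl W hq h1 h2 (Or.inl rfl) hw
      constructor
      · omega
      · intro _; omega

/-- the walk is at the right corner of a hexagon with an unvisited atom -/
theorem at_right {q n : ℕ} (hq : q < R) (hw : W.w n = some (q, 3)) (hx : xx W q n ≤ 1) :
    EE W n ≤ 0 ∧ (¬ TL W q n → EE W n ≤ -1) ∧ (TL W q n → xx W q n = 1) := by
  have hp := par_here W hq (stat_of W (Or.inr rfl) hw)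
  rw [ind, ind, if_pos hw, if_neg (by rw [hw]; simp)] at hp
  by_cases h1 : TL W q n
  · have h2 := bound_TL W hq h1 (Or.inr rfl) hw
    obtain ⟨j, hqj, hj, hz⟩ := h1
    have h3 := chain_right W hqj hj hz hw
    have h4 := pos_left W hqj hj hz hw
    refine ⟨by omega, fun h => absurd ⟨j, hqj, hj, hz⟩ h, fun _ => by omega⟩
  · by_cases h2 : TR W q n
    · have h3 := bound_TR W hq h2 (Or.inr rfl) hw
      obtain ⟨j, hqj, hz⟩ := h2
      have h4 := chain_left W hqj hq hz hw
      have h5 := pos_right W hqj hq hz hw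
      refine ⟨by omega, fun _ => by omega, fun h => absurd h h1⟩
    · have h3 := bound_cl W hq h1 h2 (Or.inr rfl) hw
      refine ⟨by omega, fun _ => by omega, fun h => absurd h h1⟩

/-- parity information at the left corner in the regime `TR` -/
theorem at_left_TR {q n : ℕ} (hq : q < R) (hw : W.w n = some (q, 0)) (hx : xx W q n ≤ 1)
    (h : TR W q n) : xx W q n = 1 := by
  have hp := par_here W hq (stat_of W (Or.inl rfl) hw)
  rw [ind, ind, if_pos hw, if_neg (by rw [hw]; simp)] at hp
  obtain ⟨j, hqj, hz⟩ := h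
  have h4 := chain_left W hqj hq hz hw
  omega

end Ring

end Pool.Agent.Gal
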