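import Pool.Agent.Helper77.Neck.RingB

/-!
# Walks in the contracted ring: latency
-/

open Set

namespace Pool.Agent.Gal

namespace Ring

variable {R : ℕ} (W : Wk R)

theorem C_mono (j : ℕ) {m n : ℕ} (h : m ≤ n) : C W j m ≤ C W j n := W.cnt_mono _ h

theorem TL_mono {q m n : ℕ} (h : m ≤ n) (hT : TL W q n) : TL W q m := by
  obtain ⟨j, h1, h2, h3⟩ := hT
  exact ⟨j, h1, h2, Nat.le_zero.1 (h3 ▸ C_mono W j h)⟩

theorem TR_mono {q m n : ℕ} (h : m ≤ n) (hT : TR W q n) : TR W q m := by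
  obtain ⟨j, h1, h3⟩ := hT
  exact ⟨j, h1, Nat.le_zero.1 (h3 ▸ C_mono W j h)⟩

theorem not_both {q n : ℕ} {v : Fin 6} (hw : W.w n = some (q, v)) (h1 : TL W q n)
    (h2 : TR W q n) : False := by
  obtain ⟨j, h3, h4, h5⟩ := h1
  obtain ⟨i, h6, h7⟩ := h2
  exact block W h7 h5 h6 h3 h4 v n le_rfl hw

/-- predecessors of the corner 1 -/
theorem pred1 {y : NV} {k j : ℕ} (h : Stp R y (some (k, 1)) j) :
    y = some (k, 0) ∨ y = some (k, 2) := by
  generalize hz : (some (k, 1) : NV) = z at h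
  rcases h with ⟨k', hk', e⟩ | ⟨k', hk', e⟩ | ⟨i, hi, hR⟩ | ⟨i, hi, hR⟩
  · fin_cases e <;> simp_all [nsrc, ntgt]
  · fin_cases e <;> simp_all [nsrc, ntgt]
  · unfold rv at hz; split_ifs at hz; simp at hz
  · unfold lv at hz; split_ifs at hz; simp at hz

theorem pred2 {y : NV} {k j : ℕ} (h : Stp R y (some (k, 2)) j) :
    y = some (k, 3) ∨ y = some (k, 1) := by
  generalize hz : (some (k, 2) : NV) = z at h
  rcases h with ⟨k', hk', e⟩ | ⟨k', hk', e⟩ | ⟨i, hi, hR⟩ | ⟨i, hi, hR⟩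
  · fin_cases e <;> simp_all [nsrc, ntgt]
  · fin_cases e <;> simp_all [nsrc, ntgt]
  · unfold rv at hz; split_ifs at hz; simp at hz
  · unfold lv at hz; split_ifs at hz; simp at hz

theorem pred4 {y : NV} {k j : ℕ} (h : Stp R y (some (k, 4)) j) :
    y = some (k, 0) ∨ y = some (k, 5) := by
  generalize hz : (some (k, 4) : NV) = z at h
  rcases h with ⟨k', hk', e⟩ | ⟨k', hk', e⟩ | ⟨i, hi, hR⟩ | ⟨i, hi, hR⟩
  · fin_cases e <;> simp_all [nsrc, ntgt]
  · fin_cases e <;> simp_all [nsrc, ntgt]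
  · unfold rv at hz; split_ifs at hz; simp at hz
  · unfold lv at hz; split_ifs at hz; simp at hz

theorem pred5 {y : NV} {k j : ℕ} (h : Stp R y (some (k, 5)) j) :
    y = some (k, 3) ∨ y = some (k, 4) := by
  generalize hz : (some (k, 5) : NV) = z at h
  rcases h with ⟨k', hk', e⟩ | ⟨k', hk', e⟩ | ⟨i, hi, hR⟩ | ⟨i, hi, hR⟩
  · fin_cases e <;> simp_all [nsrc, ntgt]
  · fin_cases e <;> simp_all [nsrc, ntgt]
  · unfold rv at hz; split_ifs at hz; simp at hz
  · unfold lv at hz; split_ifs at hz; simp at hz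

/-- first visit -/
def Fst (x : NV) (f : ℕ) : Prop := W.w f = x ∧ ∀ m < f, W.w m ≠ x

/-- entry of a first visit: `a` is the near corner, `b` the far corner, `v'` the other atom of the
long arc -/
theorem entry {k f : ℕ} {v v' a b : Fin 6} (hf : Fst W (some (k, v)) f)
    (h1 : ∀ y j, Stp R y (some (k, v)) j → y = some (k, a) ∨ y = some (k, v'))
    (h2 : ∀ y j, Stp R y (some (k, v')) j → y = some (k, b) ∨ y = some (k, v)) :
    (1 ≤ f ∧ W.w (f - 1) = some (k, a)) ∨
      (2 ≤ f ∧ W.w (f - 1) = some (k, v') ∧ W.w (f - 2) = some (k, b)) := by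
  have hf1 : f ≠ 0 := by
    rintro rfl
    have := hf.1
    rw [W.zero] at this
    cases this
  obtain ⟨g, rfl⟩ := Nat.exists_eq_succ_of_ne_zero hf1
  have hs := W.stp g
  rw [show W.w (g + 1) = some (k, v) from hf.1] at hs
  rcases h1 _ _ hs with h | h
  · exact Or.inl ⟨by omega, h⟩
  · have hg : g ≠ 0 := by
      rintro rfl
      rw [W.zero] at h
      cases h
    obtain ⟨g', rfl⟩ := Nat.exists_eq_succ_of_ne_zero hg
    have hs' := W.stp g'
    rw [show W.w (g' + 1) = some (k, v') from h] at hs'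
    rcases h2 _ _ hs' with h3 | h3
    · exact Or.inr ⟨by omega, h, h3⟩
    · exact absurd h3 (hf.2 g' (by omega))

theorem vis_succ (x : NV) (n : ℕ) :
    vis W x (n + 1) ≤ vis W x n + ind (W.w (n + 1) = x) := by
  by_cases h : W.w (n + 1) = x
  · rw [ind, if_pos h]
    have := vis_le_one W x (n + 1)
    omega
  · rw [ind, if_neg h, add_zero]
    by_cases h1 : vis W x (n + 1) = 1
    · obtain ⟨m, hm, hm'⟩ := (vis_eq_one W).1 h1
      have : m ≤ n := by
        by_contra hcon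
        have : m = n + 1 := by omega
        exact h (this ▸ hm')
      rw [h1, (vis_eq_one W).2 ⟨m, this, hm'⟩]
    · have := vis_le_one W x (n + 1)
      omega

theorem DD_succ (n : ℕ) : DD W (n + 1) ≤ DD W n + 1 := by
  have h1 : DD W (n + 1) ≤ DD W n + ∑ k ∈ Finset.range R, (ind (W.w (n + 1) = some (k, 1)) +
      ind (W.w (n + 1) = some (k, 2)) + ind (W.w (n + 1) = some (k, 4)) +
      ind (W.w (n + 1) = some (k, 5))) := by
    unfold DD dd
    rw [← Finset.sum_add_distrib]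
    refine Finset.sum_le_sum fun k _ => ?_
    have v1 := vis_succ W (some (k, 1)) n
    have v2 := vis_succ W (some (k, 2)) n
    have v4 := vis_succ W (some (k, 4)) n
    have v5 := vis_succ W (some (k, 5)) n
    omega
  refine h1.trans (Nat.add_le_add_left ?_ _)
  rcases hw : W.w (n + 1) with _ | ⟨k, v⟩
  · simp [ind]
  · by_cases hk : k ∈ Finset.range R
    · rw [Finset.sum_eq_single_of_mem k hk]
      · fin_cases v <;> simp [ind]
      · intro k' _ hkk
        have : k ≠ k' := fun h => hkk h.symm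
        simp [ind, this]
    · rw [Finset.sum_eq_zero]
      · omega
      · intro k' hk'
        have : k ≠ k' := fun h => hk (h ▸ hk')
        simp [ind, this]

theorem EE_succ (n : ℕ) : EE W (n + 1) ≤ EE W n + 1 := by
  have := DD_succ W n
  unfold EE
  push_cast
  omega

/-- an odd counter at a corner means that the corner is visited -/
theorem vis_of_cnt {k : ℕ} (hk : k < R) {v : Fin 6} {j n f : ℕ} (hj : inI k v j)
    (h : W.cnt j n ≠ 0) (hf : Fst W (some (k, v)) f) : f ≤ n := by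
  by_contra hcon
  exact h (cnt_zero_of_unvis W hk hj fun m hm => hf.2 m (by omega))

theorem cnt1 {k f t : ℕ} (hk : k < R) (hf : Fst W (some (k, 1)) f) (ht : t < f) :
    W.cnt (7 * k + 1) t = 0 :=
  cnt_zero_of_unvis W hk (v := 1) (by simp [inI]) fun m hm => hf.2 m (by omega)

theorem cnt4 {k f t : ℕ} (hk : k < R) (hf : Fst W (some (k, 4)) f) (ht : t < f) :
    W.cnt (7 * k + 4) t = 0 :=
  cnt_zero_of_unvis W hk (v := 4) (by simp [inI]) fun m hm => hf.2 m (by omega)

theorem cnt2 {k f t : ℕ} (hk : k < R) (hf : Fst W (some (k, 2)) f) (ht : t < f) :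
    W.cnt (7 * k + 2) t = 0 ∧ W.cnt (7 * k + 3) t = 0 :=
  ⟨cnt_zero_of_unvis W hk (v := 2) (by simp [inI]) fun m hm => hf.2 m (by omega),
    cnt_zero_of_unvis W hk (v := 2) (by simp [inI]) fun m hm => hf.2 m (by omega)⟩

theorem cnt5 {k f t : ℕ} (hk : k < R) (hf : Fst W (some (k, 5)) f) (ht : t < f) :
    W.cnt (7 * k + 5) t = 0 ∧ W.cnt (7 * k + 6) t = 0 :=
  ⟨cnt_zero_of_unvis W hk (v := 5) (by simp [inI]) fun m hm => hf.2 m (by omega),
    cnt_zero_of_unvis W hk (v := 5) (by simp [inI]) fun m hm => hf.2 m (by omega)⟩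

/-- entry data of a first visit; `a` near corner, `b` far corner -/
def Ent (k : ℕ) (a b : Fin 6) (P Q : ℕ → Prop) (f f' t : ℕ) : Prop :=
  t < f ∧ EE W t ≤ 0 ∧
    ((W.w t = some (k, a) ∧ EE W (f - 1) ≤ EE W t ∧ (¬ Q t → EE W t ≤ -1)) ∨
     (W.w t = some (k, b) ∧ EE W (f - 1) ≤ EE W t + 1 ∧ (¬ P t → EE W t ≤ -1) ∧
        (P t → f' ≤ t)))

theorem combine {k : ℕ} {a b : Fin 6} {P Q : ℕ → Prop} {f f' t t' : ℕ}
    (hP : ∀ m n, m ≤ n → P n → P m)
    (hPQ : ∀ n v, W.w n = some (k, v) → P n → Q n → False)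
    (h : Ent W k a b P Q f f' t) (h' : Ent W k a b P Q f' f t') :
    EE W (f - 1) + EE W (f' - 1) ≤ 0 := by
  obtain ⟨ht, h0, h⟩ := h
  obtain ⟨ht', h0', h'⟩ := h'
  rcases h with ⟨h1, h2, h3⟩ | ⟨h1, h2, h3, h4⟩
  · rcases h' with ⟨h1', h2', h3'⟩ | ⟨h1', h2', h3', h4'⟩
    · omega
    · by_cases hp : P t'
      · have h5 := h4' hp
        have h6 := hP t t' (by omega) hp
        have h7 := h3 (fun hq => hPQ t _ h1 h6 hq)
        omega
      · have := h3' hp
        omega
  · rcases h' with ⟨h1', h2', h3'⟩ | ⟨h1', h2', h3', h4'⟩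
    · by_cases hp : P t
      · have h5 := h4 hp
        have h6 := hP t' t (by omega) hp
        have h7 := h3' (fun hq => hPQ t' _ h1' h6 hq)
        omega
      · have := h3 hp
        omega
    · by_cases hp : P t
      · have h5 := h4 hp
        have h6 := h4' (hP t' t (by omega) hp)
        omega
      · by_cases hp' : P t'
        · have h5 := h4' hp'
          have h6 := h4 (hP t t' (by omega) hp')
          omega
        · have := h3 hp
          have := h3' hp'
          omega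

theorem ent1 {k f f' : ℕ} (hk : k < R) (hf : Fst W (some (k, 1)) f)
    (hf' : Fst W (some (k, 4)) f') :
    ∃ t, Ent W k 0 3 (TL W k) (TR W k) f f' t := by
  rcases entry W hf (a := 0) (b := 3) (v' := 2) (fun y j => pred1) (fun y j => pred2) with
    ⟨h1, h2⟩ | ⟨h1, h2, h3⟩
  · have hc := cnt1 W hk hf (t := f - 1) (by omega)
    have hx : xx W k (f - 1) ≤ 1 := by unfold xx; omega
    have ha := at_left W hk h2 hx
    exact ⟨f - 1, by omega, ha.1, Or.inl ⟨h2, le_rfl, ha.2⟩⟩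
  · have hc := cnt1 W hk hf (t := f - 2) (by omega)
    have hx : xx W k (f - 2) ≤ 1 := by unfold xx; omega
    have ha := at_right W hk h3 hx
    have hE := EE_succ W (f - 2)
    rw [show f - 2 + 1 = f - 1 by omega] at hE
    refine ⟨f - 2, by omega, ha.1, Or.inr ⟨h3, hE, ha.2.1, fun hT => ?_⟩⟩
    have hx1 := ha.2.2 hT
    refine vis_of_cnt W hk (v := 4) (j := 7 * k + 4) (by simp [inI]) ?_ hf'
    unfold xx at hx1
    omega

theorem ent4 {k f f' : ℕ} (hk : k < R) (hf : Fst W (some (k, 4)) f)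
    (hf' : Fst W (some (k, 1)) f') :
    ∃ t, Ent W k 0 3 (TL W k) (TR W k) f f' t := by
  rcases entry W hf (a := 0) (b := 3) (v' := 5) (fun y j => pred4) (fun y j => pred5) with
    ⟨h1, h2⟩ | ⟨h1, h2, h3⟩
  · have hc := cnt4 W hk hf (t := f - 1) (by omega)
    have hx : xx W k (f - 1) ≤ 1 := by unfold xx; omega
    have ha := at_left W hk h2 hx
    exact ⟨f - 1, by omega, ha.1, Or.inl ⟨h2, le_rfl, ha.2⟩⟩
  · have hc := cnt4 W hk hf (t := f - 2) (by omega)
    have hx : xx W k (f - 2) ≤ 1 := by unfold xx; omega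
    have ha := at_right W hk h3 hx
    have hE := EE_succ W (f - 2)
    rw [show f - 2 + 1 = f - 1 by omega] at hE
    refine ⟨f - 2, by omega, ha.1, Or.inr ⟨h3, hE, ha.2.1, fun hT => ?_⟩⟩
    have hx1 := ha.2.2 hT
    refine vis_of_cnt W hk (v := 1) (j := 7 * k + 1) (by simp [inI]) ?_ hf'
    unfold xx at hx1
    omega

theorem ent2 {k f f' : ℕ} (hk : k < R) (hf : Fst W (some (k, 2)) f)
    (hf' : Fst W (some (k, 5)) f') :
    ∃ t, Ent W k 3 0 (TR W k) (TL W k) f f' t := by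
  rcases entry W hf (a := 3) (b := 0) (v' := 1) (fun y j => pred2) (fun y j => pred1) with
    ⟨h1, h2⟩ | ⟨h1, h2, h3⟩
  · have hc := cnt2 W hk hf (t := f - 1) (by omega)
    have hp := hand1 W k hk (f - 1)
    rw [ind, if_neg (by rw [h2]; simp)] at hp
    have hx : xx W k (f - 1) ≤ 1 := by unfold xx; omega
    have ha := at_right W hk h2 hx
    exact ⟨f - 1, by omega, ha.1, Or.inl ⟨h2, le_rfl, ha.2.1⟩⟩
  · have hc := cnt2 W hk hf (t := f - 2) (by omega)
    have hp := hand1 W k hk (f - 2)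
    rw [ind, if_neg (by rw [h3]; simp)] at hp
    have hx : xx W k (f - 2) ≤ 1 := by unfold xx; omega
    have ha := at_left W hk h3 hx
    have hE := EE_succ W (f - 2)
    rw [show f - 2 + 1 = f - 1 by omega] at hE
    refine ⟨f - 2, by omega, ha.1, Or.inr ⟨h3, hE, ha.2, fun hT => ?_⟩⟩
    have hx1 := at_left_TR W hk h3 hx hT
    have hp4 := hand4 W k hk (f - 2)
    rw [ind, if_neg (by rw [h3]; simp)] at hp4
    refine vis_of_cnt W hk (v := 5) (j := 7 * k + 5) (by simp [inI]) ?_ hf'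
    unfold xx at hx1
    omega

theorem ent5 {k f f' : ℕ} (hk : k < R) (hf : Fst W (some (k, 5)) f)
    (hf' : Fst W (some (k, 2)) f') :
    ∃ t, Ent W k 3 0 (TR W k) (TL W k) f f' t := by
  rcases entry W hf (a := 3) (b := 0) (v' := 4) (fun y j => pred5) (fun y j => pred4) with
    ⟨h1, h2⟩ | ⟨h1, h2, h3⟩
  · have hc := cnt5 W hk hf (t := f - 1) (by omega)
    have hp := hand4 W k hk (f - 1)
    rw [ind, if_neg (by rw [h2]; simp)] at hp
    have hx : xx W k (f - 1) ≤ 1 := by unfold xx; omega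
    have ha := at_right W hk h2 hx
    exact ⟨f - 1, by omega, ha.1, Or.inl ⟨h2, le_rfl, ha.2.1⟩⟩
  · have hc := cnt5 W hk hf (t := f - 2) (by omega)
    have hp := hand4 W k hk (f - 2)
    rw [ind, if_neg (by rw [h3]; simp)] at hp
    have hx : xx W k (f - 2) ≤ 1 := by unfold xx; omega
    have ha := at_left W hk h3 hx
    have hE := EE_succ W (f - 2)
    rw [show f - 2 + 1 = f - 1 by omega] at hE
    refine ⟨f - 2, by omega, ha.1, Or.inr ⟨h3, hE, ha.2, fun hT => ?_⟩⟩
    have hx1 := at_left_TR W hk h3 hx hT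
    have hp1 := hand1 W k hk (f - 2)
    rw [ind, if_neg (by rw [h3]; simp)] at hp1
    refine vis_of_cnt W hk (v := 2) (j := 7 * k + 2) (by simp [inI]) ?_ hf'
    unfold xx at hx1
    omega

theorem pair14 {k f f' : ℕ} (hk : k < R) (hf : Fst W (some (k, 1)) f)
    (hf' : Fst W (some (k, 4)) f') : EE W (f - 1) + EE W (f' - 1) ≤ 0 := by
  obtain ⟨t, ht⟩ := ent1 W hk hf hf'
  obtain ⟨t', ht'⟩ := ent4 W hk hf' hf
  exact combine W (fun m n => TL_mono W) (fun n v h => not_both W h) ht ht'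

theorem pair25 {k f f' : ℕ} (hk : k < R) (hf : Fst W (some (k, 2)) f)
    (hf' : Fst W (some (k, 5)) f') : EE W (f - 1) + EE W (f' - 1) ≤ 0 := by
  obtain ⟨t, ht⟩ := ent2 W hk hf hf'
  obtain ⟨t', ht'⟩ := ent5 W hk hf' hf
  exact combine W (fun m n => TR_mono W) (fun n v h h1 h2 => not_both W h h2 h1) ht ht'

end Ring

end Pool.Agent.Gal
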