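import Pool.Agent.Helper77.Neck.Defs

/-!
# Both directions of a closed curve
-/

open Set MeasureTheory Filter Topology
open scoped ENNReal NNReal

namespace Pool.Agent.Gal

theorem period_zsmul {Q : Type} {p : ℝ → Q} {P : ℝ} (hp : ∀ t, p (t + P) = p t) (n : ℤ) (t : ℝ) :
    p (t + n * P) = p t := by
  have h : Function.Periodic p P := hp
  have := h.int_mul n t
  simpa using this

theorem two_way {Q : Type} {p : ℝ → Q} {P : ℝ} (hP : 0 < P) (hp : ∀ t, p (t + P) = p t)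
    (t₀ t₁ : ℝ) : ∃ τ, 0 ≤ τ ∧ τ ≤ P ∧ p (t₀ + τ) = p t₁ ∧ p (t₀ - (P - τ)) = p t₁ := by
  have h1 : toIcoMod hP 0 (t₁ - t₀) = (t₁ - t₀) - toIcoDiv hP 0 (t₁ - t₀) * P := by
    rw [toIcoMod, zsmul_eq_mul]
  have hmem := toIcoMod_mem_Ico hP 0 (t₁ - t₀)
  refine ⟨toIcoMod hP 0 (t₁ - t₀), hmem.1, by linarith [hmem.2], ?_, ?_⟩
  · rw [h1, ← period_zsmul hp (toIcoDiv hP 0 (t₁ - t₀)) (t₀ + _)]
    congr 1
    ring
  · rw [h1, ← period_zsmul hp (toIcoDiv hP 0 (t₁ - t₀) + 1) (t₀ - _)]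
    congr 1
    push_cast
    ring

theorem two_way_double {Q : Type} {p : ℝ → Q} {P : ℝ} (hP : 0 < P) (hp : ∀ t, p (t + P) = p t)
    (t₀ : ℝ) {y : ℝ} (hy : 0 ≤ y) (hy' : 2 * y ≤ P) (h : p y = p (-y)) :
    ∃ τ τ', 0 ≤ τ ∧ 0 ≤ τ' ∧ p (t₀ + τ) = p y ∧ p (t₀ - τ') = p y ∧
      τ + τ' ≤ max (2 * y) (P - 2 * y) := by
  have h1 : toIcoMod hP (-P / 2) t₀ = t₀ - toIcoDiv hP (-P / 2) t₀ * P := by
    rw [toIcoMod, zsmul_eq_mul]
  have hmem := toIcoMod_mem_Ico hP (-P / 2) t₀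
  set n := toIcoDiv hP (-P / 2) t₀
  set s := toIcoMod hP (-P / 2) t₀
  have hs : t₀ = s + n * P := by rw [h1]; ring
  have hpl : ∀ τ, p (t₀ + τ) = p (s + τ) := by
    intro τ
    rw [hs, ← period_zsmul hp n (s + τ)]
    congr 1; ring
  have hmi : ∀ τ, p (t₀ - τ) = p (s - τ) := by
    intro τ
    rw [hs, ← period_zsmul hp n (s - τ)]
    congr 1; ring
  have hs1 : -P / 2 ≤ s := hmem.1
  have hs2 : s < P / 2 := by linarith [hmem.2]
  rcases le_total |s| y with hsy | hsy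
  · have h2 := abs_le.1 hsy
    refine ⟨y - s, s + y, by linarith, by linarith, ?_, ?_, ?_⟩
    · rw [hpl]; congr 1; ring
    · rw [hmi, h]; congr 1; ring
    · exact le_max_of_le_left (by linarith)
  · rcases le_total 0 s with h0 | h0
    · rw [abs_of_nonneg h0] at hsy
      refine ⟨P - y - s, s - y, by linarith, by linarith, ?_, ?_, ?_⟩
      · rw [hpl, h, ← hp (-y)]; congr 1; ring
      · rw [hmi]; congr 1; ring
      · exact le_max_of_le_right (by linarith)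
    · rw [abs_of_nonpos h0] at hsy
      refine ⟨-y - s, s - y + P, by linarith, by linarith, ?_, ?_, ?_⟩
      · rw [hpl, h]; congr 1; ring
      · rw [hmi, ← hp (s - (s - y + P))]; congr 1; ring
      · exact le_max_of_le_right (by linarith)

end Pool.Agent.Gal
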