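import Pool.Agent.Helper77.Neck.Curve
import Pool.Agent.Helper77.Neck.TwoWay
import Pool.Agent.Helper77.Gal.Meas

/-!
# Strategies of the searcher in the necklace of 20 hexagons (module N11)
-/

open Set MeasureTheory Filter Topology
open scoped ENNReal NNReal

namespace Pool.Agent.Gal

namespace Search

/-- `f` until time `P`, then `g` -/
theorem exists_path {Q : Type} [MetricSpace Q] {O : Q} {f g : ℝ → Q} (hf : LipschitzWith 1 f)
    (hg : LipschitzWith 1 g) {P : ℝ} (hP : 0 ≤ P) (h0 : f 0 = O) (h1 : f P = g 0) :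
    ∃ S : PathFrom O, (∀ τ, 0 ≤ τ → τ ≤ P → hit S.1 (f τ) ≤ ENNReal.ofReal τ) ∧
      ∀ τ, 0 ≤ τ → hit S.1 (g τ) ≤ ENNReal.ofReal (P + τ) := by
  have hf' : LipschitzWith 1 (fun t : ℝ≥0 => f t) := by
    refine LipschitzWith.of_dist_le_mul fun x y => ?_
    exact hf.dist_le_mul x y
  have hg' : LipschitzWith 1 (fun t : ℝ≥0 => g t) := by
    refine LipschitzWith.of_dist_le_mul fun x y => ?_
    exact hg.dist_le_mul x y
  have hgl : (fun t : ℝ≥0 => f t) ⟨P, hP⟩ = (fun t : ℝ≥0 => g t) 0 := by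
    change f P = g ((0 : ℝ≥0) : ℝ)
    rw [NNReal.coe_zero]
    exact h1
  refine ⟨⟨glue (fun t : ℝ≥0 => f t) ⟨P, hP⟩ (fun t : ℝ≥0 => g t), ?_, glue_lip hf' hg' hgl⟩,
    fun τ h0 h1 => ?_, fun τ h0 => ?_⟩
  · rw [glue_zero]
    simpa using h0
  · have := hit_le (p := glue (fun t : ℝ≥0 => f t) ⟨P, hP⟩ (fun t : ℝ≥0 => g t)) (H := f τ)
      (t := ⟨τ, h0⟩) (by rw [glue_of_le (by exact_mod_cast h1)]; rfl)
    refine this.trans ?_
    rw [ENNReal.ofReal, Real.toNNReal_of_nonneg h0]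
    exact le_rfl
  · have := hit_le (p := glue (fun t : ℝ≥0 => f t) ⟨P, hP⟩ (fun t : ℝ≥0 => g t)) (H := g τ)
      (t := ⟨P, hP⟩ + ⟨τ, h0⟩) (by rw [glue_add hgl]; rfl)
    refine this.trans ?_
    rw [ENNReal.ofReal, Real.toNNReal_of_nonneg (by linarith)]
    exact le_of_eq rfl

theorem exists_pair {Q : Type} [MetricSpace Q] {O : Q} {p p' : ℝ → Q} (hp : LipschitzWith 1 p)
    (hp' : LipschitzWith 1 p') {P : ℝ} (hP : 0 < P) (per : ∀ t, p (t + P) = p t)
    (per' : ∀ t, p' (t + P) = p' t) {t₀ t₀' : ℝ} (h0 : p t₀ = O) (h0' : p' t₀' = O) :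
    ∃ S S' : PathFrom O,
      (∀ t₁, hit S.1 (p t₁) + hit S'.1 (p t₁) ≤ ENNReal.ofReal P) ∧
      (∀ y, 0 ≤ y → 2 * y ≤ P → p y = p (-y) →
        hit S.1 (p y) + hit S'.1 (p y) ≤ ENNReal.ofReal (max (2 * y) (P - 2 * y))) ∧
      (∀ t₁, hit S.1 (p' t₁) + hit S'.1 (p' t₁) ≤ ENNReal.ofReal (4 * P)) := by
  have hadd : ∀ {f : ℝ → Q} (_ : LipschitzWith 1 f) (c : ℝ), LipschitzWith 1 fun t => f (c + t) := by
    intro f hf c
    refine LipschitzWith.of_dist_le_mul fun x y => ?_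
    have := hf.dist_le_mul (c + x) (c + y)
    rwa [dist_add_left] at this
  have hsub : ∀ {f : ℝ → Q} (_ : LipschitzWith 1 f) (c : ℝ), LipschitzWith 1 fun t => f (c - t) := by
    intro f hf c
    refine LipschitzWith.of_dist_le_mul fun x y => ?_
    have := hf.dist_le_mul (c - x) (c - y)
    rwa [dist_sub_left] at this
  obtain ⟨S, hS1, hS2⟩ := exists_path (O := O) (f := fun t => p (t₀ + t))
    (g := fun t => p' (t₀' + t)) (hadd hp t₀) (hadd hp' t₀') hP.le (by simpa using h0)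
    (by simp [per, h0, h0'])
  obtain ⟨S', hS1', hS2'⟩ := exists_path (O := O) (f := fun t => p (t₀ - t))
    (g := fun t => p' (t₀' + t)) (hsub hp t₀) (hadd hp' t₀') hP.le (by simpa using h0)
    (by
      have := per (t₀ - P)
      rw [sub_add_cancel] at this
      simp [← this, h0, h0'])
  refine ⟨S, S', fun t₁ => ?_, fun y hy hy' h => ?_, fun t₁ => ?_⟩
  · obtain ⟨τ, hτ0, hτ1, e1, e2⟩ := two_way hP per t₀ t₁
    have h1 := hS1 τ hτ0 hτ1
    have h2 := hS1' (P - τ) (by linarith) (by linarith)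
    simp only [e1] at h1
    simp only [e2] at h2
    refine (add_le_add h1 h2).trans ?_
    rw [← ENNReal.ofReal_add hτ0 (by linarith)]
    exact ENNReal.ofReal_le_ofReal (by linarith)
  · obtain ⟨τ, τ', hτ, hτ', e1, e2, hle⟩ := two_way_double hP per t₀ hy hy' h
    have hmax : max (2 * y) (P - 2 * y) ≤ P := max_le hy' (by linarith)
    have h1 := hS1 τ hτ (by linarith)
    have h2 := hS1' τ' hτ' (by linarith)
    simp only [e1] at h1
    simp only [e2] at h2
    refine (add_le_add h1 h2).trans ?_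
    rw [← ENNReal.ofReal_add hτ hτ']
    exact ENNReal.ofReal_le_ofReal hle
  · obtain ⟨τ, hτ0, hτ1, e1, -⟩ := two_way hP per' t₀' t₁
    have h1 := hS2 τ hτ0
    have h2 := hS2' τ hτ0
    simp only [e1] at h1 h2
    refine (add_le_add h1 h2).trans ?_
    rw [← ENNReal.ofReal_add (by linarith) (by linarith)]
    exact ENNReal.ofReal_le_ofReal (by linarith)

/-- bound of the sum of the two hitting times of a connector point -/
def bd (i j : ZMod 20) : ℕ :=
  if j = i then 632 else 158 - 2 * (4 * min (i - j - 1).val (18 - (i - j - 1).val) + 3)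

theorem bd_sum : ∀ s i : ZMod 20, ∑ j ∈ Finset.univ.erase s, bd i j ≤ 3002 := by
  decide +kernel

theorem bd_val : ∀ i j : ZMod 20, j ≠ i → (i - j - 1).val ≤ 18 ∧
    8 * (i - j - 1).val + 8 ≤ bd i j ∧ 152 ≤ bd i j + 8 * (i - j - 1).val := by
  decide +kernel

theorem exists_other : ∀ s j : ZMod 20, ∃ j' : ZMod 20, j' ≠ s ∧ j' ≠ j := by
  decide +kernel

theorem exists_two (O : (neck 20).Q) (s j : ZMod 20) (hj : j ≠ s) (hO : ∀ j ≠ s, ∀ p : ℝ → (neck 20).Q,
    (∀ (i : ZMod 20) (k : Fin 6), ∀ x ∈ Icc (0 : ℝ) 1, ∃ t, p t = (neck 20).pt (i, k.castSucc) x) →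
    (∀ i : ZMod 20, i ≠ j → ∀ x ∈ Icc (0 : ℝ) 1,
        p (4 * (i - j - 1).val + 3 + x) = (neck 20).pt (i, 6) x ∧
        p (-(4 * (i - j - 1).val + 3 + x)) = (neck 20).pt (i, 6) x) → ∃ t, p t = O) :
    ∃ S S' : PathFrom O, ∀ (i : ZMod 20) (k : Fin 7), ∀ x ∈ Icc (0 : ℝ) 1,
      hit S.1 ((neck 20).pt (i, k) x) + hit S'.1 ((neck 20).pt (i, k) x) ≤
        ENNReal.ofReal (if k = 6 then (bd i j : ℝ) else 158) := by
  obtain ⟨j', hj's, hj'j⟩ := exists_other s j
  obtain ⟨p, hp, per, hp1, hp2⟩ := exists_curve 20 (by norm_num) j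
  obtain ⟨p', hp', per', hp1', hp2'⟩ := exists_curve 20 (by norm_num) j'
  have hP : ((8 : ℝ) * ((20 : ℕ) : ℝ) - 2) = 158 := by norm_num
  rw [hP] at per per'
  obtain ⟨t₀, h0⟩ := hO j hj p hp1 hp2
  obtain ⟨t₀', h0'⟩ := hO j' hj's p' hp1' hp2'
  obtain ⟨S, S', hA, hB, hC⟩ := exists_pair hp hp' (by norm_num) per per' h0 h0'
  refine ⟨S, S', fun i k x hx => ?_⟩
  by_cases hk : k = 6
  · subst hk
    rw [if_pos rfl]
    by_cases hij : i = j
    · subst hij
      obtain ⟨h1, -⟩ := hp2' i (Ne.symm hj'j) x hx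
      have := hC (4 * (i - j' - 1).val + 3 + x)
      rw [h1] at this
      refine this.trans (ENNReal.ofReal_le_ofReal ?_)
      rw [bd, if_pos rfl]
      norm_num
    · obtain ⟨h1, h2⟩ := hp2 i hij x hx
      obtain ⟨b1, b2, b3⟩ := bd_val i j (Ne.symm hij)
      have b1' : (((i - j - 1).val : ℕ) : ℝ) ≤ 18 := by exact_mod_cast b1
      have b2' : 8 * (((i - j - 1).val : ℕ) : ℝ) + 8 ≤ (bd i j : ℝ) := by exact_mod_cast b2
      have b3' : (152 : ℝ) ≤ (bd i j : ℝ) + 8 * (((i - j - 1).val : ℕ) : ℝ) := by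
        exact_mod_cast b3
      have b0 : (0 : ℝ) ≤ (((i - j - 1).val : ℕ) : ℝ) := by positivity
      have := hB (4 * (i - j - 1).val + 3 + x) (by linarith [hx.1]) (by linarith [hx.2])
        (by rw [h1, h2])
      rw [h1] at this
      refine this.trans (ENNReal.ofReal_le_ofReal (max_le ?_ ?_))
      · linarith [hx.2]
      · linarith [hx.1]
  · rw [if_neg hk]
    have hk' : k.val < 6 := by
      have h1 := k.2
      have h2 : k.val ≠ 6 := fun h => hk (Fin.ext h)
      omega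
    obtain ⟨t₁, ht₁⟩ := hp1 i ⟨k.val, hk'⟩ x hx
    have := hA t₁
    rw [ht₁] at this
    exact this

end Search

open Search in
theorem exists_search (O : (neck 20).Q) :
    ∃ σ : Measure (PathFrom O), IsProbabilityMeasure σ ∧
      ∀ H : (neck 20).Q, ∫⁻ S, hit S.1 H ∂σ ≤ ENNReal.ofReal 79 := by
  classical
  obtain ⟨⟨s, k⟩, x, hx, hO⟩ := (neck 20).exists_pt O
  have hlen : (neck 20).len (s, k) = 1 := rfl
  rw [hlen] at hx
  have hO' : ∀ j ≠ s, ∀ p : ℝ → (neck 20).Q,
      (∀ (i : ZMod 20) (k : Fin 6), ∀ x ∈ Icc (0 : ℝ) 1,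
        ∃ t, p t = (neck 20).pt (i, k.castSucc) x) →
      (∀ i : ZMod 20, i ≠ j → ∀ x ∈ Icc (0 : ℝ) 1,
        p (4 * (i - j - 1).val + 3 + x) = (neck 20).pt (i, 6) x ∧
        p (-(4 * (i - j - 1).val + 3 + x)) = (neck 20).pt (i, 6) x) → ∃ t, p t = O := by
    intro j hj p hp1 hp2
    by_cases hk : k = 6
    · subst hk
      exact ⟨_, (hp2 s (Ne.symm hj) x hx).1.trans hO⟩
    · have hk' : k.val < 6 := by
        have h1 := k.2
        have h2 : k.val ≠ 6 := fun h => hk (Fin.ext h)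
        omega
      obtain ⟨t, ht⟩ := hp1 s ⟨k.val, hk'⟩ x hx
      exact ⟨t, ht.trans hO⟩
  have hex : ∀ j : ZMod 20, ∃ S S' : PathFrom O, j ≠ s → ∀ (i : ZMod 20) (k : Fin 7),
      ∀ x ∈ Icc (0 : ℝ) 1,
      hit S.1 ((neck 20).pt (i, k) x) + hit S'.1 ((neck 20).pt (i, k) x) ≤
        ENNReal.ofReal (if k = 6 then (bd i j : ℝ) else 158) := by
    intro j
    by_cases hj : j = s
    · refine ⟨⟨fun _ => O, rfl, LipschitzWith.const' O⟩, ⟨fun _ => O, rfl, LipschitzWith.const' O⟩,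
        fun h => absurd hj h⟩
    · obtain ⟨S, S', h⟩ := exists_two O s j hj hO'
      exact ⟨S, S', fun _ => h⟩
  choose S S' hS using hex
  refine ⟨(38 : ℝ≥0∞)⁻¹ • ∑ j ∈ Finset.univ.erase s, (Measure.dirac (S j) + Measure.dirac (S' j)),
    ⟨?_⟩, fun H => ?_⟩
  · rw [Measure.smul_apply, Measure.finsetSum_apply]
    simp only [Measure.add_apply, measure_univ, smul_eq_mul, Finset.sum_const]
    rw [Finset.card_erase_of_mem (Finset.mem_univ s), Finset.card_univ, ZMod.card, nsmul_eq_mul]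
    have : ((20 - 1 : ℕ) : ℝ≥0∞) * (1 + 1) = 38 := by norm_num
    rw [this]
    exact ENNReal.inv_mul_cancel (by norm_num) (by norm_num)
  · have hmeas : Measurable fun S : PathFrom O => hit S.1 H := by
      have h1 : ∀ t : ℝ≥0, Measurable fun S : PathFrom O => S.1 t := fun t =>
        (measurable_pi_apply t).comp measurable_subtype_coe
      have h2 := measurable_hit_prod (Ω := PathFrom O) (P := fun S => S.1) h1
        (fun S => S.2.2.continuous)
      exact h2.comp (measurable_id.prodMk measurable_const)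
    rw [lintegral_smul_measure, lintegral_finsetSum_measure]
    simp only [lintegral_add_measure, lintegral_dirac' _ hmeas, smul_eq_mul]
    obtain ⟨⟨i, k⟩, y, hy, rfl⟩ := (neck 20).exists_pt H
    have hlen' : (neck 20).len (i, k) = 1 := rfl
    rw [hlen'] at hy
    have hsum : ∑ j ∈ Finset.univ.erase s, (hit (S j).1 ((neck 20).pt (i, k) y) +
        hit (S' j).1 ((neck 20).pt (i, k) y)) ≤ ENNReal.ofReal 3002 := by
      calc _ ≤ ∑ j ∈ Finset.univ.erase s,
            ENNReal.ofReal (if k = 6 then (bd i j : ℝ) else 158) :=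
            Finset.sum_le_sum fun j hj => hS j (Finset.ne_of_mem_erase hj) i k y hy
        _ = ENNReal.ofReal (∑ j ∈ Finset.univ.erase s, (if k = 6 then (bd i j : ℝ) else 158)) := by
            rw [ENNReal.ofReal_sum_of_nonneg]
            intro j _
            split_ifs <;> positivity
        _ ≤ ENNReal.ofReal 3002 := by
            apply ENNReal.ofReal_le_ofReal
            by_cases hk : k = 6
            · simp only [hk, if_true]
              exact_mod_cast bd_sum s i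
            · simp only [hk, if_false, Finset.sum_const]
              rw [Finset.card_erase_of_mem (Finset.mem_univ s), Finset.card_univ, ZMod.card]
              norm_num
    calc (38 : ℝ≥0∞)⁻¹ * _ ≤ (38 : ℝ≥0∞)⁻¹ * ENNReal.ofReal 3002 := by gcongr
      _ = ENNReal.ofReal 79 := by
        have h38 : (38 : ℝ≥0∞)⁻¹ = ENNReal.ofReal (1 / 38) := by
          rw [one_div, ENNReal.ofReal_inv_of_pos (by norm_num)]
          norm_num
        rw [h38, ← ENNReal.ofReal_mul (by norm_num)]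
        norm_num

end Pool.Agent.Gal
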