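import Pool.Agent.Helper77.Neck.Defs

/-!
# N5, first part: from times to walks
-/

open Set MeasureTheory Filter Topology
open scoped ENNReal NNReal

namespace Pool.Agent.Gal

theorem ringG_connected (R : ℕ) : (ringG R).Connected := by
  have hadj : ∀ a b : RV R, (ringG R).Adj a b ↔ a ≠ b ∧ (ringRel R a b ∨ ringRel R b a) :=
    fun a b => SimpleGraph.fromRel_adj _ _ _
  have hadj' : ∀ a b : RV R, ringRel R a b → (ringG R).Reachable a b := by
    intro a b h
    by_cases hab : a = b
    · subst hab; exact SimpleGraph.Reachable.refl _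
    · exact SimpleGraph.Adj.reachable ((hadj a b).2 ⟨hab, Or.inl h⟩)
  have key0 : ∀ (k : Fin R) (v : Fin 6), (ringG R).Reachable (some (k, 0)) (some (k, v)) := by
    intro k v
    have s1 : (ringG R).Reachable (some (k, 0)) (some (k, 1)) :=
      hadj' _ _ (Or.inl ⟨rfl, 0, by simp [nsrc], by simp [ntgt]⟩)
    have s2 : (ringG R).Reachable (some (k, 1)) (some (k, 2)) :=
      hadj' _ _ (Or.inl ⟨rfl, 1, by simp [nsrc], by simp [ntgt]⟩)
    have s3 : (ringG R).Reachable (some (k, 2)) (some (k, 3)) :=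
      hadj' _ _ (Or.inl ⟨rfl, 2, by simp [nsrc], by simp [ntgt]⟩)
    have s4 : (ringG R).Reachable (some (k, 0)) (some (k, 4)) :=
      hadj' _ _ (Or.inl ⟨rfl, 3, by simp [nsrc], by simp [ntgt]⟩)
    have s5 : (ringG R).Reachable (some (k, 4)) (some (k, 5)) :=
      hadj' _ _ (Or.inl ⟨rfl, 4, by simp [nsrc], by simp [ntgt]⟩)
    fin_cases v
    · exact SimpleGraph.Reachable.refl _
    · exact s1
    · exact s1.trans s2
    · exact (s1.trans s2).trans s3
    · exact s4
    · exact s4.trans s5
  have key1 : ∀ (m : ℕ) (hm : m < R), (ringG R).Reachable none (some (⟨m, hm⟩, 0)) := by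
    intro m
    induction m with
    | zero => intro hm; exact hadj' _ _ (Or.inl ⟨rfl, rfl⟩)
    | succ m ih =>
      intro hm
      exact ((ih (by omega)).trans (key0 _ 3)).trans (hadj' _ _ (Or.inr ⟨rfl, rfl, rfl⟩))
  have key2 : ∀ x : RV R, (ringG R).Reachable none x := by
    rintro (_ | ⟨⟨m, hm⟩, v⟩)
    · exact SimpleGraph.Reachable.refl _
    · exact (key1 m hm).trans (key0 _ v)
  exact { preconnected := fun a b => (key2 a).symm.trans (key2 b), nonempty := ⟨none⟩ }

theorem exists_walk_seq {V : Type} [Nontrivial V] (G : SimpleGraph V) (hG : G.Connected) (v₀ : V)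
    {ι : Type} [DecidableEq ι] (D : Finset ι) (a : ι → V) (τ : ι → ℝ)
    (h0 : ∀ u ∈ D, (G.dist v₀ (a u) : ℝ) ≤ τ u)
    (h1 : ∀ u ∈ D, ∀ u' ∈ D, τ u ≤ τ u' → (G.dist (a u) (a u') : ℝ) ≤ τ u' - τ u) :
    ∃ (w : ℕ → V) (n : ι → ℕ), w 0 = v₀ ∧ (∀ k, G.Adj (w k) (w (k + 1))) ∧
      (∀ u ∈ D, w (n u) = a u ∧ (n u : ℝ) ≤ τ u) ∧
      ∀ u ∈ D, ∀ u' ∈ D, τ u ≤ τ u' → n u ≤ n u' := by
  classical
  -- appending a geodesic
  have app : ∀ (w : ℕ → V) (m : ℕ) (y : V), (∀ k < m, G.Adj (w k) (w (k + 1))) →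
      ∃ w' : ℕ → V, (∀ k ≤ m, w' k = w k) ∧ w' (m + G.dist (w m) y) = y ∧
        ∀ k < m + G.dist (w m) y, G.Adj (w' k) (w' (k + 1)) := by
    intro w m y hw
    obtain ⟨p, hp⟩ := hG.exists_walk_length_eq_dist (w m) y
    refine ⟨fun k => if k ≤ m then w k else p.getVert (k - m), ?_, ?_, ?_⟩
    · intro k hk
      simp [hk]
    · by_cases h : G.dist (w m) y = 0
      · have : w m = y := by
          have := (hG.dist_eq_zero_iff).1 h
          exact this
        simp [this]
      · have h' : ¬ (m + G.dist (w m) y ≤ m) := by omega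
        simp only [h', if_false, Nat.add_sub_cancel_left]
        rw [← hp, SimpleGraph.Walk.getVert_length]
    · intro k hk
      by_cases h1 : k < m
      · have h2 : k ≤ m := h1.le
        have h3 : k + 1 ≤ m := h1
        simp only [h2, h3, if_true]
        exact hw k h1
      · have h3 : ¬ (k + 1 ≤ m) := by omega
        have h4 : k - m < p.length := by omega
        have h5 := p.adj_getVert_succ h4
        have h6 : k + 1 - m = k - m + 1 := by omega
        by_cases h7 : k ≤ m
        · have h8 : k = m := by omega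
          subst h8
          simp only [le_refl, if_true, h3, if_false, h6]
          rw [Nat.sub_self] at h5 ⊢
          rwa [SimpleGraph.Walk.getVert_zero] at h5
        · simp only [h7, h3, if_false, h6]
          exact h5
  have main : ∀ s : Finset ι, s ⊆ D → ∃ (w : ℕ → V) (n : ι → ℕ) (m : ℕ), w 0 = v₀ ∧
      (∀ k < m, G.Adj (w k) (w (k + 1))) ∧ (∀ u ∈ s, w (n u) = a u ∧ (n u : ℝ) ≤ τ u ∧ n u ≤ m) ∧
      (∀ u ∈ s, ∀ u' ∈ s, τ u ≤ τ u' → n u ≤ n u') ∧
      ((s = ∅ ∧ m = 0) ∨ ∃ l ∈ s, (∀ u ∈ s, τ u ≤ τ l) ∧ n l = m) := by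
    intro s
    refine Finset.induction_on_max_value τ s ?_ ?_
    · intro _
      exact ⟨fun _ => v₀, fun _ => 0, 0, rfl, by simp, by simp, by simp, Or.inl ⟨rfl, rfl⟩⟩
    · intro u s hus hmax ih hsub
      obtain ⟨w, n, m, hw0, hw, hn, hmono, hlast⟩ := ih (fun x hx => hsub (Finset.mem_insert_of_mem hx))
      have huD : u ∈ D := hsub (Finset.mem_insert_self _ _)
      obtain ⟨w', hw1, hw2, hw3⟩ := app w m (a u) hw
      have hne : ∀ x ∈ s, x ≠ u := fun x hx h => hus (h ▸ hx)
      -- the length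
      have hlen : ((m + G.dist (w m) (a u) : ℕ) : ℝ) ≤ τ u := by
        rcases hlast with ⟨rfl, rfl⟩ | ⟨l, hl, hlmax, hlm⟩
        · rw [hw0]
          simpa using h0 u huD
        · have h2 := hn l hl
          have h3 := h1 l (hsub (Finset.mem_insert_of_mem hl)) u huD (hmax l hl)
          rw [← hlm, h2.1]
          push_cast
          linarith [h2.2.1]
      refine ⟨w', fun x => if x = u then m + G.dist (w m) (a u) else n x,
        m + G.dist (w m) (a u), ?_, hw3, ?_, ?_, ?_⟩
      · rw [hw1 0 (Nat.zero_le _), hw0]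
      · intro x hx
        rcases Finset.mem_insert.1 hx with rfl | hx
        · simp only [if_true]
          exact ⟨hw2, hlen, le_rfl⟩
        · simp only [hne x hx, if_false]
          obtain ⟨e1, e2, e3⟩ := hn x hx
          exact ⟨by rw [hw1 _ e3, e1], e2, by omega⟩
      · intro x hx y hy hxy
        rcases Finset.mem_insert.1 hx with hx' | hx' <;>
          rcases Finset.mem_insert.1 hy with hy' | hy'
        · simp only [hx', hy', if_true]
          exact le_rfl
        · subst hx'
          simp only [if_true, hne y hy', if_false]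
          rcases hlast with ⟨rfl, rfl⟩ | ⟨l, hl, hlmax, hlm⟩
          · simp at hy'
          · have e1 : τ l = τ x := le_antisymm (hmax l hl) (hxy.trans (hlmax y hy'))
            have e2 := h1 l (hsub (Finset.mem_insert_of_mem hl)) x huD (hmax l hl)
            rw [e1, sub_self] at e2
            have e3 : G.dist (a l) (a x) = 0 := by
              have : (G.dist (a l) (a x) : ℝ) = 0 := le_antisymm e2 (Nat.cast_nonneg _)
              exact_mod_cast this
            have e4 : w m = a l := by rw [← hlm]; exact (hn l hl).1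
            rw [e4, e3, Nat.add_zero, ← hlm]
            exact hmono l hl y hy' (e1.le.trans hxy)
        · subst hy'
          simp only [if_true, hne x hx', if_false]
          have := (hn x hx').2.2
          omega
        · simp only [hne x hx', hne y hy', if_false]
          exact hmono x hx' y hy' hxy
      · right
        refine ⟨u, Finset.mem_insert_self _ _, ?_, by simp⟩
        intro x hx
        rcases Finset.mem_insert.1 hx with rfl | hx
        · exact le_rfl
        · exact hmax x hx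
  obtain ⟨w, n, m, hw0, hw, hn, hmono, -⟩ := main D subset_rfl
  have hnb : ∀ v : V, ∃ v', G.Adj v v' := by
    intro v
    obtain ⟨v', hv'⟩ := exists_ne v
    obtain ⟨p⟩ := hG.preconnected v v'
    have hp : 0 < p.length := by
      rcases Nat.eq_zero_or_pos p.length with h | h
      · exact absurd (SimpleGraph.Walk.eq_of_length_eq_zero h).symm hv'
      · exact h
    have := p.adj_getVert_succ hp
    rw [SimpleGraph.Walk.getVert_zero] at this
    exact ⟨_, this⟩
  choose nb hnb using hnb
  refine ⟨fun k => if k ≤ m then w k else nb^[k - m] (w m), n, ?_, ?_, ?_, hmono⟩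
  · simp [hw0]
  · intro k
    by_cases h1 : k < m
    · have h2 : k ≤ m := h1.le
      have h3 : k + 1 ≤ m := h1
      simp only [h2, h3, if_true]
      exact hw k h1
    · have h3 : ¬ (k + 1 ≤ m) := by omega
      have h6 : k + 1 - m = (k - m) + 1 := by omega
      have h8 : (if k ≤ m then w k else nb^[k - m] (w m)) = nb^[k - m] (w m) := by
        by_cases h7 : k ≤ m
        · have h8 : k = m := by omega
          subst h8
          simp
        · simp [h7]
      simp only [h3, if_false]
      rw [h8, h6, Function.iterate_succ_apply']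
      exact hnb _
  · intro u hu
    obtain ⟨e1, e2, e3⟩ := hn u hu
    simp only [e3, if_true]
    exact ⟨e1, e2⟩

theorem ring_latency_real_of {R : ℕ}
    (hlat : ∀ w : ℕ → RV R, w 0 = none → (∀ n, (ringG R).Adj (w n) (w (n + 1))) →
      ∀ T : At R → ℕ, (∀ u, w (T u) = atv u) → 16 * R ^ 2 ≤ ∑ u, T u)
    (hR : 1 ≤ R) (τ : At R → ℝ)
    (h0 : ∀ u, ((ringG R).dist none (atv u) : ℝ) ≤ τ u)
    (h1 : ∀ u u', τ u ≤ τ u' → ((ringG R).dist (atv u) (atv u') : ℝ) ≤ τ u' - τ u) :
    16 * (R : ℝ) ^ 2 ≤ ∑ u, τ u := by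
  classical
  have hnt : Nontrivial (RV R) := ⟨⟨none, some (⟨0, hR⟩, 0), by simp⟩⟩
  obtain ⟨w, n, hw0, hw, hn, -⟩ := exists_walk_seq (ringG R) (ringG_connected R) none
    (Finset.univ : Finset (At R)) atv τ (fun u _ => h0 u) (fun u _ u' _ h => h1 u u' h)
  have h2 := hlat w hw0 hw n (fun u => (hn u (Finset.mem_univ _)).1)
  have h3 : ((16 * R ^ 2 : ℕ) : ℝ) ≤ ((∑ u, n u : ℕ) : ℝ) := by exact_mod_cast h2
  push_cast at h3
  exact h3.trans (Finset.sum_le_sum (fun u _ => (hn u (Finset.mem_univ _)).2))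

theorem ring_mass_real_of {R : ℕ}
    (hmass : ∀ w : ℕ → RV R, w 0 = none → (∀ n, (ringG R).Adj (w n) (w (n + 1))) →
      ∀ n : ℕ, w n = none → ∀ D : Finset (At R), (∀ u ∈ D, ∃ m ≤ n, w m = atv u) →
        2 * D.card ≤ n)
    (hR : 1 ≤ R) (D : Finset (At R)) (τ : At R → ℝ) {t : ℝ}
    (ht : 0 ≤ t) (h0 : ∀ u ∈ D, ((ringG R).dist none (atv u) : ℝ) ≤ τ u)
    (h1 : ∀ u ∈ D, ∀ u' ∈ D, τ u ≤ τ u' → ((ringG R).dist (atv u) (atv u') : ℝ) ≤ τ u' - τ u)
    (h2 : ∀ u ∈ D, ((ringG R).dist (atv u) none : ℝ) ≤ t - τ u) : 2 * (D.card : ℝ) ≤ t := by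
  classical
  have hnt : Nontrivial (RV R) := ⟨⟨none, some (⟨0, hR⟩, 0), by simp⟩⟩
  have hle : ∀ u ∈ D, τ u ≤ t := fun u hu => by
    have := h2 u hu
    have h3 : (0 : ℝ) ≤ ((ringG R).dist (atv u) none : ℝ) := Nat.cast_nonneg _
    linarith
  obtain ⟨w, n, hw0, hw, hn, hmono⟩ := exists_walk_seq (ringG R) (ringG_connected R) none
    (Finset.insertNone D) (fun o : Option (At R) => match o with
      | none => none
      | some u => atv u) (fun o => match o with
      | none => t
      | some u => τ u) (by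
      rintro (_ | u) hu
      · simpa using ht
      · exact h0 u (Finset.some_mem_insertNone.1 hu)) (by
      rintro (_ | u) hu (_ | u') hu' h
      · simp
      · have hu' := Finset.some_mem_insertNone.1 hu'
        have h3 := h2 u' hu'
        have h4 : (0 : ℝ) ≤ ((ringG R).dist (atv u') none : ℝ) := Nat.cast_nonneg _
        have h5 : τ u' ≤ t := hle u' hu'
        have h6 : t ≤ τ u' := h
        show ((ringG R).dist none (atv u') : ℝ) ≤ τ u' - t
        rw [SimpleGraph.dist_comm]
        linarith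
      · exact h2 u (Finset.some_mem_insertNone.1 hu)
      · exact h1 u (Finset.some_mem_insertNone.1 hu) u' (Finset.some_mem_insertNone.1 hu') h)
  have hN := hn none (by simp)
  have h3 := hmass w hw0 hw (n none) hN.1 D (fun u hu => ⟨n (some u),
    hmono (some u) (Finset.some_mem_insertNone.2 hu) none (by simp) (hle u hu),
    (hn (some u) (Finset.some_mem_insertNone.2 hu)).1⟩)
  have h4 : ((2 * D.card : ℕ) : ℝ) ≤ (n none : ℝ) := by exact_mod_cast h3
  push_cast at h4
  exact h4.trans hN.2

end Pool.Agent.Gal
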